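import Mathlib

/-!
Project AF (MP_af6c86_pr): the probability that the critical random graph does not embed on the
surface of genus `g` is `4 ^ (-g + o(g))`.  Definitions.

Genus: rotation systems (Heffter, Edmonds).  The darts of `G` are `G.Dart`; a rotation system is a
permutation of the darts whose orbits are exactly the sets of darts leaving one vertex; the faces are
the orbits of `σ ∘ rev`, and every isolated vertex has one face of its own.
-/

namespace Pool.Agent.Helper26.AF

open Finset

/-- The number of orbits of a permutation (fixed points included). -/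
noncomputable def orb {D : Type} (π : Equiv.Perm D) : ℕ :=
  Nat.card (Quotient (Equiv.Perm.SameCycle.setoid π))

section Genus

variable {V : Type}

/-- The reversal of darts. -/
def rev (G : SimpleGraph V) : Equiv.Perm G.Dart where
  toFun d := d.symm
  invFun d := d.symm
  left_inv d := SimpleGraph.Dart.symm_symm d
  right_inv d := SimpleGraph.Dart.symm_symm d

/-- `σ` is a rotation system of `G`: it permutes the darts leaving each vertex cyclically. -/
structure IsRot (G : SimpleGraph V) (σ : Equiv.Perm G.Dart) : Prop where
  src : ∀ d : G.Dart, (σ d).fst = d.fst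
  cyc : ∀ d e : G.Dart, d.fst = e.fst → σ.SameCycle d e

/-- The number of faces of a rotation system: the orbits of `σ ∘ rev`, plus one face for every
isolated vertex. -/
noncomputable def faces (G : SimpleGraph V) (σ : Equiv.Perm G.Dart) : ℕ :=
  orb (σ * rev G) + Nat.card {v : V // ∀ w, ¬ G.Adj v w}

/-- The number of edges. -/
noncomputable def ne (G : SimpleGraph V) : ℕ := Nat.card G.edgeSet

/-- `G` embeds on the closed orientable surface with `g` handles: some rotation system satisfies
`v - e + f ≥ 2 c - 2 g`, where `c` is the number of connected components of `G`. -/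
def Embeds (G : SimpleGraph V) (g : ℕ) : Prop :=
  ∃ σ : Equiv.Perm G.Dart, IsRot G σ ∧
    2 * Nat.card G.ConnectedComponent + ne G ≤ Nat.card V + faces G σ + 2 * g

/-- The degree. -/
noncomputable def dg (G : SimpleGraph V) (v : V) : ℕ := Nat.card (G.neighborSet v)

end Genus

section Comp

variable {V : Type}

/-- `Q` is the vertex set of a connected component of `G`. -/
def IsComp (G : SimpleGraph V) (Q : Finset V) : Prop :=
  ∃ c : G.ConnectedComponent, c.supp = (Q : Set V)

/-- The number of edges of `G` with both ends in `Q`. -/
noncomputable def eIn (G : SimpleGraph V) (Q : Finset V) : ℕ :=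
  Nat.card {e : Sym2 V // e ∈ G.edgeSet ∧ ∀ v ∈ e, v ∈ Q}

open Classical in
/-- The cyclomatic number of the component `Q` if it is complex (more than one cycle), else `0`. -/
noncomputable def zq (G : SimpleGraph V) (Q : Finset V) : ℕ :=
  if IsComp G Q ∧ #Q + 1 ≤ eIn G Q then eIn G Q + 1 - #Q else 0

/-- The sum of the cyclomatic numbers of the complex components. -/
noncomputable def ZZ [Fintype V] (G : SimpleGraph V) : ℕ := ∑ Q : Finset V, zq G Q

end Comp

section Prob

variable {V : Type} [Fintype V] [DecidableEq V]

/-- The weight of a graph in the binomial random graph with edge probability `p`. -/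
noncomputable def wt (p : ℝ) (G : SimpleGraph V) : ℝ :=
  p ^ ne G * (1 - p) ^ ((Fintype.card V).choose 2 - ne G)

/-- The expectation in the binomial random graph. -/
noncomputable def EE (p : ℝ) (f : SimpleGraph V → ℝ) : ℝ := ∑ G : SimpleGraph V, wt p G * f G

open Classical in
/-- The probability in the binomial random graph. -/
noncomputable def Pr (p : ℝ) (P : SimpleGraph V → Prop) : ℝ :=
  EE p (fun G => if P G then 1 else 0)

end Prob

/-- The probability of `P` in the uniform random graph with `n` vertices and `m` edges. -/
noncomputable def prm (n m : ℕ) (P : SimpleGraph (Fin n) → Prop) : ℝ :=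
  (Nat.card {G : SimpleGraph (Fin n) // ne G = m ∧ P G} : ℝ) /
    (Nat.card {G : SimpleGraph (Fin n) // ne G = m} : ℝ)

/-- The critical edge probability `(1 + l n^(-1/3)) / n`. -/
noncomputable def pc (l : ℝ) (n : ℕ) : ℝ := (1 + l / (n : ℝ) ^ ((1 : ℝ) / 3)) / n

/-- The number of connected graphs on `Fin k` with `k + r` edges. -/
noncomputable def Nc (k r : ℕ) : ℕ :=
  Nat.card {G : SimpleGraph (Fin k) // G.Connected ∧ ne G = k + r}

/-- The number of cores: connected graphs on `Fin s` with `s + r` edges and minimal degree at least
two. -/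
noncomputable def Kc (s r : ℕ) : ℕ :=
  Nat.card {G : SimpleGraph (Fin s) // G.Connected ∧ (∀ v, 2 ≤ dg G v) ∧ ne G = s + r}

/-- Forests: `f` is the parent function, `S` the set of roots. -/
def IsFor {k : ℕ} (S : Finset (Fin k)) (f : Fin k → Fin k) : Prop :=
  (∀ x ∈ S, f x = x) ∧ ∀ x, ∃ i : ℕ, f^[i] x ∈ S

/-- Fixed point free involutions. -/
def IsPair {H : Type} (τ : Equiv.Perm H) : Prop := ∀ x, τ (τ x) = x ∧ τ x ≠ x

/-- `τ` has no component consisting of degree two vertices (elements of `W`) only. -/
def NoPure {X W : Type} (τ : Equiv.Perm (X ⊕ W × Bool)) : Prop :=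
  ∀ C : Set W, C.Nonempty → ∃ w ∈ C, ∃ b : Bool, ∀ w' ∈ C, ∀ b' : Bool,
    τ (Sum.inr (w, b)) ≠ Sum.inr (w', b')

/-- The number of pairings without pure components of degree two vertices. -/
noncomputable def NPn (X W : Type) : ℕ :=
  Nat.card {τ : Equiv.Perm (X ⊕ W × Bool) // IsPair τ ∧ NoPure τ}

/-- The number of weighted cubic multigraphs with `2 r` vertices. -/
noncomputable def ee (r : ℕ) : ℝ :=
  (Nat.doubleFactorial (6 * r - 1) : ℝ) / ((Nat.factorial (2 * r) : ℝ) * 36 ^ r)

/-- The generating polynomial of the connected graphs on `Fin j` of excess `1, ..., R`. -/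
noncomputable def yy (t u : ℝ) (R j : ℕ) : ℝ :=
  ∑ r ∈ Icc 1 R, t ^ (r + 1) * (Nc j r : ℝ) * u ^ (j + r)

end Pool.Agent.Helper26.AF
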