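import Mathlib
import Pool.Agent.Helper26.AF.Defs

/-!
Project AF (MP_af6c86_pr): statements of the packets, with complete proofs in the docstrings.
Notation of the docstrings: `n` vertices, `N = n choose 2`, `p = pc l n = (1 + e)/n` with
`e = l n^(-1/3)`, `u = p/(1-p)`, `M_k = k (n-k) + (k choose 2)` = number of pairs touching a set of `k`
vertices, `(n)_k` = falling factorial (`Nat.descFactorial`).
-/

namespace Pool.Agent.Helper26.AF

open Finset Filter Topology

/-! ### Group A: orbits of permutations, genus -/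

/-- PACKET ORBS.  Proof.  `Equiv.Perm.sign_of_cycleType`: the sign is `(-1)^(sum + card)` of the cycle
type; the number of orbits is `card D - sum + card` (the orbits with at least two elements are the
cycle factors, the other orbits are the fixed points). -/
def StmtORBS : Prop := ∀ (D : Type) [Fintype D] [DecidableEq D] (π : Equiv.Perm D),
  ((Equiv.Perm.sign π : ℤˣ) : ℤ) = (-1) ^ (Fintype.card D + orb π)

/-- PACKET SWAP (from ORBS).  Proof.  Let `ρ = π * swap a b`.  Let `O` be the set of classes of the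
equivalence relation generated by `x ~ π x` and `a ~ b`; it is also generated by `x ~ ρ x` and `a ~ b`
(`ρ x = π x` unless `x = a, b`, `ρ a = π b`, `ρ b = π a`).  Hence `|O| = orb π` if `a, b` are in the same
cycle of `π` and `orb π - 1` otherwise, and the same with `ρ`.  So `|orb ρ - orb π| ≤ 1`; by ORBS and
`sign ρ = - sign π` it is exactly `1`.  If `a, b` are in one cycle of `π` then `orb ρ ≥ |O| = orb π`, so
`orb ρ = orb π + 1`.  Otherwise `|O| = orb π - 1`; if `orb ρ` were `orb π + 1`, then `orb ρ - 1 ≤ |O|`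
would be violated.  So `orb ρ = orb π - 1`. -/
def StmtSWAP : Prop := ∀ (D : Type) [Fintype D] [DecidableEq D] (π : Equiv.Perm D) (a b : D), a ≠ b →
  (π.SameCycle a b → orb (π * Equiv.swap a b) = orb π + 1) ∧
  (¬ π.SameCycle a b → orb (π * Equiv.swap a b) + 1 = orb π)

/-- PACKET DEL (abstract edge deletion; from SWAP).  `τ` is a fixed point free involution, `d` a dart,
`d' = τ d`; the hypotheses say that `σ` does not move `d` to `d'` nor `d'` to `d`.  Proof.  Put
`σ₁ = swap d (σ d) * σ` (fixes `d`, skips `d`), `σ₂ = swap d' (σ₁ d') * σ₁` (fixes `d` and `d'`), and let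
`σ'` be the restriction of `σ₂` to the complement of `{d, d'}`.  The cycles of `σ'` are the cycles of `σ`
with `d, d'` removed.  `τ₁ = τ * swap d d'` fixes `d` and `d'` and restricts to `τ'`, so `σ' * τ'` is the
restriction of `σ₂ * τ₁`, which fixes `d, d'`: `orb (σ' τ') = orb (σ₂ τ₁) - 2`.  With `ψ = σ τ₁ =
σ * τ * swap d d'` one has `ψ d = σ d`, `ψ d' = σ d'`, and `σ₂ τ₁ = swap d' (σ₁ d') * swap d (σ d) * ψ`.
Left multiplication by `swap x (ψ x)` with `ψ x ≠ x` splits off the fixed point `x`: one more orbit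
(SWAP: `swap x (ψ x) * ψ = ψ * swap (ψ⁻¹ x) x`), and does nothing if `ψ x = x`.  Hence `orb (σ₂ τ₁) = orb ψ +
[σ d ≠ d] + [σ d' ≠ d']`. -/
def StmtDEL : Prop := ∀ (D : Type) [Fintype D] [DecidableEq D] (σ τ : Equiv.Perm D), IsPair τ →
  ∀ d : D, σ d ≠ τ d → σ (τ d) ≠ d →
  ∃ σ' : Equiv.Perm {x : D // x ≠ d ∧ x ≠ τ d},
    (∀ x y, σ'.SameCycle x y ↔ σ.SameCycle x.1 y.1) ∧
    ∀ τ' : Equiv.Perm {x : D // x ≠ d ∧ x ≠ τ d}, (∀ x, (τ' x).1 = τ x.1) →
      orb (σ' * τ') + (if σ d = d then 1 else 0) + (if σ (τ d) = τ d then 1 else 0)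
        = orb (σ * τ * Equiv.swap d (τ d))

/-- PACKET BRC (a bridge has one face on both sides).  Proof.  Let `A` be the set of vertices reachable
from `d.fst` after deletion of the edge, `X` the set of darts with source in `A`, `φ = σ * rev G`.  The
source of `φ x` is the target of `x`.  For `x ∈ X`, `x ≠ d`, the target of `x` is in `A`, so `φ x ∈ X`;
`φ d ∉ X`; for `x ∉ X`, `x ≠ d.symm`, `φ x ∉ X`.  If the `φ`-orbit `O` of `d` did not contain `d.symm`, then
`φ` maps the finite set `O \ X` into itself, hence bijectively, but `φ d ∈ O \ X` has the preimage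
`d ∈ X`. -/
def StmtBRC : Prop := ∀ (V : Type) [Fintype V] [DecidableEq V] (G : SimpleGraph V)
  (σ : Equiv.Perm G.Dart), (∀ d, (σ d).fst = d.fst) → ∀ d : G.Dart,
  ¬ (G.deleteEdges {d.edge}).Reachable d.fst d.snd → (σ * rev G).SameCycle d d.symm

/-- PACKET CCN (number of components after deletion of an edge).  Proof.  The map of components
`G - e → G` is surjective.  If the ends of `e` are joined in `G - e` it is injective.  Otherwise exactly
the component of the two ends has two preimages (a walk of `G` starting at `x` and not in the component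
of the ends does not use `e`; a vertex of the component of the ends is joined in `G - e` to one of the
two ends: take the last passage through `e` of a path). -/
def StmtCCN : Prop := ∀ (V : Type) [Fintype V] [DecidableEq V] (G : SimpleGraph V) (u v : V), G.Adj u v →
  ((G.deleteEdges {s(u, v)}).Reachable u v →
    Nat.card (G.deleteEdges {s(u, v)}).ConnectedComponent = Nat.card G.ConnectedComponent) ∧
  (¬ (G.deleteEdges {s(u, v)}).Reachable u v →
    Nat.card (G.deleteEdges {s(u, v)}).ConnectedComponent = Nat.card G.ConnectedComponent + 1)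

/-- PACKET DELG (from SWAP, DEL, BRC, CCN).  Proof.  Let `σ` be the rotation system of `G`, `d = (u, v)`,
`d' = d.symm`; `σ d ≠ d'` and `σ d' ≠ d` (different sources).  The darts of `G - e` are the darts of `G`
other than `d, d'`; DEL gives `σ'`, which is a rotation system of `G - e` (same source: `x` and `σ' x` are in
the same cycle of `σ`).  `σ d = d` iff `d` is the only dart at `u` iff `u` is isolated in `G - e` (`u` is not
isolated in `G`); the same for `v`.  So `faces (G - e) σ' = orb (σ' τ') + iso(G - e) = orb (σ τ swap d d') +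
iso(G)`, which is `faces G σ ± 1` by SWAP, with `+` if `d, d'` are in the same cycle of `σ * rev G`.  If `e` is
not a bridge: components the same (CCN), one edge less, faces at least `faces - 1`: the inequality holds.
If `e` is a bridge: one component more, one edge less, one face more (BRC): the inequality holds. -/
def StmtDELG : Prop := ∀ (V : Type) [Fintype V] [DecidableEq V] (G : SimpleGraph V) (g : ℕ) (u v : V),
  G.Adj u v → Embeds G g → Embeds (G.deleteEdges {s(u, v)}) g

/-- PACKET MONO (from DELG).  Proof.  Induction on the number of edges of `G` not in `G'`. -/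
def StmtMONO : Prop := ∀ (V : Type) [Fintype V] [DecidableEq V] (G G' : SimpleGraph V) (g : ℕ),
  G' ≤ G → Embeds G g → Embeds G' g

/-- PACKET ROT (existence of rotation systems).  Proof.  For every vertex take a permutation which is a
cycle on the set of darts leaving it (`Finset.exists_cycleOn`), and glue (`d ↦` the permutation of the
vertex `d.fst`). -/
def StmtROT : Prop := ∀ (V : Type) [Fintype V] [DecidableEq V] (G : SimpleGraph V),
  ∃ σ : Equiv.Perm G.Dart, IsRot G σ

/-- PACKET PAR (parity; from ORBS).  Proof.  `sign (σ τ) = sign σ * sign τ`, `orb τ = card D / 2` and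
`card D` even, so `(-1)^(orb (σ τ)) = (-1)^(orb σ) (-1)^(card D / 2)` by ORBS. -/
def StmtPAR : Prop := ∀ (D : Type) [Fintype D] [DecidableEq D] (σ τ : Equiv.Perm D), IsPair τ →
  Even (orb (σ * τ) + orb σ + Fintype.card D / 2)

/-- PACKET BLK (orbits in blocks).  Proof.  `f` is constant on the cycles of `π`; the cycles with value
`i` are the cycles of the restriction of `π` to `f = i`. -/
def StmtBLK : Prop := ∀ (D I : Type) [Fintype D] [Fintype I] [DecidableEq D] [DecidableEq I]
  (π : Equiv.Perm D) (f : D → I) (hf : ∀ x, f (π x) = f x),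
  orb π = ∑ i : I, orb (π.subtypePerm (p := fun x => f x = i) (fun x => by rw [hf]))

/-- PACKET UG (upper bound for the genus; from ROT, PAR, BLK).  Proof.  Take any rotation system `σ`, and
let the block of a dart be the component of its source (invariant under `σ` and `rev`).  For a component
with vertex set `Q`, `|Q| ≥ 2`: its darts are `2 e_Q`, `σ` has `|Q|` orbits there, so the number `F_Q ≥ 1` of
orbits of `σ * rev` in the block satisfies `F_Q ≡ |Q| + e_Q` mod 2 (PAR).  With `b = e_Q + 1 - |Q|` (`≥ 0`, the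
component is connected): `F_Q ≡ b + 1` mod 2, hence `F_Q ≥ 1` if `b` is even and `F_Q ≥ 2` if `b` is odd, that
is `|Q| + F_Q + 2 ⌊b/2⌋ ≥ e_Q + 2`.  For an isolated vertex count its own face: `1 + 1 ≥ 0 + 2`.  Sum over the
components (BLK): `V + faces + 2 ∑ ⌊b/2⌋ ≥ ne + 2 c`.  Only complex components (`b ≥ 2`) have `⌊b/2⌋ > 0`, so
`∑ ⌊b/2⌋ ≤ ⌊ZZ G / 2⌋ ≤ g`. -/
def StmtUG : Prop := ∀ (V : Type) [Fintype V] [DecidableEq V] (G : SimpleGraph V) (g : ℕ),
  ZZ G ≤ 2 * g + 1 → Embeds G g

/-! ### Group B: the binomial random graph -/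

/-- PACKET CYL (cylinder sets).  Proof.  A graph is a subset of the `N` non-diagonal elements of
`Sym2 V`, the weight is the product weight; `∑_{T ⊆ E} p^|T| (1-p)^(|E|-|T|) = 1`
(`Finset.sum_pow_mul_eq_add_pow` / `Finset.prod_add`) applied to `E` minus `A ∪ B`. -/
def StmtCYL : Prop := ∀ (V : Type) [Fintype V] [DecidableEq V] (p : ℝ) (A B : Finset (Sym2 V)),
  Disjoint A B → (∀ e ∈ A ∪ B, ¬ e.IsDiag) →
  Pr (V := V) p (fun G => (∀ e ∈ A, e ∈ G.edgeSet) ∧ ∀ e ∈ B, e ∉ G.edgeSet)
    = p ^ #A * (1 - p) ^ #B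

/-- PACKET CMP (probability of prescribed components; from CYL).  `G.comap (Q.orderEmbOfFin rfl)` is the
graph induced on `Q`, read on `Fin #Q`.  Proof.  For given graphs `H_i` on `Fin #(Q i)` the event that every
`Q i` is the vertex set of a component and `G` induces `H_i` there is, if every `H_i` is connected, the
cylinder: the edges of the `H_i` are in, all other pairs touching `⋃ Q i` are out (and it is empty if
some `H_i` is not connected).  The number of pairs touching a `k`-set is `k (n-k) + (k choose 2)`; so its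
probability is `(p/(1-p))^(∑ ne H_i) (1-p)^(k (n-k) + (k choose 2))`.  Sum over all `(H_i)`. -/
def StmtCMP : Prop := ∀ (n q : ℕ) (Q : Fin q → Finset (Fin n)), (∀ i j, i ≠ j → Disjoint (Q i) (Q j)) →
  (∀ i, (Q i).Nonempty) → ∀ (P : Fin q → ∀ k : ℕ, SimpleGraph (Fin k) → Prop) (p : ℝ), 0 < p → p < 1 →
  Pr p (fun G : SimpleGraph (Fin n) => ∀ i, IsComp G (Q i) ∧
      P i #(Q i) (G.comap ((Q i).orderEmbOfFin rfl)))
    = (1 - p) ^ ((∑ i, #(Q i)) * (n - ∑ i, #(Q i)) + (∑ i, #(Q i)).choose 2) *
      ∏ i, ∑ᶠ H : {H : SimpleGraph (Fin #(Q i)) // H.Connected ∧ P i #(Q i) H},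
        (p / (1 - p)) ^ ne H.1

/-- PACKET TUPC (number of tuples of disjoint sets).  Proof.  Induction on `q`: given `Q_1, ..., Q_(q-1)`
with union of size `a`, there are `(n - a) choose j_q` choices, and `(n)_(a+j) = (n)_a (n-a)_j`,
`(n-a)_j = j! ((n-a) choose j)`. -/
def StmtTUPC : Prop := ∀ (n q : ℕ) (j : Fin q → ℕ),
  Nat.card {Q : Fin q → Finset (Fin n) // (∀ a b, a ≠ b → Disjoint (Q a) (Q b)) ∧ ∀ a, #(Q a) = j a} *
    ∏ a, (j a).factorial = n.descFactorial (∑ a, j a)

/-- PACKET EXPD (from CMP, TUPC).  Proof.  Let `cx G` be the set of complex components `Q` (`IsComp G Q`,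
`#Q + 1 ≤ eIn G Q`), `ZZ G = ∑_{Q ∈ cx G} (r_Q + 1)` with `r_Q = eIn G Q - #Q`.  If all `r_Q ≤ R` and
`|cx G| = q` then `t^(ZZ G) = (1/q!) ∑` over the `q!` bijections `Q : Fin q → cx G` of `∏ t^(r_(Q i) + 1)`, so
it is at most `(1/q!) ∑` over all tuples `Q` of pairwise disjoint nonempty sets and all `r : Fin q →
[1, R]` of `∏ t^(r_i + 1)` times the indicator that every `Q i` is a component with exactly `#(Q i) + r_i`
edges inside (`q ≤ n`).  Take expectations (CMP with `P i k H : ne H = k + r_i`; `eIn G Q` is the number of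
edges of the induced graph), sum over `r` (this gives `∏ yy t u R #(Q i)`), and group the tuples by their
sizes (TUPC). -/
def StmtEXPD : Prop := ∀ (n R : ℕ) (p t : ℝ), 0 < p → p < 1 → 1 ≤ t →
  EE p (fun G : SimpleGraph (Fin n) => open Classical in
      if ∀ Q, IsComp G Q → eIn G Q ≤ #Q + R then t ^ ZZ G else 0)
    ≤ ∑ q ∈ range (n + 1), (1 / (q.factorial : ℝ)) *
        ∑ j ∈ Fintype.piFinset (fun _ : Fin q => Icc 1 n),
          ((n.descFactorial (∑ i, j i) : ℝ) / ∏ i, ((j i).factorial : ℝ)) *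
          (1 - p) ^ ((∑ i, j i) * (n - ∑ i, j i) + (∑ i, j i).choose 2) *
          ∏ i, yy t (p / (1 - p)) R (j i)

/-- PACKET EXPB (from EXPD).  Proof.  If `∑ j_i > n` the descending factorial is `0`; otherwise insert the
hypotheses: each term is at most `C ∏ A(j_i) yy(j_i) / j_i!`, the inner sum is at most `C (∑_j ...)^q`, and
`∑ x^q/q! ≤ exp x` for `x ≥ 0`. -/
def StmtEXPB : Prop := ∀ (n R : ℕ) (p t C : ℝ) (A : ℕ → ℝ), 0 < p → p < 1 → 1 ≤ t → 0 ≤ C →
  (∀ k, 0 ≤ A k) → A 0 = 1 → (∀ a b, A (a + b) ≤ A a * A b) →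
  (∀ k ≤ n, (n.descFactorial k : ℝ) * (1 - p) ^ (k * (n - k) + k.choose 2) ≤ C * A k) →
  EE p (fun G : SimpleGraph (Fin n) => open Classical in
      if ∀ Q, IsComp G Q → eIn G Q ≤ #Q + R then t ^ ZZ G else 0)
    ≤ C * Real.exp (∑ j ∈ Icc 1 n, yy t (p / (1 - p)) R j * A j / (j.factorial : ℝ))

/-- PACKET ISG (the Ising identity; from CYL or directly).  Proof.  `2^(number of components)` is the
number of vertex sets `A` without edges between `A` and its complement (unions of components).  For fixed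
`A`, `E[2^(ne G) 1(no edge between A and its complement)]` is a product over the pairs: `1 - p` for the
`|A| (n - |A|)` crossing pairs, `(1 - p) + 2 p = 1 + p` for the others. -/
def StmtISG : Prop := ∀ (V : Type) [Fintype V] [DecidableEq V] (p : ℝ),
  EE (V := V) p (fun G => (2 : ℝ) ^ (ne G + Nat.card G.ConnectedComponent))
    = ∑ A : Finset V, (1 - p) ^ (#A * (Fintype.card V - #A)) *
        (1 + p) ^ ((Fintype.card V).choose 2 - #A * (Fintype.card V - #A))

/-- PACKET ISN (from ISG).  Proof.  If `Q` is a component with `eIn G Q ≥ #Q + R + 1` then, since every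
component `Q'` has `eIn G Q' + 1 ≥ #Q'`, summing over all components `ne G + c ≥ n + R + 2`.  So the
probability is at most `2^(-n-R-2) E[2^(ne G + c)]`.  In ISG use `1 - p ≤ e^(-p)`, `1 + p ≤ e^p`: the term of
`A`, `|A| = n/2 + x`, is at most `exp (p (N - 2 |A| (n-|A|))) = exp (p (2 x² - n/2)) ≤ exp (2 p x²)`, and the
number of `A` is `(n choose |A|) ≤ 2^n exp (-2 x²/n)` (from `∑_k (n choose k) e^(h (2k - n)) = (2 cosh h)^n ≤
2^n e^(n h²/2)` with `h = 2x/n`).  Hence `2^(-n) E[...] ≤ (n+1) exp (2 x² (p - 1/n)) ≤ (n+1) exp (|l| n^(2/3))`,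
and `2^(-⌊c n⌋) (n+1) exp (|l| n^(2/3)) → 0`. -/
def StmtISN : Prop := ∀ (l c : ℝ), 0 < c →
  Tendsto (fun n : ℕ => Pr (pc l n) (fun G : SimpleGraph (Fin n) =>
    ∃ Q, IsComp G Q ∧ #Q + ⌊c * n⌋₊ < eIn G Q)) atTop (𝓝 0)

/-- PACKET TR1 (monotone properties, `G(n,m)` versus `G(n,p)`).  Proof.  `Pr p P = ∑_j Pr p (ne = j) *
prm n j P` over `j ≤ N`; `prm n j P` is nondecreasing in `j` for increasing `P` (local LYM, or double
counting of the pairs (graph with `j` edges, graph with `j+1` edges containing it): `(N - j) |P_j| ≤ (j+1)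
|P_(j+1)|`, `|all_j| (N-j) = |all_(j+1)| (j+1)`).  First inequality: keep `j ≥ m`.  Second: split `j ≤ m`,
`j > m`. -/
def StmtTR1 : Prop := ∀ (n m : ℕ) (p : ℝ) (P : SimpleGraph (Fin n) → Prop),
  (∀ G G', G ≤ G' → P G → P G') → 0 ≤ p → p ≤ 1 → m ≤ n.choose 2 →
  prm n m P * Pr p (fun G : SimpleGraph (Fin n) => m ≤ ne G) ≤ Pr p P ∧
  Pr p P ≤ prm n m P + Pr p (fun G : SimpleGraph (Fin n) => m < ne G)

/-- PACKET CHE (Chebyshev for the number of edges; from CYL).  Proof.  `ne G` is the sum of the `N`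
indicators of the pairs, which by CYL have mean `p` and are pairwise independent, so the variance is
`N p (1-p) ≤ p N`. -/
def StmtCHE : Prop := ∀ (n : ℕ) (p t : ℝ), 0 ≤ p → p ≤ 1 → 0 < t →
  Pr p (fun G : SimpleGraph (Fin n) => t ≤ |(ne G : ℝ) - p * (n.choose 2 : ℕ)|)
    ≤ p * (n.choose 2 : ℕ) / t ^ 2

/-- PACKET TR (from TR1, CHE).  Proof.  `pc (l ± 1) n * N = (n - 1)/2 * (1 + (l ± 1) n^(-1/3)) = n/2 + (l ±
1) n^(2/3)/2 + O(1)`, and `m n = n/2 + l n^(2/3)/2 + o(n^(2/3))`; so the edge number of the random graph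
with probability `pc (l+1) n` is `≥ m n`, the one with `pc (l-1) n` is `≤ m n`, up to events of probability
`O(n / n^(4/3)) → 0` (CHE with `t = n^(2/3)/4`).  Insert in TR1 (`prm ≤ 1`, `Pr ≤ 1`). -/
def StmtTR : Prop := ∀ (l : ℝ) (m : ℕ → ℕ),
  Tendsto (fun n : ℕ => ((m n : ℝ) - n / 2) / (n : ℝ) ^ ((2 : ℝ) / 3)) atTop (𝓝 (l / 2)) →
  ∀ (P : ∀ n : ℕ, SimpleGraph (Fin n) → Prop), (∀ n G G', G ≤ G' → P n G → P n G') →
  ∀ ε : ℝ, 0 < ε → ∀ᶠ n : ℕ in atTop,
    prm n (m n) (P n) ≤ Pr (pc (l + 1) n) (P n) + ε ∧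
    Pr (pc (l - 1) n) (P n) - ε ≤ prm n (m n) (P n)

end Pool.Agent.Helper26.AF
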