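import Pool.Agent.Helper15.AF.Goals2
import Pool.Agent.Helper61.DT.DEPCNT

/-!
# Project AF (MP_34c247_lc), packet LTS
-/

namespace Pool.Agent.Helper26.AF

open Pool.Agent.Helper81.CC Pool.Agent.Helper51.ZP Pool.Agent.Helper78.DT Pool.Agent.Helper78.JT
open Pool.Agent.Helper15.AF
open scoped Classical

theorem dot_add {n : ℕ} (a b : Fin n → ZMod 2) (x : Fin n → Bool) :
    dot (a + b) x = dot a x + dot b x := by
  unfold dot
  rw [← Finset.sum_add_distrib]
  exact Finset.sum_congr rfl fun v _ => by rw [Pi.add_apply, add_mul]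

theorem dot_comb {n ρ : ℕ} (a : Fin ρ → Fin n → ZMod 2) (l : Fin ρ → ZMod 2) (x : Fin n → Bool) :
    dot (comb a l) x = ∑ i, l i * dot (a i) x := by
  unfold dot comb
  simp only [Finset.sum_mul, Finset.mul_sum]
  rw [Finset.sum_comm]
  exact Finset.sum_congr rfl fun i _ => Finset.sum_congr rfl fun v _ => by ring

theorem dot_ind {n : ℕ} (S : Finset (Fin n)) (x : Fin n → Bool) :
    dot (ind S) x = ∑ v ∈ S, b2z (x v) := by
  unfold dot ind
  simp only [ite_mul, one_mul, zero_mul]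
  rw [Finset.sum_ite_mem, Finset.univ_inter]

theorem sum_sub {n : ℕ} (A : Set (Fin n)) (s : A → ZMod 2) (x : Fin n → Bool) :
    ∑ v : A, s v * b2z (x v) =
      ∑ v ∈ Finset.univ.filter (fun v : Fin n => ∃ h : v ∈ A, s ⟨v, h⟩ = 1), b2z (x v) := by
  have h1 : ∀ v : A, s v * b2z (x v) = if s v = 1 then b2z (x v) else 0 := by
    intro v
    rcases zmod2_cases (s v) with h | h <;> simp [h]
  simp only [h1]
  rw [← Finset.sum_filter]
  symm
  refine Finset.sum_bij' (fun v hv => ⟨v, (Finset.mem_filter.1 hv).2.choose⟩) (fun v _ => (v : Fin n))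
    ?_ ?_ ?_ ?_ ?_
  · intro v hv
    exact Finset.mem_filter.2 ⟨Finset.mem_univ _, (Finset.mem_filter.1 hv).2.choose_spec⟩
  · intro v hv
    exact Finset.mem_filter.2 ⟨Finset.mem_univ _, v.2, (Finset.mem_filter.1 hv).2⟩
  · intro v _
    rfl
  · intro v _
    rfl
  · intro v _
    rfl

theorem lts (hlaw : LawStmt) : LtsStmt := by
  intro Ω Ω' _ _ n r ρ t k F g a c X X' hX
  have hdep : ∀ (x y : Fin n → Bool), (∀ v ∈ varsJ g, x v = y v) →
      (∀ j, ev (g j) x = ev (g j) y) ∧ (BadJ t k g x ↔ BadJ t k g y) := by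
    intro x y h
    refine ⟨fun j => Pool.Agent.Helper61.DT.ev_congr _ fun v hv => h v ⟨j, hv⟩, ?_, ?_⟩
    · rintro ⟨j, hj⟩
      exact ⟨j, Pool.Agent.Helper61.DT.bad_imp (fun v hv => h v ⟨j, hv⟩) hj⟩
    · rintro ⟨j, hj⟩
      exact ⟨j, Pool.Agent.Helper61.DT.bad_imp (fun v hv => (h v ⟨j, hv⟩).symm) hj⟩
  let xt : (Fin n → Bool) → (varsJ g ⊕ Fin ρ) → ZMod 2 :=
    fun x => Sum.elim (fun v => b2z (x v)) (fun i => dot (a i) x)
  let bk : ((varsJ g ⊕ Fin ρ) → ZMod 2) → Fin n → Bool :=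
    fun y v => if h : v ∈ varsJ g then z2b (y (Sum.inl ⟨v, h⟩)) else false
  let E : ((varsJ g ⊕ Fin ρ) → ZMod 2) → Prop := fun y =>
    F (fun j => ev (g j) (bk y)) (decide (BadJ t k g (bk y))) (fun i => y (Sum.inr i) + c i) = true
  have hbk : ∀ x : Fin n → Bool, ∀ v ∈ varsJ g, bk (xt x) v = x v := by
    intro x v hv
    simp only [bk, xt, dif_pos hv, Sum.elim_inl, z2b_b2z]
  have hE : ∀ x, ts F t k g a c x ↔ E (xt x) := by
    intro x
    obtain ⟨h1, h2⟩ := hdep _ _ (hbk x)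
    simp only [ts, E, h1, h2]
    rfl
  have hchar : ∀ (l : (varsJ g ⊕ Fin ρ) → ZMod 2) (x : Fin n → Bool),
      ∑ i, l i * xt x i = dot (comb a (fun i => l (Sum.inr i)) + ind (Finset.univ.filter
        (fun v : Fin n => ∃ h : v ∈ varsJ g, l (Sum.inl ⟨v, h⟩) = 1))) x := by
    intro l x
    rw [Fintype.sum_sum_type, dot_add, dot_comb, dot_ind, add_comm]
    congr 1
    exact sum_sub (varsJ g) (fun v => l (Sum.inl v)) x
  have hmain := hlaw Ω Ω' (varsJ g ⊕ Fin ρ) (fun ω => xt (X ω)) (fun ω => xt (X' ω)) (by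
    intro l
    simp only [hchar]
    apply hX
    intro v hv
    rw [Finset.mem_coe, Finset.mem_filter] at hv
    exact hv.2.choose) E
  have e1 : (fun ω => ts F t k g a c (X ω)) = fun ω => E (xt (X ω)) := funext fun ω => propext (hE _)
  have e2 : (fun ω => ts F t k g a c (X' ω)) = fun ω => E (xt (X' ω)) := funext fun ω => propext (hE _)
  rw [e1, e2]
  exact hmain

end Pool.Agent.Helper26.AF
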