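import Mathlib
import Pool.Agent.Helper26.AF.Defs

/-!
Project AF (MP_af6c86_pr): statements of the packets, second part (counting: forests, cores,
pairings, the kernel).
-/

namespace Pool.Agent.Helper26.AF

open Finset Filter Topology

/-! ### Group C: forests, cores, pairings -/

/-- PACKET FOR (Cayley's formula for rooted forests, division free).  Proof.  Let `F(s,k)` be the number of
`f` for a root set of size `s` (it depends only on `s`, `k`).  Layers: the set `J` of the `x ∉ S` with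
`f x ∈ S` is arbitrary of some size `j`, its values are arbitrary in `S` (`s^j` choices), and `f` off `S` is
a forest on the `k - s` vertices outside `S` with root set `J` (replace `f` by the identity on `J`):
`F(s,k) = ∑_j (k-s choose j) s^j F(j, k-s)` for `s < k` (`F(0, m) = 0` for `m > 0`), `F(k,k) = 1`.  By strong
induction with `m = k - s`: `F(s,k) = ∑_(j ≥ 1) (m choose j) s^j j m^(m-j-1) = ∑ (m-1 choose j-1) s^j m^(m-j) =
s (s + m)^(m-1)`, that is `k F(s,k) = s k^(k-s)`. -/
def StmtFOR : Prop := ∀ (k : ℕ) (S : Finset (Fin k)), S.Nonempty →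
  Nat.card {f : Fin k → Fin k // IsFor S f} * k = #S * k ^ (k - #S)

/-- PACKET COR2 (2-core decomposition, upper bound; from FOR).  Proof.  Let `G` be connected on `Fin k` with
`k + r` edges, `r ≥ 1`.  Claim: there are a nonempty `S` and `f` with `IsFor S f` such that the graph induced
on `S` is connected with `#S + r` edges and minimal degree at least two, `G.Adj x (f x)` for `x ∉ S`, and every
edge of `G` is inside `S` or of the form `{x, f x}` with `x ∉ S`.  Peel leaves: for a vertex set `W` with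
`G[W]` connected with `#W + r` edges, either `G[W]` has minimal degree at least two (`S = W`, `f = id` on
`W`) or there is a leaf `x` of `G[W]` (degree `0` is impossible, `G[W]` would be one vertex with
`1 + r > 0` edges); `G[W \ {x}]` is connected with `#W - 1 + r` edges, and put `f x` = the neighbour of `x`.
So `G` is determined by `S`, the graph induced on `S` (read on `Fin #S` by `S.orderEmbOfFin`) and `f`:
`Nc k r ≤ ∑_S Kc #S r * #{f // IsFor S f}`; multiply by `k` and use FOR. -/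
def StmtCOR2 : Prop := ∀ (k r : ℕ), 1 ≤ r →
  Nc k r * k ≤ ∑ s ∈ Icc 1 k, k.choose s * Kc s r * (s * k ^ (k - s))

/-- PACKET CORI (2-core decomposition, lower bound; from FOR).  Proof.  To a nonempty `S`, a graph `Γ` on
`Fin #S` with `T #S Γ` and `f` with `IsFor S f` assign the graph `G` whose edges are those of `Γ` (transported to
`S` by `S.orderEmbOfFin`) and the `{x, f x}`, `x ∉ S`.  It is connected, has `#S + r + (k - #S) = k + r` edges
(`{x, f x} = {y, f y}` with `x ≠ y` would give `f (f x) = x`, impossible), and induces `Γ` on `S`.  Injectivity: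
let `(S, Γ, f)`, `(S', Γ', f')` give the same `G`.  If `S' ⊄ S` take `x ∈ S' \ S` with the largest depth (least `i`
with `f^[i] x ∈ S`); the neighbours of `x` in `G` are `f x` and elements `y ∉ S` with `f y = x`, which are deeper,
so `x` has at most one neighbour in `S'`, but its degree in `G[S']` is at least two.  So `S = S'`, `Γ = Γ'`.
If `f x ≠ f' x` for some `x ∉ S`: the edge `{x, f' x}` is not `{x, f x}`, so `y = f' x ∉ S` and `f y = x`; then
`f' y ≠ x` (no 2-cycle), so `f' y ≠ f y`, and we can repeat with `y`: the `f'`-path of `x` never enters `S`,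
contradiction.  Finally count with FOR. -/
def StmtCORI : Prop := ∀ (k r : ℕ) (T : ∀ s : ℕ, SimpleGraph (Fin s) → Prop),
  (∀ s Γ, T s Γ → Γ.Connected ∧ (∀ v, 2 ≤ dg Γ v) ∧ ne Γ = s + r) →
  ∑ s ∈ Icc 1 k, k.choose s * Nat.card {Γ : SimpleGraph (Fin s) // T s Γ} * (s * k ^ (k - s))
    ≤ Nat.card {G : SimpleGraph (Fin k) // G.Connected ∧ ne G = k + r ∧
        ∃ S : Finset (Fin k), T #S (G.comap (S.orderEmbOfFin rfl))} * k

/-- PACKET PMC (number of fixed point free involutions).  Proof.  Induction on `L`: the image of a fixed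
point `x` is any of the other `2 L - 1` points, the rest is a fixed point free involution of `2 L - 2`
points; `(2 L - 1)!! = (2 L - 1) (2 L - 3)!!`. -/
def StmtPMC : Prop := ∀ (H : Type) [Fintype H] (L : ℕ), Fintype.card H = 2 * L →
  Nat.card {τ : Equiv.Perm H // IsPair τ} = Nat.doubleFactorial (2 * L - 1)

/-- `τ'` is obtained from `τ` by inserting a new vertex of degree two, with darts `inr false`,
`inr true`, in the pair `{h, τ h}`. -/
structure IsIns {H : Type} (τ : Equiv.Perm H) (h : H) (τ' : Equiv.Perm (H ⊕ Bool)) : Prop where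
  a : τ' (Sum.inr false) = Sum.inl h
  b : τ' (Sum.inr true) = Sum.inl (τ h)
  c : τ' (Sum.inl h) = Sum.inr false
  d : τ' (Sum.inl (τ h)) = Sum.inr true
  e : ∀ x, x ≠ h → x ≠ τ h → τ' (Sum.inl x) = Sum.inl (τ x)

/-- PACKET INS (insertion of a vertex of degree two).  Proof.  (1) Define `τ'` by the formulas, it is a
fixed point free involution.  (2) Given `τ'` with `τ' (inr false) ≠ inr true`, both `inr` points are mapped to
`inl` points `inl h`, `inl h'`, `h ≠ h'`; let `τ h = h'`, `τ h' = h` and `inl (τ x) = τ' (inl x)` otherwise.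
(3) `h₁ = h₂` by `a`, then `τ₁ h₁ = τ₂ h₁` by `b`, and the other values by `e` (and involution).
(4) With `φ = σ τ`, `φ' = (σ ⊕ swap) τ'`: `φ' (inl x) = inl (φ x)` for `x ≠ h, τ h`, `inl h ↦ inr true ↦
inl (φ h)`, `inl (τ h) ↦ inr false ↦ inl (φ (τ h))`: the cycles of `φ'` are the cycles of `φ` with two points
inserted. -/
def StmtINS : Prop := ∀ (H : Type) [Fintype H] [DecidableEq H],
  (∀ (τ : Equiv.Perm H) (h : H), IsPair τ → ∃ τ', IsIns τ h τ' ∧ IsPair τ') ∧
  (∀ τ' : Equiv.Perm (H ⊕ Bool), IsPair τ' → τ' (Sum.inr false) ≠ Sum.inr true →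
    ∃ τ h, IsPair τ ∧ IsIns τ h τ') ∧
  (∀ τ₁ τ₂ h₁ h₂ τ', IsPair τ₁ → IsPair τ₂ → IsIns (H := H) τ₁ h₁ τ' → IsIns τ₂ h₂ τ' →
    τ₁ = τ₂ ∧ h₁ = h₂) ∧
  (∀ τ h τ' (σ : Equiv.Perm H), IsPair τ → IsIns τ h τ' →
    orb (Equiv.sumCongr σ (Equiv.swap false true) * τ') = orb (σ * τ))

/-- PACKET NPC (number of pairings without pure components of degree two vertices; from PMC, INS).
Proof.  `NPn` depends only on the cardinalities; induction on `|W|`.  `X ⊕ Option W × Bool` is
`(X ⊕ W × Bool) ⊕ Bool`.  If `τ'` is a pairing without pure component then `τ' (none, false) ≠ (none, true)`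
(otherwise `{none}` is pure), so by INS `τ'` is the insertion of the new vertex in a unique pair of a unique
pairing `τ` at a unique dart `h`, and `τ` has a pure component iff `τ'` has (add or remove the new vertex).
So `NPn X (Option W) = (|X| + 2 |W|) NPn X W`; and `NPn X ∅` is PMC. -/
def StmtNPC : Prop := ∀ (X W : Type) [Fintype X] [Fintype W] [DecidableEq X] [DecidableEq W] (L : ℕ),
  Fintype.card X = 2 * L →
  NPn X W = Nat.doubleFactorial (2 * L - 1) * ∏ i ∈ range (Fintype.card W), (2 * L + 2 * i)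

/-- PACKET PAU (graphs with given degrees and pairings).  Proof.  Let `Γ` be as on the left and let `lab v :
Fin (d v) ≃ Γ.neighborSet v` for every `v` (there are `∏ (d v)!` families `lab`).  Define on the darts `(v, i)`,
`i < d v`, the pairing `τ (v, i) = (w, j)`, where `w = lab v i` and `lab w j = v`.  `(Γ, lab)` is determined by `τ`
(`lab v i` is the vertex of `τ (v, i)`).  `τ` is a fixed point free involution.  There is no nonempty set `C`
of vertices of degree two closed under `τ`: it would be a union of components of the connected graph `Γ`,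
so all degrees are two and `ne Γ = s`, but `r ≥ 1`.  Identify the darts with
`(Σ v with d v ≠ 2, Fin (d v)) ⊕ {v // d v = 2} × Bool`. -/
def StmtPAU : Prop := ∀ (s r : ℕ) (d : Fin s → ℕ), 1 ≤ r → (∀ v, 2 ≤ d v) →
  Nat.card {Γ : SimpleGraph (Fin s) // Γ.Connected ∧ (∀ v, dg Γ v = d v) ∧ ne Γ = s + r} *
      ∏ v, (d v).factorial
    ≤ NPn (Σ v : {v : Fin s // d v ≠ 2}, Fin (d v.1)) {v : Fin s // d v = 2}

/-- PACKET KFO (upper bound for the number of cores; from NPC, PAU).  Proof.  Sum PAU over the degree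
functions `d ≥ 2` with `∑ d = 2 (s + r)`.  Let `B` be the set of vertices with `d v ≥ 3`, `v = |B|`.  Since
`∑_B (d - 2) = 2 r`, `1 ≤ v ≤ 2 r`, `∑_B d = 2 L`, `L = v + r`, `|W| = s - v`, and `∏_(i < s-v) (2 L + 2 i) = 2^(s-v)
(s + r - 1)!/(v + r - 1)!`.  So the number for `d` is at most `(2v+2r-1)!! ((s+r-1)!/(v+r-1)!) / ∏_B (d v)!`.
For fixed `B` write `d = 3 + j`, `∑ j = 2 r - v`; `(3 + j)! ≥ 6 j!`, so `∑_d 1/∏ (d v)! ≤ 6^(-v) ∑_j 1/∏ j! =
6^(-v) v^(2r-v)/(2r-v)!` (multinomial theorem, `Finset.sum_pow_eq_sum_piAntidiag` or `exp` series).  There are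
`(s choose v)` sets `B`. -/
def StmtKFO : Prop := ∀ (s r : ℕ), 1 ≤ r → 1 ≤ s →
  (Kc s r : ℝ) ≤ ∑ v ∈ Icc 1 (2 * r), (s.choose v : ℝ) * (Nat.doubleFactorial (2 * v + 2 * r - 1) : ℝ) *
    (((s + r - 1).factorial : ℝ) / ((v + r - 1).factorial : ℝ)) * (1 / 6 : ℝ) ^ v *
    ((v : ℝ) ^ (2 * r - v) / ((2 * r - v).factorial : ℝ))

/-- PACKET KNU (from KFO).  Proof.  Divide by `s!`: the term `v ≤ s` is `T_v = (2v+2r-1)!! (s+r-1)!
6^(-v) v^(2r-v) / (v! (s-v)! (v+r-1)! (2r-v)!)` (for `v > s` it is `0`), and `(s+r-1)!/(s-v)! ≤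
(s+r)^(v+r-1)`.  Let `j = 2 r - v`.  Compared with `T = ee r (s+r)^(3r-1)/(3r-1)!` (the case `j = 0` of the
bound) the bound for `T_v` has the ratio `(s+r)^(-j) [(2r)!/v!] [(3r-1)!/(v+r-1)!] [(2v+2r-1)!!/(6r-1)!!] 6^j v^j/j!
≤ (s+r)^(-j) (2r)^j (3r)^j (2r)^(-j) 6^j (2r)^j / j! = (36 r²/(s+r))^j/j!` (`(6r-1)!!/(6r-2j-1)!!` is a product of
`j` numbers `≥ 6r - 2j + 1 ≥ 2r`, as `j ≤ 2r - 1`).  Sum over `j`. -/
def StmtKNU : Prop := ∀ (s r : ℕ), 1 ≤ r → 1 ≤ s →
  (Kc s r : ℝ) / (s.factorial : ℝ) ≤ ee r / ((3 * r - 1).factorial : ℝ) * ((s : ℝ) + r) ^ (3 * r - 1) *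
    Real.exp (36 * (r : ℝ) ^ 2 / ((s : ℝ) + r))

/-! ### The kernel -/

/-- The involution of `X ⊕ W × Bool` exchanging the two darts of every vertex of degree two. -/
def sW (X W : Type) : Equiv.Perm (X ⊕ W × Bool) :=
  Equiv.sumCongr (Equiv.refl X) (Equiv.prodCongr (Equiv.refl W) (Equiv.swap false true))

/-- `τ` has a kernel edge with at most one interior vertex. -/
def Short {X W : Type} (τ : Equiv.Perm (X ⊕ W × Bool)) : Prop :=
  ∃ x : X, (∃ y, τ (Sum.inl x) = Sum.inl y) ∨ ∃ y, τ (sW X W (τ (Sum.inl x))) = Sum.inl y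

/-- PACKET SUB (subdivision engine; from INS).  Proof.  Induction on `N`; `X ⊕ Fin (N+1) × Bool` is
`(X ⊕ Fin N × Bool) ⊕ Bool` (new vertex `Fin.last N`).  `S_0 = {κ}` and `S_(N+1)` is the set of all insertions of
the new vertex in elements of `S_N` at all `|X| + 2 N` darts: the count follows from INS (3).  `IsPair`:
INS (1).  No pure components: `κ` has no vertices of degree two; a set closed under the new pairing gives
one closed under the old one (remove the new vertex; it is not alone, its darts are paired with old darts).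
The orbit identity: INS (4) (the new rotation is `σ` on `X` and the exchange on all vertices of degree two).
The relation of `P` with the kernel `κ`: if `P` is closed under the new pairing and the new vertex then it is
closed under the old pairing.  Short elements: for `x : X` let `f_x(τ) = 2` if `τ (inl x)` is in `X`, `1` if
exactly the second alternative holds, `0` otherwise.  Among the `|X| + 2N` insertions in `τ` with
`f_x(τ) = 2`, two (at `x` and at `κ x`) give value `1`, the others `2`: sum `2 (|X| + 2N - 1)`; if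
`f_x(τ) = 1`, four give `0` and the others `1`.  So `∑_(S_(N+1)) f_x ≤ (|X| + 2N - 1) ∑_(S_N) f_x`, and the
number of short elements is at most `∑_x ∑ f_x ≤ 2 |X| |{κ}| ∏ (|X| + 2 i - 1)`. -/
def StmtSUB : Prop := ∀ (X : Type) [Fintype X] [DecidableEq X] [Nonempty X] (K : Equiv.Perm X → Prop),
  (∀ κ, K κ → IsPair κ) → ∀ N : ℕ, ∃ S : Set (Equiv.Perm (X ⊕ Fin N × Bool)),
    Nat.card S = Nat.card {κ : Equiv.Perm X // K κ} * ∏ i ∈ range N, (Fintype.card X + 2 * i) ∧
    Nat.card {τ : Equiv.Perm (X ⊕ Fin N × Bool) // τ ∈ S ∧ Short τ} ≤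
      2 * Fintype.card X * Nat.card {κ : Equiv.Perm X // K κ} *
        ∏ i ∈ range N, (Fintype.card X + 2 * i - 1) ∧
    ∀ τ ∈ S, IsPair τ ∧ NoPure τ ∧ ∃ κ, K κ ∧
      (∀ σ : Equiv.Perm X, orb (Equiv.sumCongr σ (Equiv.prodCongr (Equiv.refl (Fin N))
          (Equiv.swap false true)) * τ) = orb (σ * κ)) ∧
      ∀ P : X ⊕ Fin N × Bool → Prop, (∀ h, P h → P (τ h)) → (∀ h, P h → P (sW X (Fin N) h)) →
        ∀ x, P (Sum.inl x) → P (Sum.inl (κ x))

/-- Darts of a cubic kernel with `2 r` vertices. -/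
abbrev KX (r : ℕ) : Type := Fin (2 * r) × Fin 3

/-- `σ` is a rotation of the cubic kernel. -/
def RotX {r : ℕ} (σ : Equiv.Perm (KX r)) : Prop :=
  (∀ x, (σ x).1 = x.1) ∧ ∀ x y : KX r, x.1 = y.1 → σ.SameCycle x y

/-- The kernel `κ` is connected. -/
def KConn {r : ℕ} (κ : Equiv.Perm (KX r)) : Prop :=
  ∀ P : KX r → Prop, (∀ x, P x → P (κ x)) → (∀ x y : KX r, x.1 = y.1 → P x → P y) → (∃ x, P x) →
    ∀ x, P x

/-- The dart `x` lies on a cycle of length at most `L` of the kernel `κ`. -/
def BadD {r : ℕ} (L : ℕ) (κ : Equiv.Perm (KX r)) (x : KX r) : Prop :=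
  ∃ j : ℕ, 1 ≤ j ∧ j ≤ L ∧ ∃ y : ℕ → KX r, y 0 = x ∧
    (∀ i < j, (κ (y i)).1 = (y (i + 1)).1 ∧ κ (y i) ≠ y (i + 1)) ∧ (y j).1 = (y 0).1 ∧
    ∀ i < j, ∀ i' < j, i ≠ i' → (y i).1 ≠ (y i').1

/-- PACKET KDI (disconnected kernels; from PMC).  Proof.  If `κ` is not connected there is a proper
nonempty set `A` of vertices whose darts are permuted by `κ`; `|A| = 2 j`, `1 ≤ j ≤ r - 1` (the number `3 |A|` of
darts is even).  With `a_j = (6j-1)!!/(2j)!` the number of these `κ` is at most
`∑_j (2r choose 2j) (6j-1)!! (6r-6j-1)!! = (2r)! ∑_(j=1)^(r-1) a_j a_(r-j)` and `(6r-1)!! = (2r)! a_r`.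
`a_(j+1)/a_j = (6j+1)(6j+3)(6j+5)/((2j+1)(2j+2))` is increasing, so `a_j a_(r-j) ≤ a_2 a_(r-2)` for
`2 ≤ j ≤ r-2`, and the sum is at most `2 a_1 a_(r-1) + r a_2 a_(r-2) ≤ (C/r) a_r`, `a_1 = 15/2`,
`a_2 = 10395/24`, `a_(r-1)/a_r = 2r(2r-1)/((6r-1)(6r-3)(6r-5))`. -/
def StmtKDI : Prop := ∃ r₀ : ℕ, ∀ r ≥ r₀,
  4 * Nat.card {κ : Equiv.Perm (KX r) // IsPair κ ∧ ¬ KConn κ} ≤ Nat.doubleFactorial (6 * r - 1)

/-- PACKET KBD (few darts on short cycles; from PMC).  Proof.  For a bad dart with data `j, y` put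
`z_i = κ (y_(i-1))`, `1 ≤ i ≤ j`.  `z_i ≠ y_i` have the same vertex for `i < j`, and `z_j` has the vertex of `y_0`,
`z_j ≠ y_0` (if `κ (y_(j-1)) = y_0` then `y_(j-1) = κ y_0 = z_1` has the vertex of `y_1`, so `j = 2` and
`z_1 = y_1`, or `j = 1` and `κ y_0 = y_0`, both impossible).  So the `2 j` darts `y_0, ..., y_(j-1), z_1, ..., z_j`
are distinct and `κ` contains the `j` pairs `{y_(i-1), z_i}`.  For fixed `j` there are at most `6r (12r)^(j-1) 2`
sequences (`y_0`; then a vertex and an ordered pair of its darts for `i = 1..j-1`; then `z_j`), and for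
each at most `(6r-2j-1)!!` pairings (PMC for the remaining darts).  `(6r-1)!!/(6r-2j-1)!! ≥ (6r-2L)^j ≥
(4r)^j`, so the number is at most `∑_(j ≤ L) 3^j (6r-1)!! ≤ 3^(L+1) (6r-1)!!`. -/
def StmtKBD : Prop := ∀ (L r : ℕ), 1 ≤ L → L ≤ r →
  Nat.card {q : Equiv.Perm (KX r) × KX r // IsPair q.1 ∧ BadD L q.1 q.2}
    ≤ 3 ^ (L + 1) * Nat.doubleFactorial (6 * r - 1)

/-- PACKET KFA (faces of a kernel).  Proof.  Let `O` be an orbit of `φ = σ κ` with `l ≤ L` elements, `x_0 ∈ O`,
`x_(i+1) = φ x_i = σ (κ x_i)`, which has the vertex of `κ x_i` and is different from it (`σ` has no fixed point: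
all three darts of a vertex are in one cycle).  `x_l = x_0`, so there are `i` and `1 ≤ j ≤ l` such that
`x_(i+j)` and `x_i` have the same vertex; take such a pair with `j` minimal: then `x_i, ..., x_(i+j-1)` have
distinct vertices and `x_i ∈ O` is bad.  So the number of orbits with at most `L` elements is at most the
number of bad darts, and there are at most `6 r / L` other orbits. -/
def StmtKFA : Prop := ∀ (L r : ℕ) (κ σ : Equiv.Perm (KX r)), 1 ≤ L → IsPair κ → RotX σ →
  L * orb (σ * κ) ≤ L * Nat.card {x : KX r // BadD L κ x} + 6 * r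

/-- PACKET KER (from PMC, KDI, KBD, KFA).  Proof.  Take `L ≥ 12/η`; by KFA all faces numbers are at most
`η r` if the number of bad darts is at most `η r / 2`; by KBD (Markov) this fails for at most
`3^(L+1) (2/(η r)) (6r-1)!! ≤ (6r-1)!!/4` pairings, `r` large; subtract also KDI from PMC. -/
def StmtKER : Prop := ∀ η : ℝ, 0 < η → ∃ r₀ : ℕ, ∀ r ≥ r₀,
  Nat.doubleFactorial (6 * r - 1) ≤ 2 * Nat.card {κ : Equiv.Perm (KX r) // IsPair κ ∧ KConn κ ∧
    ∀ σ, RotX σ → (orb (σ * κ) : ℝ) ≤ η * r}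

/-- The vertex of a dart. -/
def vt {r N : ℕ} : KX r ⊕ Fin N × Bool → Fin (2 * r) ⊕ Fin N
  | Sum.inl x => Sum.inl x.1
  | Sum.inr y => Sum.inr y.1

/-- Good cores: connected, minimal degree at least two, excess `r`, and every rotation system has at most
`b` orbits of faces. -/
def TT (r b s : ℕ) (Γ : SimpleGraph (Fin s)) : Prop :=
  Γ.Connected ∧ (∀ v, 2 ≤ dg Γ v) ∧ ne Γ = s + r ∧ ∀ σ, IsRot Γ σ → orb (σ * rev Γ) ≤ b

/-- PACKET GRF (from pairings to graphs).  Proof.  Let `τ ∈ S`.  Define `Γ` on `Fin (2r) ⊕ Fin N` by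
`a ~ b` iff `a = vt h`, `b = vt (τ h)` for some `h`.  No loops: `vt (τ h) = vt h` would give for a cubic vertex a
pair of `X`-darts (`Short`), for a vertex of degree two a pure component.  No double edges: `h ≠ h'`,
`vt h = vt h'`, `vt (τ h) = vt (τ h')`: if one of the four darts is in `X` (say `h`, by symmetry) then either
`τ h ∈ X`, or `τ h = (w, b)`, `τ h' = (w, !b)`, so `τ (sW (τ h)) = h' ∈ X`; both are `Short`; if none is in `X`, the
two vertices form a pure component.  So `h ↦ (vt h, vt (τ h))` is a bijection from the darts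
`X ⊕ Fin N × Bool` to `Γ.Dart`, the degrees are `3` and `2`, and `τ` corresponds to `rev`.  `Γ` is connected
(hypothesis on `P`).  A rotation system of `Γ` becomes a permutation of `X ⊕ Fin N × Bool` which is a `RotX`
on `X` and exchanges the two darts of every vertex of degree two, so it has at most `b` orbits.
`τ` is determined by `Γ` and the family of bijections `h ↦ vt (τ h)` from the darts at each vertex to its
neighbours: at most `6^(2r) 2^N` families for each `Γ`. -/
def StmtGRF : Prop := ∀ (r N b : ℕ) (S : Set (Equiv.Perm (KX r ⊕ Fin N × Bool))),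
  (∀ τ ∈ S, IsPair τ ∧ NoPure τ ∧ ¬ Short τ ∧
    (∀ σ : Equiv.Perm (KX r), RotX σ → orb (Equiv.sumCongr σ (Equiv.prodCongr (Equiv.refl (Fin N))
          (Equiv.swap false true)) * τ) ≤ b) ∧
    ∀ P : KX r ⊕ Fin N × Bool → Prop, (∀ h, P h → P (τ h)) → (∀ h h', vt h = vt h' → P h → P h') →
      (∃ h, P h) → ∀ h, P h) →
  Nat.card S ≤ 6 ^ (2 * r) * 2 ^ N * Nat.card {Γ : SimpleGraph (Fin (2 * r) ⊕ Fin N) //
    Γ.Connected ∧ (∀ v, dg Γ (Sum.inl v) = 3) ∧ (∀ w, dg Γ (Sum.inr w) = 2) ∧
    ∀ σ, IsRot Γ σ → orb (σ * rev Γ) ≤ b}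

/-- PACKET TRS (relabelling).  Proof.  For each of the `(2r+N choose 2r)` subsets `B` of `Fin (2r+N)` choose a
bijection of `Fin (2r) ⊕ Fin N` with `Fin (2r+N)` mapping the left summand onto `B`; transport the graphs.
Different `B` give different graphs (`B` is the set of vertices of degree three), the properties are
invariant, and `2 ne = 6 r + 2 N`, so `ne = s + r` with `s = 2r + N`. -/
def StmtTRS : Prop := ∀ (r N b : ℕ),
  (2 * r + N).choose (2 * r) * Nat.card {Γ : SimpleGraph (Fin (2 * r) ⊕ Fin N) //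
    Γ.Connected ∧ (∀ v, dg Γ (Sum.inl v) = 3) ∧ (∀ w, dg Γ (Sum.inr w) = 2) ∧
    ∀ σ, IsRot Γ σ → orb (σ * rev Γ) ≤ b}
  ≤ Nat.card {Γ : SimpleGraph (Fin (2 * r + N)) // TT r b (2 * r + N) Γ}

/-- PACKET KGL (lower bound for the number of good cores; from SUB, KER, GRF, TRS).  Proof.  Apply SUB to
the good kernels `K` of KER (`#K ≥ (6r-1)!!/2`, `X = KX r`, `|X| = 6 r`) and `N = s - 2 r`: `S` has `#K ∏_(i<N)
(6r + 2i)` elements, and the short ones are at most `12 r #K ∏ (6r + 2i - 1)`, which is at most half of it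
for `N` large (`∏ (1 - 1/(6r + 2i)) → 0`, the harmonic series diverges).  GRF with `b = ⌊η r⌋` for the non-short
elements (connectedness: a `P` closed under `τ` and `vt` restricts to a `KConn`-closed set of `X`; if it
contains some dart it contains a dart of `X`, since the set of the vertices of degree two in `P` is not pure,
so it contains all darts of `X`; its complement is closed as well, so it is everything), then TRS:
the number is at least `(s choose 2r) (1/4) (6r-1)!! ∏ (6r+2i) / (36^r 2^N)` and `∏_(i<N) (6r+2i) = 2^N (s+r-1)!/(3r-1)!`. -/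
def StmtKGL : Prop := ∀ η : ℝ, 0 < η → ∃ r₀ : ℕ, ∀ r ≥ r₀, ∃ s₀ : ℕ, ∀ s ≥ s₀,
  ee r / 4 * (s.factorial : ℝ) * (((s + r - 1).factorial : ℝ) /
      (((s - 2 * r).factorial : ℝ) * ((3 * r - 1).factorial : ℝ)))
    ≤ (Nat.card {Γ : SimpleGraph (Fin s) // TT r ⌊η * r⌋₊ s Γ} : ℝ)

/-- PACKET GCO (a good core forces the genus; from MONO, whose statement is the hypothesis `hM`).
Proof.  If `Embeds G g` then by monotonicity `Embeds (Γ.map e) g`.  `Γ.map e` has `1 + (n - s)` components,
`s + r` edges, `n - s` isolated vertices (those outside the range of `e`, since `Γ` has minimal degree at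
least two), and its rotation systems are those of `Γ` (darts correspond by `e`), with the same orbit numbers.
So `2 (1 + n - s) + s + r ≤ n + orb + (n - s) + 2 g`, that is `r + 2 ≤ orb + 2 g ≤ b + 2 g`. -/
def StmtGCO : Prop := ∀ (n s r b g : ℕ) (G : SimpleGraph (Fin n)) (e : Fin s ↪ Fin n)
  (Γ : SimpleGraph (Fin s)), Γ ≤ G.comap e → TT r b s Γ → b + 2 * g < r + 2 → ¬ Embeds G g

end Pool.Agent.Helper26.AF
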