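import Mathlib
import Pool.Agent.Helper26.AF.Defs
import Pool.Agent.Helper26.AF.Goals
import Pool.Agent.Helper26.AF.Goals2

/-!
Project AF (MP_af6c86_pr): statements of the packets, third part (explicit sums, second moment,
assembly).
-/

namespace Pool.Agent.Helper26.AF

open Finset Filter Topology

/-! ### Group D: explicit sums -/

/-- PACKET FAL.  Proof.  Let `e = l n^(-1/3)`, `p = (1+e)/n` (`0 < p < 1` for `n` large).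
`log (n)_k - k log n = ∑_(i<k) log (1 - i/n) ≤ -∑ (i/n + i²/(2n²)) = -k(k-1)/(2n) - (k-1)k(2k-1)/(12n²)`,
and `(1-p)^M ≤ e^(-pM)` with `M = kn - k(k+1)/2`, `-pM = -(1+e)(k - k(k+1)/(2n))`.  The sum is at most
`-k - e k + k/n + k²/(4n²) - k³/(6n²) + e k(k+1)/(2n)` (`k²/(2n)` cancels), `k/n ≤ 1`, and
`e k(k+1)/(2n) ≤ |l| k²/n^(4/3) ≤ δ k³/(6n²) + C(l, δ)` (with `x = k/n^(2/3)`: `|l| x² ≤ δ x³/6 + C`). -/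
def StmtFAL : Prop := ∀ (l δ : ℝ), 0 < δ → δ < 1 → ∃ C : ℝ, 0 < C ∧ ∃ n₀ : ℕ, ∀ n ≥ n₀, ∀ k ≤ n,
  (n.descFactorial k : ℝ) * (1 - pc l n) ^ (k * (n - k) + k.choose 2) ≤
    C * ((n : ℝ) ^ k * Real.exp (-(k : ℝ) - (1 - δ) * (k : ℝ) ^ 3 / (6 * (n : ℝ) ^ 2)
      - l * k / (n : ℝ) ^ ((1 : ℝ) / 3)))

/-- PACKET POI.  Proof.  `m = k - s`, `x = s/k`.  `(1-x)(-log (1-x)) ≤ x - x²/2` for `0 ≤ x < 1`, so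
`k^m e^(-k) (e/m)^m = exp (-s + k (1-x)(-log(1-x))) ≤ exp (-s²/(2k))` for `m ≥ 1` (for `m = 0` directly
`e^(-k) ≤ e^(-k/2)`).  If `s ≤ k/2`: `m! ≥ √(2πm) (m/e)^m` (Stirling, Mathlib `Stirling.le_factorial_stirling` or
`m! ≥ √m (m/e)^m`), `m ≥ k/2`.  If `s > k/2`: `m! ≥ (m/e)^m`, and `exp (-δ s²/(2k)) ≤ exp (-δ k/8) ≤ C/√k`. -/
def StmtPOI : Prop := ∀ δ : ℝ, 0 < δ → δ < 1 → ∃ C : ℝ, 0 < C ∧ ∀ s k : ℕ, 1 ≤ s → s ≤ k →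
  (k : ℝ) ^ (k - s) * Real.exp (-(k : ℝ)) / ((k - s).factorial : ℝ) ≤
    C * Real.exp (-(1 - δ) * (s : ℝ) ^ 2 / (2 * k)) / Real.sqrt k

/-- PACKET KSM (from POI).  Proof.  By POI the term is at most `C s k^(-3/2) exp (-(1-δ)(s²/(2k) +
k³/(6n²)))`.  `s²/(2k) + k³/(6n²) ≥ (2/3) s^(3/2) n^(-1/2)` (weighted AM-GM: `(3/4) (2 s²/(3k)) + (1/4) (2 k³/
(3 n²))`), so it is at most `C exp (-(1-2δ)(2/3) s^(3/2)/√n) s k^(-3/2) exp (-δ s²/(2k))`.  `∑_k s k^(-3/2)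
exp (-δ s²/(2k)) ≤ C_δ`: for `k ≤ s²` the term is `s^(-2) y^(3/2) e^(-δ y/2)` with `y = s²/k`, at most `C_δ/s²`; for
`k > s²` sum `s k^(-3/2)`, at most `3`. -/
def StmtKSM : Prop := ∀ δ : ℝ, 0 < δ → δ < 1 / 2 → ∃ C : ℝ, 0 < C ∧ ∀ n s : ℕ, 1 ≤ s → s ≤ n →
  ∑ k ∈ Icc s n, ((s : ℝ) * (k : ℝ) ^ (k - s) / ((k : ℝ) * ((k - s).factorial : ℝ))) *
      Real.exp (-(k : ℝ) - (1 - δ) * (k : ℝ) ^ 3 / (6 * (n : ℝ) ^ 2))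
    ≤ C * Real.exp (-(1 - 2 * δ) * (2 / 3) * ((s : ℝ) ^ ((3 : ℝ) / 2) / Real.sqrt n))

/-- PACKET EEB (the constant `1/2`).  Proof.  `(6r-1)!! = (6r)!/(2^(3r) (3r)!)`, so `ee r = (6r)!/(288^r
(3r)! (2r)!)` and the middle is `3r (6r choose 3r) (9r²/e²)^r/(288^r (2r)!)`.  `64^r/(6r+1) ≤ (6r choose 3r) ≤ 64^r`,
`(2r/e)^(2r) ≤ (2r)! ≤ e √(2r) (2r/e)^(2r)` (or the weaker `(2r)! ≤ 4 r (2r/e)^(2r)`), `64 (9/4)/288 = 1/2`. -/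
def StmtEEB : Prop := ∀ r : ℕ, 1 ≤ r →
  ee r / ((3 * r - 1).factorial : ℝ) * (3 * (r : ℝ)) ^ (2 * r) * Real.exp (-(2 * (r : ℝ)))
      ≤ 3 * r / 2 ^ r ∧
  1 / (20 * (r : ℝ) * 2 ^ r) ≤
    ee r / ((3 * r - 1).factorial : ℝ) * (3 * (r : ℝ)) ^ (2 * r) * Real.exp (-(2 * (r : ℝ)))

/-- PACKET SSM (from EEB).  Proof.  Let `K = 1/δ` with `δ` so small that `q = (t/2)(1+δ) e^(39 δ)
(1-3δ)^(-2) < 1`.  (i) `s ≥ K r`: `(s+r)^(3r-1) ≤ s^(3r-1) e^(3δr)`, `exp (36r²/(s+r)) ≤ e^(36δr)`.  With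
`y = s^(3/2)/√n`: `s^(3r-1) = s² (n y²)^(r-1)`, `y^(2(r-1)) e^(-(1-3δ)(2/3) y) ≤ (3(r-1)/((1-3δ)e))^(2(r-1))` and
`∑_s s² e^(-(2/3)δ y) ≤ C_δ n` (all `s`; compare with the integral or split at multiples of `n^(1/3)`).  So the inner
sum of the `s ≥ K r` is at most `(ee r/(3r-1)!) e^(39δr) (1-3δ)^(-2r) C_δ (3r/e)^(2r) n^r ≤ C_δ 3r 2^(-r) (e^(39δ)
(1-3δ)^(-2))^r n^r` by EEB, and the sum over `r` is at most `C ∑ r q^r`.  (ii) `s < K r`: every term is at most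
`(ee r/(3r-1)!) ((K+1) r)^(3r-1) e^(36r)` and there are at most `K r` of them; by EEB `ee r/(3r-1)! ≤ 3r (e²/(18
r²))^r`, so after division by `n^r` the total is at most `C (C_K r/n)^r r`; if `r ≤ c n` with `C_K c` small the
sum over `r` (with the factor `t^(r+1) (1+δ)^r`) is bounded. -/
def StmtSSM : Prop := ∀ t : ℝ, 1 < t → t < 2 → ∃ δ : ℝ, 0 < δ ∧ δ < 1 / 2 ∧ ∃ c : ℝ, 0 < c ∧ c < 1 ∧
  ∃ C : ℝ, 0 < C ∧ ∃ n₀ : ℕ, ∀ n ≥ n₀,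
  ∑ r ∈ Icc 1 ⌊c * n⌋₊, t ^ (r + 1) * (1 + δ) ^ r / (n : ℝ) ^ r *
    ∑ s ∈ Icc 1 n, ee r / ((3 * r - 1).factorial : ℝ) * ((s : ℝ) + r) ^ (3 * r - 1) *
      Real.exp (36 * (r : ℝ) ^ 2 / ((s : ℝ) + r)) *
      Real.exp (-(1 - 2 * δ) * (2 / 3) * ((s : ℝ) ^ ((3 : ℝ) / 2) / Real.sqrt n)) ≤ C

/-- PACKET WR (from COR2, KNU, KSM, SSM).  Proof.  Take `δ, c, C` from SSM.  `n^j u^(j+r) e^(-l j n^(-1/3)) ≤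
C' (1+δ)^r n^(-r)` for `j ≤ n`, `n` large (`n u = (1+e)/(1-p)`, `log (n u) ≤ e + 2p`, `2 p j ≤ 4`).  By COR2
`Nc j r / j! ≤ ∑_s (Kc s r/s!) s j^(j-s)/(j (j-s)!)`.  Exchange the sums: for fixed `r`, `s` the sum over `j ≥ s` is
KSM, then KNU, then SSM. -/
def StmtWR : Prop := ∀ (l t : ℝ), 1 < t → t < 2 → ∃ δ : ℝ, 0 < δ ∧ δ < 1 / 2 ∧ ∃ c : ℝ, 0 < c ∧
  ∃ C : ℝ, 0 < C ∧ ∃ n₀ : ℕ, ∀ n ≥ n₀,
  ∑ j ∈ Icc 1 n, yy t (pc l n / (1 - pc l n)) ⌊c * n⌋₊ j *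
    ((n : ℝ) ^ j * Real.exp (-(j : ℝ) - (1 - δ) * (j : ℝ) ^ 3 / (6 * (n : ℝ) ^ 2)
      - l * j / (n : ℝ) ^ ((1 : ℝ) / 3))) / (j.factorial : ℝ) ≤ C

/-- PACKET UPP (from FAL, WR, EXPB, ISN).  Proof.  `δ, c` from WR, `C₁` from FAL, `A k = n^k exp(...)`
(`A (a+b) ≤ A a A b` because `(a+b)³ ≥ a³ + b³`).  EXPB: `EE(cap R = ⌊c n⌋) ≤ C₁ e^C`, so by Markov
`Pr (s ≤ ZZ) ≤ t^(-s) C₁ e^C + Pr (some component has more than #Q + ⌊c n⌋ edges)`, and the last term tends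
to `0` (ISN), so it is at most `t^(-s)` for `n` large. -/
def StmtUPP : Prop := ∀ (l t : ℝ), 1 < t → t < 2 → ∃ C : ℝ, 0 < C ∧ ∀ s : ℕ, ∀ᶠ n : ℕ in atTop,
  Pr (pc l n) (fun G : SimpleGraph (Fin n) => s ≤ ZZ G) ≤ C / t ^ s

/-! ### Group E: lower bound -/

/-- The expected number of components with `k` vertices in the class `P`. -/
noncomputable def Ak (P : ∀ k : ℕ, SimpleGraph (Fin k) → Prop) (p : ℝ) (n k : ℕ) : ℝ :=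
  (n.choose k : ℝ) * (1 - p) ^ (k * (n - k) + k.choose 2) *
    ∑ᶠ H : {H : SimpleGraph (Fin k) // H.Connected ∧ P k H}, (p / (1 - p)) ^ ne H.1

/-- PACKET SMO (second moment; from CMP).  Proof.  Let `X` be the number of `Q` with `#Q ∈ K`, `IsComp G Q`,
`P #Q (G.comap ..)`.  By CMP (`q = 1`) `E X = μ = ∑_K Ak`.  Two different such sets are disjoint (components),
and by CMP (`q = 2`) the expectation of the number of ordered pairs is `∑_(k,k') (n choose k) ((n-k) choose k')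
(1-p)^(M_(k+k')) y y'` with `M_(k+k') = M_k + M_k' - k k'`, at most `B μ²`.  So `E X² ≤ μ + B μ²`, and
`μ² = (E X 1(X ≥ 1))² ≤ E X² Pr(X ≥ 1)` (Cauchy-Schwarz); divide by `μ`. -/
def StmtSMO : Prop := ∀ (n : ℕ) (P : ∀ k : ℕ, SimpleGraph (Fin k) → Prop) (K : Finset ℕ) (p B : ℝ),
  0 < p → p < 1 → 0 ≤ B → (∀ k ∈ K, 1 ≤ k) →
  (∀ k ∈ K, ∀ k' ∈ K, ((n - k).choose k' : ℝ) ≤ B * (1 - p) ^ (k * k') * (n.choose k' : ℝ)) →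
  ∑ k ∈ K, Ak P p n k ≤ (1 + B * ∑ k ∈ K, Ak P p n k) *
    Pr p (fun G : SimpleGraph (Fin n) => ∃ Q : Finset (Fin n), #Q ∈ K ∧ IsComp G Q ∧
      P #Q (G.comap (Q.orderEmbOfFin rfl)))

/-- PACKET WIN.  Proof.  `((n-k) choose k')/(n choose k') ≤ (1 - k/n)^(k') ≤ exp (-k k'/n)` and, for `p ≤ 1/2`,
`(1-p)^(-k k') ≤ exp (k k' (p + p²))`; `p - 1/n = l n^(-4/3)`, `k k' ≤ c² n^(4/3)`, `p² k k' ≤ 1` for `n` large. -/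
def StmtWIN : Prop := ∀ (l c : ℝ), 0 < c → ∀ᶠ n : ℕ in atTop, ∀ k k' : ℕ, 1 ≤ k → 1 ≤ k' →
  (k : ℝ) ≤ c * (n : ℝ) ^ ((2 : ℝ) / 3) → (k' : ℝ) ≤ c * (n : ℝ) ^ ((2 : ℝ) / 3) →
  ((n - k).choose k' : ℝ) ≤ Real.exp (|l| * c ^ 2 + 1) * (1 - pc l n) ^ (k * k') * (n.choose k' : ℝ)

/-- The set of sizes used in the second moment argument. -/
noncomputable def KW (r n : ℕ) : Finset ℕ :=
  (Icc 1 n).filter (fun k : ℕ => (k : ℝ) ≤ 2 * (3 * (r : ℝ)) ^ ((1 : ℝ) / 3) * (n : ℝ) ^ ((2 : ℝ) / 3))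

/-- PACKET NUL (from EEB).  Proof.  Fix `δ > 0` small (depending on `ρ`).  Restrict to `k ∈ [k₀, (1+δ)k₀]`,
`s ∈ [s₁, (1+δ)s₁]`, `k₀ = (3r)^(1/3) n^(2/3)`, `s₁ = (3r)^(2/3) n^(1/3)` (inside `KW` and `≥ s₀` for `n` large).
`(n choose k) N k (1-p)^(M_k) u^(k+r) ≥ ∑_s (n)_k (1-p)^(M_k) p^(k+r) (ee r/(4 (3r-1)!)) ((s+r-1)!/(s-2r)!) s k^(k-s-1)/
(k-s)!`.  For `n → ∞`, uniformly in the window: `(s+r-1)!/(s-2r)! ≥ (s-2r)^(3r-1) ≥ s^(3r-1)/2`;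
`log (n)_k ≥ k log n - k²/(2n) - k³/(6n²) - k⁴/(4 n³)`; `(1-p)^M ≥ exp (-(p+p²) M)`, `M = k n - k(k+1)/2`;
`(1+e)^(k+r) ≥ exp (e (k+r) - e² (k+r))`; together `(n)_k (1-p)^M p^(k+r) ≥ n^(-r) exp (-k - k³/(6n²) - C_l x²)/2` with
`x = k/n^(2/3) ≤ 2 (3r)^(1/3)` (`C_l` depends on `l` only); `k^(k-s)/(k-s)! ≥ exp (k - s²/(2k) - s³/(2k²))/(3 √k)` (Stirling
`m! ≤ e √m (m/e)^m`, and `-(k-s) log (1-s/k) - s ≥ -s²/(2k) - s³/(2k²)`).  So every term is at least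
`n^(-r) (ee r/(100 (3r-1)!)) s^(3r) k^(-3/2) exp (-s²/(2k) - k³/(6n²) - C_l x²)`, and in the window `s^(3r) ≥ (3r)^(2r) n^r`,
`s²/(2k) ≤ (1+δ)² 3r/2`, `k³/(6n²) ≤ (1+δ)³ r/2`, `k^(-3/2) ≥ k₀^(-3/2)/4`, and there are at least `δ² k₀ s₁/4` pairs;
`k₀ s₁ k₀^(-3/2) = s₁/√k₀ = (3r)^(1/2)`.  Total at least `c_δ (ee r/(3r-1)!) (3r)^(2r) exp (-2r (1+δ)³ - C_l' r^(2/3))`, which by
EEB is at least `c_δ (1/(20 r)) 2^(-r) exp (-2r((1+δ)³ - 1) - C_l' r^(2/3)) ≥ ρ^r` for `δ` small and then `r` large. -/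
def StmtNUL : Prop := ∀ (l ρ : ℝ), 0 < ρ → ρ < 1 / 2 → ∃ r₀ : ℕ, ∀ r ≥ r₀, ∀ s₀ : ℕ, 2 * r ≤ s₀ →
  ∀ᶠ n : ℕ in atTop, ∀ N : ℕ → ℝ, (∀ k, 0 ≤ N k) →
  (∀ k, ∑ s ∈ Icc s₀ k, (k.choose s : ℝ) * (ee r / 4 * (s.factorial : ℝ) *
      (((s + r - 1).factorial : ℝ) / (((s - 2 * r).factorial : ℝ) * ((3 * r - 1).factorial : ℝ)))) *
      ((s : ℝ) * (k : ℝ) ^ (k - s)) ≤ N k * k) →
  ρ ^ r ≤ ∑ k ∈ KW r n, (n.choose k : ℝ) * (1 - pc l n) ^ (k * (n - k) + k.choose 2) *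
    (N k * (pc l n / (1 - pc l n)) ^ (k + r))

/-- PACKET LOW (from CORI, KGL, SMO, WIN, NUL, GCO).  Proof.  Choose `η ∈ (0,1)` and `ρ < 1/2` with
`ρ^(2/(1-η)) > 1/4 - ε`.  For `g` large let `r = ⌈2 g/(1-η)⌉`, `b = ⌊η r⌋`, so `b + 2 g < r + 2`.  Let
`P k H` be `ne H = k + r ∧ ∃ S, TT r b #S (H.comap ..)` and `N k` the number of connected `H` with `P k H`; by
CORI (with `T s Γ := TT r b s Γ`) and KGL `N` satisfies the hypothesis of NUL, `Ak P p n k` is the term of NUL.  So `μ =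
∑_(KW) Ak ≥ ρ^r`; SMO with `B = exp (|l| c² + 1)`, `c = 2 (3r)^(1/3)` (WIN) gives `Pr(∃ Q ...) ≥ μ/(1 + B μ) ≥
ρ^r/(1 + B ρ^r) ≥ ρ^r/2` (`B ρ^r = exp (O(r^(2/3))) ρ^r ≤ 1` for `r` large), and `ρ^r/2 ≥ (1/4-ε)^g` for `g` large.
A graph in this event contains `Γ` along an embedding `Fin s → Fin #Q → Fin n`, so GCO gives
`¬ Embeds G g`. -/
def StmtLOW : Prop := ∀ (l ε : ℝ), 0 < ε → ε < 1 / 4 → ∃ g₀ : ℕ, ∀ g ≥ g₀, ∀ᶠ n : ℕ in atTop,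
  (1 / 4 - ε) ^ g ≤ Pr (pc l n) (fun G : SimpleGraph (Fin n) => ¬ Embeds G g)

/-- MAIN THEOREM (from LOW, UPP, UG, MONO, TR).  Proof.  `¬ Embeds G g` is increasing (MONO).  Upper bound:
`¬ Embeds G g` implies `2 g + 2 ≤ ZZ G` (UG), UPP with `l + 1` and `t` with `1/t² < 1/4 + ε`, and TR.
Lower bound: LOW with `l - 1`, `ε/2`, and TR. -/
def StmtMAIN : Prop := ∀ (l : ℝ) (m : ℕ → ℕ),
  Tendsto (fun n : ℕ => ((m n : ℝ) - n / 2) / (n : ℝ) ^ ((2 : ℝ) / 3)) atTop (𝓝 (l / 2)) →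
  ∀ ε : ℝ, 0 < ε → ε < 1 / 4 → ∃ g₀ : ℕ, ∀ g ≥ g₀,
    (1 / 4 - ε) ^ g ≤ liminf (fun n : ℕ => prm n (m n) (fun G => ¬ Embeds G g)) atTop ∧
    limsup (fun n : ℕ => prm n (m n) (fun G => ¬ Embeds G g)) atTop ≤ (1 / 4 + ε) ^ g

end Pool.Agent.Helper26.AF
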