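import Mathlib
import Pool.Agent.Helper26.AF.Defs

/-!
Project AF: basic facts about the binomial random graph (`EE`, `Pr`), free to use in every packet.
-/

namespace Pool.Agent.Helper26.AF

open Finset

set_option linter.unusedSectionVars false

variable {V : Type} [Fintype V] [DecidableEq V]

/-- The pairs (possible edges). -/
noncomputable def EV (V : Type) [Fintype V] [DecidableEq V] : Finset (Sym2 V) :=
  univ.filter (fun e => ¬ e.IsDiag)

lemma mem_EV {e : Sym2 V} : e ∈ EV V ↔ ¬ e.IsDiag := by simp [EV]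

lemma card_EV : #(EV V) = (Fintype.card V).choose 2 := by
  rw [EV, ← Sym2.card_subtype_not_diag]
  exact (Fintype.card_subtype _).symm

lemma edgeSet_fromEdgeSet_of_subset {T : Finset (Sym2 V)} (hT : T ⊆ EV V) :
    (SimpleGraph.fromEdgeSet (T : Set (Sym2 V))).edgeSet = (T : Set (Sym2 V)) := by
  ext e
  rw [SimpleGraph.edgeSet_fromEdgeSet]
  constructor
  · intro h; exact h.1
  · intro h; exact ⟨h, fun hd => (mem_EV.1 (hT h)) (by simpa using hd)⟩

lemma ne_fromEdgeSet {T : Finset (Sym2 V)} (hT : T ⊆ EV V) :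
    ne (SimpleGraph.fromEdgeSet (T : Set (Sym2 V))) = #T := by
  rw [ne, edgeSet_fromEdgeSet_of_subset hT]
  simp

open Classical in
/-- The expectation as a sum over the sets of edges. -/
lemma EE_eq (p : ℝ) (f : SimpleGraph V → ℝ) :
    EE p f = ∑ T ∈ (EV V).powerset, p ^ #T * (1 - p) ^ ((Fintype.card V).choose 2 - #T) *
      f (SimpleGraph.fromEdgeSet (T : Set (Sym2 V))) := by
  unfold EE
  refine Finset.sum_bij' (fun G _ => G.edgeFinset)
    (fun T _ => SimpleGraph.fromEdgeSet (T : Set (Sym2 V))) ?_ ?_ ?_ ?_ ?_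
  · intro G _
    rw [mem_powerset]
    intro e he
    rw [mem_EV]
    exact G.not_isDiag_of_mem_edgeFinset he
  · intro T _; exact mem_univ _
  · intro G _
    simp
  · intro T hT
    rw [mem_powerset] at hT
    ext e
    simp only [SimpleGraph.edgeFinset, Set.mem_toFinset]
    rw [edgeSet_fromEdgeSet_of_subset hT]
    simp
  · intro G _
    have h1 : ne G = #G.edgeFinset := by
      rw [ne, Nat.card_eq_fintype_card, SimpleGraph.card_edgeSet]
    simp only [wt, h1]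
    congr 2
    simp

lemma EE_one (p : ℝ) : EE (V := V) p (fun _ => 1) = 1 := by
  rw [EE_eq]
  have := Finset.sum_pow_mul_eq_add_pow p (1 - p) (EV V)
  rw [card_EV] at this
  simp only [mul_one]
  rw [this]; norm_num

lemma sum_wt (p : ℝ) : ∑ G : SimpleGraph V, wt p G = 1 := by
  have := EE_one (V := V) p
  simpa [EE] using this

lemma wt_nonneg {p : ℝ} (h0 : 0 ≤ p) (h1 : p ≤ 1) (G : SimpleGraph V) : 0 ≤ wt p G :=
  mul_nonneg (pow_nonneg h0 _) (pow_nonneg (by linarith) _)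

lemma EE_add (p : ℝ) (f g : SimpleGraph V → ℝ) : EE p (fun G => f G + g G) = EE p f + EE p g := by
  simp [EE, mul_add, Finset.sum_add_distrib]

lemma EE_sub (p : ℝ) (f g : SimpleGraph V → ℝ) : EE p (fun G => f G - g G) = EE p f - EE p g := by
  simp [EE, mul_sub, Finset.sum_sub_distrib]

lemma EE_smul (p c : ℝ) (f : SimpleGraph V → ℝ) : EE p (fun G => c * f G) = c * EE p f := by
  simp only [EE, Finset.mul_sum]
  exact Finset.sum_congr rfl fun G _ => by ring

lemma EE_sum {I : Type} (s : Finset I) (p : ℝ) (f : I → SimpleGraph V → ℝ) :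
    EE p (fun G => ∑ i ∈ s, f i G) = ∑ i ∈ s, EE p (f i) := by
  simp only [EE, Finset.mul_sum]
  exact Finset.sum_comm

lemma EE_mono {p : ℝ} (h0 : 0 ≤ p) (h1 : p ≤ 1) {f g : SimpleGraph V → ℝ} (h : ∀ G, f G ≤ g G) :
    EE p f ≤ EE p g :=
  Finset.sum_le_sum fun G _ => mul_le_mul_of_nonneg_left (h G) (wt_nonneg h0 h1 G)

lemma EE_nonneg {p : ℝ} (h0 : 0 ≤ p) (h1 : p ≤ 1) {f : SimpleGraph V → ℝ} (h : ∀ G, 0 ≤ f G) :
    0 ≤ EE p f :=
  Finset.sum_nonneg fun G _ => mul_nonneg (wt_nonneg h0 h1 G) (h G)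

lemma Pr_nonneg {p : ℝ} (h0 : 0 ≤ p) (h1 : p ≤ 1) (P : SimpleGraph V → Prop) : 0 ≤ Pr p P :=
  EE_nonneg h0 h1 fun G => by split_ifs <;> norm_num

lemma Pr_mono {p : ℝ} (h0 : 0 ≤ p) (h1 : p ≤ 1) {P Q : SimpleGraph V → Prop} (h : ∀ G, P G → Q G) :
    Pr p P ≤ Pr p Q := by
  refine EE_mono h0 h1 fun G => ?_
  by_cases hP : P G
  · simp [hP, h G hP]
  · simp only [hP, if_false]; split_ifs <;> norm_num

lemma Pr_le_one {p : ℝ} (h0 : 0 ≤ p) (h1 : p ≤ 1) (P : SimpleGraph V → Prop) : Pr p P ≤ 1 := by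
  rw [← EE_one (V := V) p]
  exact EE_mono h0 h1 fun G => by split_ifs <;> norm_num

lemma Pr_congr {p : ℝ} {P Q : SimpleGraph V → Prop} (h : ∀ G, P G ↔ Q G) : Pr p P = Pr p Q := by
  have : P = Q := funext fun G => propext (h G)
  rw [this]

lemma Pr_compl (p : ℝ) (P : SimpleGraph V → Prop) : Pr p P + Pr p (fun G => ¬ P G) = 1 := by
  rw [← EE_one (V := V) p, Pr, Pr, ← EE_add]
  congr 1
  funext G
  by_cases hP : P G <;> simp [hP]

lemma Pr_or_le {p : ℝ} (h0 : 0 ≤ p) (h1 : p ≤ 1) (P Q : SimpleGraph V → Prop) :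
    Pr p (fun G => P G ∨ Q G) ≤ Pr p P + Pr p Q := by
  rw [Pr, Pr, Pr, ← EE_add]
  refine EE_mono h0 h1 fun G => ?_
  by_cases hP : P G <;> by_cases hQ : Q G <;> simp [hP, hQ]

/-- Markov. -/
lemma Pr_markov {p a : ℝ} (h0 : 0 ≤ p) (h1 : p ≤ 1) {f : SimpleGraph V → ℝ}
    {P : SimpleGraph V → Prop} (hf : ∀ G, 0 ≤ f G) (h : ∀ G, P G → a ≤ f G) :
    a * Pr p P ≤ EE p f := by
  rw [Pr, ← EE_smul]
  refine EE_mono h0 h1 fun G => ?_
  by_cases hP : P G
  · simpa [hP] using h G hP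
  · simpa [hP] using hf G

end Pool.Agent.Helper26.AF
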