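import Pool.Agent.Helper26.AF.Base
import Pool.Agent.Helper26.AF.Goals

/-!
Project AF (MP_af6c86_pr), packet EXPD: the expectation of `t ^ ZZ`.
-/

namespace Pool.Agent.Helper26.AF.E54

open Finset Pool.Agent.Helper26.AF

set_option linter.unusedSectionVars false

lemma eIn_eq {n : ℕ} (G : SimpleGraph (Fin n)) (Q : Finset (Fin n)) :
    eIn G Q = ne (G.comap (Q.orderEmbOfFin rfl)) := by
  set f : Fin #Q ↪o Fin n := Q.orderEmbOfFin rfl with hf
  have hr : ∀ x, x ∈ Q ↔ ∃ i, f i = x := by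
    intro x
    have h := Finset.range_orderEmbOfFin Q rfl
    have h2 : x ∈ (Q : Set (Fin n)) ↔ x ∈ Set.range f := by rw [hf, h]
    simpa using h2
  have h1 : eIn G Q = Set.ncard {e : Sym2 (Fin n) | e ∈ G.edgeSet ∧ ∀ v ∈ e, v ∈ Q} := rfl
  have h2 : ne (G.comap f) = Set.ncard (G.comap f).edgeSet := rfl
  rw [h1, h2, ← Set.ncard_image_of_injective _ (Sym2.map.injective f.injective)]
  congr 1
  ext e
  constructor
  · induction e using Sym2.ind with
    | _ a b =>
      rintro ⟨hab, h⟩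
      obtain ⟨i, hi⟩ := (hr a).1 (h a (by simp))
      obtain ⟨j, hj⟩ := (hr b).1 (h b (by simp))
      refine ⟨s(i, j), ?_, ?_⟩
      · rw [SimpleGraph.mem_edgeSet] at hab ⊢
        simpa [hi, hj] using hab
      · simp [hi, hj]
  · rintro ⟨e', he', rfl⟩
    induction e' using Sym2.ind with
    | _ i j =>
      rw [SimpleGraph.mem_edgeSet] at he'
      refine ⟨by simpa using he', ?_⟩
      intro v hv
      simp only [Sym2.map_mk, Sym2.mem_iff] at hv
      rcases hv with rfl | rfl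
      · exact (hr _).2 ⟨i, rfl⟩
      · exact (hr _).2 ⟨j, rfl⟩

lemma comp_nonempty {n : ℕ} {G : SimpleGraph (Fin n)} {Q : Finset (Fin n)} (h : IsComp G Q) :
    Q.Nonempty := by
  obtain ⟨c, hc⟩ := h
  have := c.nonempty_supp
  rw [hc] at this
  exact_mod_cast this

lemma comp_disj {n : ℕ} {G : SimpleGraph (Fin n)} {Q Q' : Finset (Fin n)} (h : IsComp G Q)
    (h' : IsComp G Q') (hne : Q ≠ Q') : Disjoint Q Q' := by
  obtain ⟨c, hc⟩ := h
  obtain ⟨c', hc'⟩ := h'
  rw [Finset.disjoint_left]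
  intro x hx hx'
  apply hne
  have h1 : x ∈ c.supp := by rw [hc]; exact hx
  have h2 : x ∈ c'.supp := by rw [hc']; exact hx'
  rw [SimpleGraph.ConnectedComponent.mem_supp_iff] at h1 h2
  have h3 : c = c' := h1.symm.trans h2
  have h4 : (Q : Set (Fin n)) = Q' := by rw [← hc, ← hc', h3]
  exact_mod_cast h4

open Classical in
/-- The admissible tuples. -/
noncomputable def SQ (n q : ℕ) : Finset (Fin q → Finset (Fin n)) :=
  univ.filter (fun Q => (∀ i j, i ≠ j → Disjoint (Q i) (Q j)) ∧ ∀ i, (Q i).Nonempty)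

open Classical in
/-- The pointwise inequality. -/
lemma pointwise (n R : ℕ) (t : ℝ) (ht : 1 ≤ t) (G : SimpleGraph (Fin n)) :
    (if ∀ Q, IsComp G Q → eIn G Q ≤ #Q + R then t ^ ZZ G else 0) ≤
      ∑ q ∈ range (n + 1), (1 / (q.factorial : ℝ)) * ∑ Q ∈ SQ n q,
        ∑ r ∈ Fintype.piFinset (fun _ : Fin q => Icc 1 R), (∏ i, t ^ (r i + 1)) *
          (if ∀ i, IsComp G (Q i) ∧ ne (G.comap ((Q i).orderEmbOfFin rfl)) = #(Q i) + r i
            then (1 : ℝ) else 0) := by
  have ht0 : 0 ≤ t := by linarith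
  have hpos : ∀ (q : ℕ) (Q : Fin q → Finset (Fin n)) (r : Fin q → ℕ),
      0 ≤ (∏ i, t ^ (r i + 1)) *
          (if ∀ i, IsComp G (Q i) ∧ ne (G.comap ((Q i).orderEmbOfFin rfl)) = #(Q i) + r i
            then (1 : ℝ) else 0) := by
    intro q Q r
    refine mul_nonneg (prod_nonneg fun i _ => pow_nonneg ht0 _) ?_
    split_ifs <;> norm_num
  have hposq : ∀ q, 0 ≤ (1 / (q.factorial : ℝ)) * ∑ Q ∈ SQ n q,
        ∑ r ∈ Fintype.piFinset (fun _ : Fin q => Icc 1 R), (∏ i, t ^ (r i + 1)) *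
          (if ∀ i, IsComp G (Q i) ∧ ne (G.comap ((Q i).orderEmbOfFin rfl)) = #(Q i) + r i
            then (1 : ℝ) else 0) := fun q =>
    mul_nonneg (by positivity) (sum_nonneg fun Q _ => sum_nonneg fun r _ => hpos q Q r)
  split_ifs with hR
  swap
  · exact sum_nonneg fun q _ => hposq q
  -- the complex components
  set cx : Finset (Finset (Fin n)) :=
    univ.filter (fun Q => IsComp G Q ∧ #Q + 1 ≤ eIn G Q) with hcx
  have hmem : ∀ Q ∈ cx, IsComp G Q ∧ #Q + 1 ≤ eIn G Q := fun Q hQ => (mem_filter.1 hQ).2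
  set q := (#(cx)) with hq
  have hqn : q ≤ n := by
    have h1 : #(cx.biUnion id) = ∑ Q ∈ cx, #Q := by
      apply card_biUnion
      intro x hx y hy hxy
      exact comp_disj (hmem x hx).1 (hmem y hy).1 hxy
    have h2 : (#(cx)) ≤ ∑ Q ∈ cx, #Q := by
      rw [card_eq_sum_ones]
      exact sum_le_sum fun Q hQ => (comp_nonempty (hmem Q hQ).1).card_pos
    have h3 : #(cx.biUnion id) ≤ n := by
      simpa using card_le_univ (cx.biUnion id)
    omega
  have hZZ : ZZ G = ∑ Q ∈ cx, (eIn G Q - #Q + 1) := by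
    rw [ZZ, hcx, sum_filter]
    refine sum_congr rfl fun Q _ => ?_
    rw [zq]
    by_cases h : IsComp G Q ∧ #Q + 1 ≤ eIn G Q
    · rw [if_pos h, if_pos h]
      have := h.2
      omega
    · rw [if_neg h, if_neg h]
  refine le_trans ?_ (single_le_sum (fun q _ => hposq q) (mem_range.2 (Nat.lt_succ_of_le hqn)))
  -- the bijections
  have hfac : (0 : ℝ) < (q.factorial : ℝ) := by exact_mod_cast Nat.factorial_pos q
  rw [one_div, ← div_eq_inv_mul, le_div_iff₀ hfac]
  set φ : (Fin q ≃ cx) → (Fin q → Finset (Fin n)) := fun e i => (e i).1 with hφ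
  have hφinj : Function.Injective φ := by
    intro e e' h
    ext i : 1
    exact Subtype.ext (congrFun h i)
  have hcard : #((univ : Finset (Fin q ≃ cx)).image φ) = q.factorial := by
    rw [card_image_of_injective _ hφinj, card_univ,
      Fintype.card_equiv (cx.equivFin.symm), Fintype.card_fin]
  have hsub : (univ : Finset (Fin q ≃ cx)).image φ ⊆ SQ n q := by
    intro Q hQ
    obtain ⟨e, _, rfl⟩ := mem_image.1 hQ
    rw [SQ, mem_filter]
    refine ⟨mem_univ _, fun i j hij => ?_, fun i => comp_nonempty (hmem _ (e i).2).1⟩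
    refine comp_disj (hmem _ (e i).2).1 (hmem _ (e j).2).1 fun h => hij ?_
    exact e.injective (Subtype.ext h)
  calc t ^ ZZ G * (q.factorial : ℝ)
      = ∑ Q ∈ (univ : Finset (Fin q ≃ cx)).image φ, t ^ ZZ G := by
        rw [sum_const, hcard, nsmul_eq_mul, mul_comm]
    _ ≤ ∑ Q ∈ (univ : Finset (Fin q ≃ cx)).image φ,
        ∑ r ∈ Fintype.piFinset (fun _ : Fin q => Icc 1 R), (∏ i, t ^ (r i + 1)) *
          (if ∀ i, IsComp G (Q i) ∧ ne (G.comap ((Q i).orderEmbOfFin rfl)) = #(Q i) + r i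
            then (1 : ℝ) else 0) := by
        refine sum_le_sum fun Q hQ => ?_
        obtain ⟨e, _, rfl⟩ := mem_image.1 hQ
        set r : Fin q → ℕ := fun i => eIn G (φ e i) - #(φ e i) with hr
        have hrm : r ∈ Fintype.piFinset (fun _ : Fin q => Icc 1 R) := by
          rw [Fintype.mem_piFinset]
          intro i
          have h1 := (hmem _ (e i).2).2
          have h2 := hR _ (hmem _ (e i).2).1
          rw [mem_Icc]
          simp only [hr, hφ]
          omega
        refine le_trans (le_of_eq ?_) (single_le_sum (fun r _ => hpos q (φ e) r) hrm)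
        have h1 : ∀ i, IsComp G (φ e i) ∧
            ne (G.comap ((φ e i).orderEmbOfFin rfl)) = #(φ e i) + r i := by
          intro i
          refine ⟨(hmem _ (e i).2).1, ?_⟩
          rw [← eIn_eq]
          have h1 := (hmem _ (e i).2).2
          simp only [hr, hφ]
          omega
        rw [if_pos h1, mul_one, prod_pow_eq_pow_sum, hZZ]
        congr 1
        rw [← sum_coe_sort cx (fun Q => eIn G Q - #Q + 1)]
        exact (Equiv.sum_comp e (fun Q : cx => eIn G Q.1 - #Q.1 + 1)).symm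
    _ ≤ _ := sum_le_sum_of_subset_of_nonneg hsub fun Q _ _ =>
        sum_nonneg fun r _ => hpos q Q r

/-- The number of tuples. -/
lemma card_tup (hTUPC : StmtTUPC) (n q : ℕ) (j : Fin q → ℕ) (hj : ∀ i, 1 ≤ j i) :
    ((#((SQ n q).filter (fun Q => (fun i => #(Q i)) = j)) : ℕ) : ℝ) =
      (n.descFactorial (∑ i, j i) : ℝ) / ∏ i, ((j i).factorial : ℝ) := by
  classical
  have h := hTUPC n q j
  have h2 : Nat.card {Q : Fin q → Finset (Fin n) // (∀ a b, a ≠ b → Disjoint (Q a) (Q b)) ∧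
      ∀ a, #(Q a) = j a} = #((SQ n q).filter (fun Q => (fun i => #(Q i)) = j)) := by
    rw [Nat.card_eq_fintype_card, Fintype.card_subtype]
    congr 1
    ext Q
    simp only [mem_filter, mem_univ, true_and, SQ]
    constructor
    · rintro ⟨h1, h2⟩
      refine ⟨⟨h1, fun i => ?_⟩, funext h2⟩
      rw [← card_pos, h2 i]
      exact hj i
    · rintro ⟨⟨h1, _⟩, h2⟩
      exact ⟨h1, fun a => congrFun h2 a⟩
  rw [h2] at h
  have h3 : (∏ i, ((j i).factorial : ℝ)) ≠ 0 :=
    prod_ne_zero_iff.2 fun i _ => by exact_mod_cast (Nat.factorial_pos (j i)).ne'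
  rw [eq_div_iff h3, ← h]
  push_cast
  ring

/-- The sum over graphs with a given number of edges. -/
lemma finsum_Nc (k r : ℕ) (u : ℝ) :
    ∑ᶠ H : {H : SimpleGraph (Fin k) // H.Connected ∧ ne H = k + r}, u ^ ne H.1 =
      (Nc k r : ℝ) * u ^ (k + r) := by
  classical
  rw [finsum_eq_sum_of_fintype]
  have h1 : ∀ H : {H : SimpleGraph (Fin k) // H.Connected ∧ ne H = k + r},
      u ^ ne H.1 = u ^ (k + r) := fun H => by rw [H.2.2]
  rw [sum_congr rfl fun H _ => h1 H, sum_const, nsmul_eq_mul, Nc, Nat.card_eq_fintype_card,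
    card_univ]

theorem goalEXPD (hCMP : StmtCMP) (hTUPC : StmtTUPC) : StmtEXPD := by
  intro n R p t hp0 hp1 ht
  classical
  refine le_trans (EE_mono hp0.le hp1.le fun G => pointwise n R t ht G) (le_of_eq ?_)
  rw [EE_sum]
  refine sum_congr rfl fun q _ => ?_
  rw [EE_smul]
  congr 1
  rw [EE_sum]
  -- the value for one tuple
  have hQ : ∀ Q ∈ SQ n q, EE p (fun G => ∑ r ∈ Fintype.piFinset (fun _ : Fin q => Icc 1 R),
      (∏ i, t ^ (r i + 1)) *
          (if ∀ i, IsComp G (Q i) ∧ ne (G.comap ((Q i).orderEmbOfFin rfl)) = #(Q i) + r i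
            then (1 : ℝ) else 0)) =
      (1 - p) ^ ((∑ i, #(Q i)) * (n - ∑ i, #(Q i)) + (∑ i, #(Q i)).choose 2) *
          ∏ i, yy t (p / (1 - p)) R #(Q i) := by
    intro Q hQ
    have hQ' := (mem_filter.1 hQ).2
    rw [EE_sum]
    have h1 : ∀ r : Fin q → ℕ, EE p (fun G => (∏ i, t ^ (r i + 1)) *
          (if ∀ i, IsComp G (Q i) ∧ ne (G.comap ((Q i).orderEmbOfFin rfl)) = #(Q i) + r i
            then (1 : ℝ) else 0)) =
        (1 - p) ^ ((∑ i, #(Q i)) * (n - ∑ i, #(Q i)) + (∑ i, #(Q i)).choose 2) *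
          ∏ i, (t ^ (r i + 1) * (Nc #(Q i) (r i) : ℝ) * (p / (1 - p)) ^ (#(Q i) + r i)) := by
      intro r
      rw [EE_smul]
      have h2 := hCMP n q Q hQ'.1 hQ'.2 (fun i k H => ne H = k + r i) p hp0 hp1
      rw [Pr] at h2
      have h3 : ∀ i, ∑ᶠ H : {H : SimpleGraph (Fin #(Q i)) // H.Connected ∧ ne H = #(Q i) + r i},
          (p / (1 - p)) ^ ne H.1 = (Nc #(Q i) (r i) : ℝ) * (p / (1 - p)) ^ (#(Q i) + r i) :=
        fun i => finsum_Nc _ _ _
      simp only [h3] at h2
      have h4 : EE p (fun G : SimpleGraph (Fin n) =>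
          (if ∀ i, IsComp G (Q i) ∧ ne (G.comap ((Q i).orderEmbOfFin rfl)) = #(Q i) + r i
            then (1 : ℝ) else 0)) =
          (1 - p) ^ ((∑ i, #(Q i)) * (n - ∑ i, #(Q i)) + (∑ i, #(Q i)).choose 2) *
            ∏ i, ((Nc #(Q i) (r i) : ℝ) * (p / (1 - p)) ^ (#(Q i) + r i)) := by
        rw [← h2]
        congr 1
        funext G
        congr
      rw [h4, mul_left_comm, ← prod_mul_distrib]
      congr 1
      exact prod_congr rfl fun i _ => by ring
    rw [sum_congr rfl fun r _ => h1 r, ← mul_sum]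
    congr 1
    simp only [yy]
    rw [prod_univ_sum]
  rw [sum_congr rfl hQ]
  have hmaps : ∀ Q ∈ SQ n q, (fun i => #(Q i)) ∈ Fintype.piFinset (fun _ : Fin q => Icc 1 n) := by
    intro Q hQ
    have hQ' := (mem_filter.1 hQ).2
    rw [Fintype.mem_piFinset]
    intro i
    rw [mem_Icc]
    refine ⟨(hQ'.2 i).card_pos, ?_⟩
    simpa using card_le_univ (Q i)
  rw [← sum_fiberwise_of_maps_to hmaps]
  refine sum_congr rfl fun j hj => ?_
  have hj1 : ∀ i, 1 ≤ j i := fun i => (mem_Icc.1 (Fintype.mem_piFinset.1 hj i)).1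
  rw [← card_tup hTUPC n q j hj1]
  have h5 : ∀ Q ∈ (SQ n q).filter (fun Q => (fun i => #(Q i)) = j),
      (1 - p) ^ ((∑ i, #(Q i)) * (n - ∑ i, #(Q i)) + (∑ i, #(Q i)).choose 2) *
          ∏ i, yy t (p / (1 - p)) R #(Q i) =
      (1 - p) ^ ((∑ i, j i) * (n - ∑ i, j i) + (∑ i, j i).choose 2) *
          ∏ i, yy t (p / (1 - p)) R (j i) := by
    intro Q hQ
    have h6 : ∀ i, #(Q i) = j i := fun i => congrFun (mem_filter.1 hQ).2 i
    simp only [h6]
  rw [sum_congr rfl h5, sum_const, nsmul_eq_mul]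
  ring

end Pool.Agent.Helper26.AF.E54
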