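import Mathlib
import Pool.Agent.Helper26.AF.Goals2

/-!
Project AF (MP_af6c86_pr): corrected statements.
-/

namespace Pool.Agent.Helper26.AF

open Finset

/-- `StmtGRF` with the hypothesis `0 < r + N` (the original fails for `r = N = 0`). -/
def StmtGRF1 : Prop := ∀ (r N b : ℕ), 0 < r + N → ∀ (S : Set (Equiv.Perm (KX r ⊕ Fin N × Bool))),
  (∀ τ ∈ S, IsPair τ ∧ NoPure τ ∧ ¬ Short τ ∧
    (∀ σ : Equiv.Perm (KX r), RotX σ → orb (Equiv.sumCongr σ (Equiv.prodCongr (Equiv.refl (Fin N))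
          (Equiv.swap false true)) * τ) ≤ b) ∧
    ∀ P : KX r ⊕ Fin N × Bool → Prop, (∀ h, P h → P (τ h)) → (∀ h h', vt h = vt h' → P h → P h') →
      (∃ h, P h) → ∀ h, P h) →
  Nat.card S ≤ 6 ^ (2 * r) * 2 ^ N * Nat.card {Γ : SimpleGraph (Fin (2 * r) ⊕ Fin N) //
    Γ.Connected ∧ (∀ v, dg Γ (Sum.inl v) = 3) ∧ (∀ w, dg Γ (Sum.inr w) = 2) ∧
    ∀ σ, IsRot Γ σ → orb (σ * rev Γ) ≤ b}

end Pool.Agent.Helper26.AF
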