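import Mathlib
import Pool.Agent.Helper26.AF.Goals4
import Pool.Agent.Helper70.AF.KGL

/-!
Project AF (MP_af6c86_pr), packet KGL with the corrected hypothesis `StmtGRF1`
(adapted from helper70's module, whose lemmas are used).
-/

namespace Pool.Agent.Helper26.AF

open Finset
open Pool.Agent.Helper70.AF (prod_big prod_fact all_closed)

theorem goalKGL1 (hSUB : Pool.Agent.Helper26.AF.StmtSUB) (hKER : Pool.Agent.Helper26.AF.StmtKER)
    (hGRF : StmtGRF1) (hTRS : Pool.Agent.Helper26.AF.StmtTRS) :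
    Pool.Agent.Helper26.AF.StmtKGL := by
  intro η hη
  obtain ⟨r₀, hr₀⟩ := hKER η hη
  refine ⟨max r₀ 1, fun r hr => ?_⟩
  have hr1 : 1 ≤ r := le_trans (le_max_right _ _) hr
  have hker := hr₀ r (le_trans (le_max_left _ _) hr)
  refine ⟨2 * r + (24 * r) ^ 2 * (6 * r), fun s hs => ?_⟩
  obtain ⟨N, rfl⟩ : ∃ N, s = 2 * r + N := ⟨s - 2 * r, by omega⟩
  have hN : (24 * r) ^ 2 * (6 * r) ≤ N := by omega
  have : Nonempty (KX r) := ⟨(⟨0, by omega⟩, 0)⟩
  have hcard : Fintype.card (KX r) = 6 * r := by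
    simp [KX]; ring
  obtain ⟨S, hS1, hS2, hS3⟩ := hSUB (KX r) (fun κ => IsPair κ ∧ KConn κ ∧
    ∀ σ, RotX σ → (orb (σ * κ) : ℝ) ≤ η * r) (fun κ h => h.1) N
  rw [hcard] at hS1 hS2
  set k := Nat.card {κ : Equiv.Perm (KX r) // IsPair κ ∧ KConn κ ∧
    ∀ σ, RotX σ → (orb (σ * κ) : ℝ) ≤ η * r} with hk
  set A := ∏ i ∈ range N, (6 * r + 2 * i - 1) with hA
  set B := ∏ i ∈ range N, (6 * r + 2 * i) with hB
  -- the non-short elements
  have hsplit : Nat.card S = Nat.card {τ : Equiv.Perm (KX r ⊕ Fin N × Bool) // τ ∈ S ∧ Short τ} +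
      Nat.card ({τ | τ ∈ S ∧ ¬ Short τ} : Set (Equiv.Perm (KX r ⊕ Fin N × Bool))) := by
    classical
    have e : S = {τ | τ ∈ S ∧ Short τ} ∪ {τ | τ ∈ S ∧ ¬ Short τ} := by
      ext τ; by_cases h : Short τ <;> simp [h]
    have h := Set.ncard_union_eq (s := {τ | τ ∈ S ∧ Short τ}) (t := {τ | τ ∈ S ∧ ¬ Short τ})
      (by rw [Set.disjoint_left]; rintro τ ⟨_, h1⟩ ⟨_, h2⟩; exact h2 h1)
      (Set.toFinite _) (Set.toFinite _)
    rw [← e] at h
    rw [← Nat.card_coe_set_eq, ← Nat.card_coe_set_eq, ← Nat.card_coe_set_eq] at h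
    exact h
  have hgood := hGRF r N ⌊η * r⌋₊ (by omega) {τ | τ ∈ S ∧ ¬ Short τ} (by
    rintro τ ⟨hτ, hns⟩
    obtain ⟨hp, hn, κ, ⟨hκ1, hκ2, hκ3⟩, ho, hP⟩ := hS3 τ hτ
    refine ⟨hp, hn, hns, ?_, ?_⟩
    · intro σ hσ
      rw [ho σ]
      exact Nat.le_floor (hκ3 σ hσ)
    · intro P h1 h2 h3
      exact all_closed τ hp hn κ hκ2 hP P h1 h2 h3)
  have htrs := hTRS r N ⌊η * r⌋₊
  set g := Nat.card {Γ : SimpleGraph (Fin (2 * r) ⊕ Fin N) //
    Γ.Connected ∧ (∀ v, dg Γ (Sum.inl v) = 3) ∧ (∀ w, dg Γ (Sum.inr w) = 2) ∧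
    ∀ σ, IsRot Γ σ → orb (σ * rev Γ) ≤ ⌊η * r⌋₊} with hg
  set T := Nat.card {Γ : SimpleGraph (Fin (2 * r + N)) // TT r ⌊η * r⌋₊ (2 * r + N) Γ} with hT
  have hbig := prod_big r N hr1 hN
  rw [← hA, ← hB] at hbig
  have h1 : k * B ≤ 2 * (6 ^ (2 * r) * 2 ^ N * g) := by
    have e1 : 2 * (2 * (6 * r) * k * A) ≤ k * B := by
      calc 2 * (2 * (6 * r) * k * A) = k * (24 * r * A) := by ring
        _ ≤ k * B := Nat.mul_le_mul_left _ hbig
    omega
  have h2 : Nat.doubleFactorial (6 * r - 1) * B ≤ 4 * (6 ^ (2 * r) * 2 ^ N * g) := by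
    calc Nat.doubleFactorial (6 * r - 1) * B ≤ (2 * k) * B := Nat.mul_le_mul_right _ hker
      _ = 2 * (k * B) := by ring
      _ ≤ 2 * (2 * (6 ^ (2 * r) * 2 ^ N * g)) := Nat.mul_le_mul_left _ h1
      _ = _ := by ring
  have h3 : (2 * r + N).choose (2 * r) * (Nat.doubleFactorial (6 * r - 1) * B) ≤
      4 * (6 ^ (2 * r) * 2 ^ N) * T := by
    calc (2 * r + N).choose (2 * r) * (Nat.doubleFactorial (6 * r - 1) * B)
        ≤ (2 * r + N).choose (2 * r) * (4 * (6 ^ (2 * r) * 2 ^ N * g)) := Nat.mul_le_mul_left _ h2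
      _ = 4 * (6 ^ (2 * r) * 2 ^ N) * ((2 * r + N).choose (2 * r) * g) := by ring
      _ ≤ _ := Nat.mul_le_mul_left _ htrs
  have hfac := prod_fact r N hr1
  rw [← hB] at hfac
  have hch : (2 * r + N).choose (2 * r) * (2 * r).factorial * N.factorial = (2 * r + N).factorial := by
    have := Nat.choose_mul_factorial_mul_factorial (n := 2 * r + N) (k := 2 * r) (by omega)
    simpa using this
  have hsub : 2 * r + N - 2 * r = N := by omega
  rw [hsub]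
  have h36 : (6 : ℝ) ^ (2 * r) = 36 ^ r := by rw [pow_mul]; norm_num
  have h3' : ((2 * r + N).choose (2 * r) : ℝ) * ((Nat.doubleFactorial (6 * r - 1) : ℝ) * (B : ℝ)) ≤
      4 * (36 ^ r * 2 ^ N) * (T : ℝ) := by
    have : (((2 * r + N).choose (2 * r) * (Nat.doubleFactorial (6 * r - 1) * B) : ℕ) : ℝ) ≤
      ((4 * (6 ^ (2 * r) * 2 ^ N) * T : ℕ) : ℝ) := by exact_mod_cast h3
    push_cast at this
    rw [h36] at this
    exact this
  have hfac' : (B : ℝ) * ((3 * r - 1).factorial : ℝ) = 2 ^ N * ((2 * r + N + r - 1).factorial : ℝ) := by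
    exact_mod_cast hfac
  have hch' : ((2 * r + N).choose (2 * r) : ℝ) * ((2 * r).factorial : ℝ) * (N.factorial : ℝ) =
      ((2 * r + N).factorial : ℝ) := by exact_mod_cast hch
  have p1 : (0 : ℝ) < ((3 * r - 1).factorial : ℝ) := by exact_mod_cast Nat.factorial_pos _
  have p2 : (0 : ℝ) < ((2 * r).factorial : ℝ) := by exact_mod_cast Nat.factorial_pos _
  have p3 : (0 : ℝ) < (N.factorial : ℝ) := by exact_mod_cast Nat.factorial_pos _
  have p4 : (0 : ℝ) < (36 : ℝ) ^ r := by positivity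
  have p5 : (0 : ℝ) < (2 : ℝ) ^ N := by positivity
  have e1 : ((2 * r + N + r - 1).factorial : ℝ) = (B : ℝ) * ((3 * r - 1).factorial : ℝ) / 2 ^ N := by
    field_simp
    linarith
  rw [← hch', e1, ee]
  have e2 : (Nat.doubleFactorial (6 * r - 1) : ℝ) / (((2 * r).factorial : ℝ) * 36 ^ r) / 4 *
      (((2 * r + N).choose (2 * r) : ℝ) * ((2 * r).factorial : ℝ) * (N.factorial : ℝ)) *
      ((B : ℝ) * ((3 * r - 1).factorial : ℝ) / 2 ^ N / ((N.factorial : ℝ) * ((3 * r - 1).factorial : ℝ)))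
      = (((2 * r + N).choose (2 * r) : ℝ) * ((Nat.doubleFactorial (6 * r - 1) : ℝ) * (B : ℝ))) /
        (4 * (36 ^ r * 2 ^ N)) := by
    field_simp
  rw [e2, div_le_iff₀ (by positivity)]
  linarith

end Pool.Agent.Helper26.AF
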