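import Mathlib
import Pool.Agent.Helper26.AF.MainProof

/-!
Project AF (MP_af6c86_pr): the main theorem with `g₀` independent of the sequence `m`.
-/

namespace Pool.Agent.Helper26.AF

open Finset Filter Topology

/-- `1 - p_g(l) = 4 ^ (-g + o(g))`. -/
def StmtMAIN2 : Prop := ∀ (l ε : ℝ), 0 < ε → ε < 1 / 4 → ∃ g₀ : ℕ, ∀ g ≥ g₀, ∀ m : ℕ → ℕ,
  Tendsto (fun n : ℕ => ((m n : ℝ) - n / 2) / (n : ℝ) ^ ((2 : ℝ) / 3)) atTop (𝓝 (l / 2)) →
    (1 / 4 - ε) ^ g ≤ liminf (fun n : ℕ => prm n (m n) (fun G => ¬ Embeds G g)) atTop ∧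
    limsup (fun n : ℕ => prm n (m n) (fun G => ¬ Embeds G g)) atTop ≤ (1 / 4 + ε) ^ g

theorem goalMAIN2 (hLOW : StmtLOW) (hUPP : StmtUPP) (hUG : StmtUG) (hMONO : StmtMONO) (hTR : StmtTR) :
    StmtMAIN2 := by
  intro l ε hε hε4
  have hinc : ∀ g : ℕ, ∀ (n : ℕ) (G G' : SimpleGraph (Fin n)), G ≤ G' → ¬ Embeds G g → ¬ Embeds G' g :=
    fun g n G G' h h1 h2 => h1 (hMONO (Fin n) G' G g h h2)
  -- the base for the upper bound
  set a : ℝ := 1 / 4 + ε / 2 with ha
  set b : ℝ := 1 / 4 + ε with hb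
  have ha0 : 0 < a := by rw [ha]; linarith
  have ha1 : a < 1 := by rw [ha]; linarith
  have hab : a < b := by rw [ha, hb]; linarith
  have hb0 : 0 < b := by linarith
  set t : ℝ := 1 / Real.sqrt a with ht
  have hsa : 0 < Real.sqrt a := Real.sqrt_pos.2 ha0
  have hsa1 : Real.sqrt a < 1 := by
    rw [Real.sqrt_lt' one_pos]; simpa using ha1
  have hsa2 : 1 / 2 < Real.sqrt a := by
    rw [Real.lt_sqrt (by norm_num)]; rw [ha]; nlinarith
  have ht1 : 1 < t := by rw [ht, lt_div_iff₀ hsa]; linarith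
  have ht2 : t < 2 := by rw [ht, div_lt_iff₀ hsa]; linarith
  have htt : ∀ k : ℕ, (1 : ℝ) / t ^ (2 * k) = a ^ k := by
    intro k
    rw [ht, one_div_pow, one_div_one_div, pow_mul, Real.sq_sqrt ha0.le]
  obtain ⟨C, hC, hU⟩ := hUPP (l + 1) t ht1 ht2
  -- g₁
  have hlim : Tendsto (fun g : ℕ => C * a * (a / b) ^ g) atTop (𝓝 (C * a * 0)) :=
    (tendsto_pow_atTop_nhds_zero_of_lt_one (by positivity) (by rw [div_lt_one hb0]; exact hab)).const_mul _
  rw [mul_zero] at hlim
  obtain ⟨g₁, hg₁⟩ := eventually_atTop.1 (hlim.eventually (gt_mem_nhds (show (0 : ℝ) < 1 / 2 by norm_num)))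
  obtain ⟨g₂, hg₂⟩ := hLOW (l - 1) (ε / 2) (by linarith) (by linarith)
  refine ⟨max (max g₁ g₂) 1, fun g hg m hm => ?_⟩
  have hgg₁ : g₁ ≤ g := le_trans (le_trans (le_max_left _ _) (le_max_left _ _)) hg
  have hgg₂ : g₂ ≤ g := le_trans (le_trans (le_max_right _ _) (le_max_left _ _)) hg
  have hg1 : 1 ≤ g := le_trans (le_max_right _ _) hg
  have hp := hTR l m hm (fun n G => ¬ Embeds G g) (hinc g)
  constructor
  · -- lower bound
    have hd : 0 < (1 / 4 - ε / 2) ^ g - (1 / 4 - ε) ^ g := by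
      have : (1 / 4 - ε) ^ g < (1 / 4 - ε / 2) ^ g :=
        pow_lt_pow_left₀ (by linarith) (by linarith) (by omega)
      linarith
    have hev : ∀ᶠ n : ℕ in atTop, (1 / 4 - ε) ^ g ≤ prm n (m n) (fun G => ¬ Embeds G g) := by
      filter_upwards [hp _ hd, hg₂ g hgg₂] with n h1 h2
      have := h1.2
      linarith
    refine le_liminf_of_le ?_ hev
    exact isCoboundedUnder_ge_of_le atTop (fun n => prm_le_one _ _ _)
  · have hev : ∀ᶠ n : ℕ in atTop, prm n (m n) (fun G => ¬ Embeds G g) ≤ b ^ g := by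
      have hbg : 0 < b ^ g := by positivity
      have hpc : ∀ᶠ n : ℕ in atTop, 0 ≤ pc (l + 1) n ∧ pc (l + 1) n ≤ 1 := by
        have h3 : Tendsto (fun n : ℕ => (l + 1) / (n : ℝ) ^ ((1 : ℝ) / 3)) atTop (𝓝 0) := by
          apply Tendsto.div_atTop tendsto_const_nhds
          exact (tendsto_rpow_atTop (by norm_num)).comp tendsto_natCast_atTop_atTop
        have h4 := h3.eventually (Ioo_mem_nhds (show (-1 : ℝ) < 0 by norm_num) (show (0 : ℝ) < 1 by norm_num))
        filter_upwards [h4, eventually_ge_atTop 2] with n h5 h6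
        have h7 : (2 : ℝ) ≤ n := by exact_mod_cast h6
        constructor
        · unfold pc; exact div_nonneg (by linarith [h5.1]) (by linarith)
        · unfold pc; rw [div_le_one (by linarith)]; linarith [h5.2]
      filter_upwards [hp (b ^ g / 2) (by linarith), hU (2 * g + 2), hpc] with n h1 h2 h3
      have h4 : Pr (pc (l + 1) n) (fun G : SimpleGraph (Fin n) => ¬ Embeds G g) ≤
          Pr (pc (l + 1) n) (fun G : SimpleGraph (Fin n) => 2 * g + 2 ≤ ZZ G) := by
        refine Pr_mono h3.1 h3.2 fun G hG => ?_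
        by_contra hlt
        exact hG (hUG (Fin n) G g (by omega))
      have h5 : C / t ^ (2 * g + 2) = C * a * a ^ g := by
        have := htt (g + 1)
        rw [show 2 * (g + 1) = 2 * g + 2 by ring] at this
        rw [div_eq_mul_one_div, this, pow_succ]; ring
      have h6 : C * a * a ^ g ≤ b ^ g / 2 := by
        have := (hg₁ g hgg₁).le
        rw [div_pow, ← mul_div_assoc, div_le_iff₀ hbg] at this
        linarith
      have := h1.1
      linarith
    refine limsup_le_of_le ?_ hev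
    exact isCoboundedUnder_le_of_le atTop (fun n => prm_nonneg _ _ _)

end Pool.Agent.Helper26.AF
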