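import Mathlib
import Pool.Agent.Helper26.AF.Goals3

namespace Pool.Agent.Helper26.AF

open Finset Filter Topology

lemma one_sub_ge {x : ℝ} (h0 : 0 ≤ x) (h1 : x ≤ 1 / 4) :
    Real.exp (-x - x ^ 2 / 2 - 2 / 3 * x ^ 3) ≤ 1 - x := by
  set y := x + x ^ 2 / 2 + 2 / 3 * x ^ 3 with hy
  have hy0 : 0 ≤ y := by positivity
  have h2 : 1 + y + y ^ 2 / 2 + y ^ 3 / 6 ≤ Real.exp y := by
    have := Real.sum_le_exp_of_nonneg hy0 4
    simp only [Finset.sum_range_succ, Finset.sum_range_zero, Nat.factorial] at this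
    norm_num at this
    linarith
  have h3 : 1 ≤ (1 - x) * (1 + y + y ^ 2 / 2 + y ^ 3 / 6) := by
    have h4 : 1 + x + x ^ 2 + 4 / 3 * x ^ 3 + 25 / 24 * x ^ 4 ≤ 1 + y + y ^ 2 / 2 + y ^ 3 / 6 := by
      have e1 : y ^ 2 = x ^ 2 + x ^ 3 + (1 / 4 + 4 / 3) * x ^ 4 + 2 / 3 * x ^ 5 + 4 / 9 * x ^ 6 := by
        rw [hy]; ring
      have e2 : x ^ 3 + 3 / 2 * x ^ 4 ≤ y ^ 3 := by
        have : x + x ^ 2 / 2 ≤ y := by rw [hy]; nlinarith [pow_nonneg h0 3]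
        calc x ^ 3 + 3 / 2 * x ^ 4 ≤ (x + x ^ 2 / 2) ^ 3 := by
              have : (x + x ^ 2 / 2) ^ 3 = x ^ 3 + 3 / 2 * x ^ 4 + 3 / 4 * x ^ 5 + 1 / 8 * x ^ 6 := by ring
              rw [this]; nlinarith [pow_nonneg h0 5, pow_nonneg h0 6]
          _ ≤ y ^ 3 := pow_le_pow_left₀ (by positivity) this 3
      rw [e1]
      have := pow_nonneg h0 5
      have := pow_nonneg h0 6
      rw [hy]
      nlinarith
    have h5 : (1 : ℝ) ≤ (1 - x) * (1 + x + x ^ 2 + 4 / 3 * x ^ 3 + 25 / 24 * x ^ 4) := by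
      have : (1 - x) * (1 + x + x ^ 2 + 4 / 3 * x ^ 3 + 25 / 24 * x ^ 4)
          = 1 + x ^ 3 * (1 / 3 - 7 / 24 * x - 25 / 24 * x ^ 2) := by ring
      rw [this]
      have : 0 ≤ 1 / 3 - 7 / 24 * x - 25 / 24 * x ^ 2 := by nlinarith
      have := mul_nonneg (pow_nonneg h0 3) this
      linarith
    exact h5.trans (mul_le_mul_of_nonneg_left h4 (by linarith))
  have h6 : 1 ≤ (1 - x) * Real.exp y := h3.trans (mul_le_mul_of_nonneg_left h2 (by linarith))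
  have h7 : -x - x ^ 2 / 2 - 2 / 3 * x ^ 3 = -y := by rw [hy]; ring
  rw [h7, Real.exp_neg, inv_le_iff_one_le_mul₀ (Real.exp_pos y)]
  exact h6

lemma one_sub_ge2 {p : ℝ} (h0 : 0 ≤ p) (h1 : p ≤ 1 / 2) : Real.exp (-p - p ^ 2) ≤ 1 - p := by
  have h2 := Real.quadratic_le_exp_of_nonneg (show 0 ≤ p + p ^ 2 by positivity)
  have h3 : 1 ≤ (1 - p) * (1 + (p + p ^ 2) + (p + p ^ 2) ^ 2 / 2) := by
    have : (1 - p) * (1 + (p + p ^ 2) + (p + p ^ 2) ^ 2 / 2)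
        = 1 + p ^ 2 * (1 - p - p ^ 2 - p ^ 3) / 2 := by ring
    rw [this]
    have : 0 ≤ 1 - p - p ^ 2 - p ^ 3 := by nlinarith [pow_nonneg h0 2, pow_nonneg h0 3]
    have := mul_nonneg (pow_nonneg h0 2) this
    linarith
  have h6 : 1 ≤ (1 - p) * Real.exp (p + p ^ 2) :=
    h3.trans (mul_le_mul_of_nonneg_left h2 (by linarith))
  rw [show -p - p ^ 2 = -(p + p ^ 2) by ring, Real.exp_neg, inv_le_iff_one_le_mul₀ (Real.exp_pos _)]
  exact h6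

lemma one_add_ge {e : ℝ} (h : |e| ≤ 1 / 2) : Real.exp (e - e ^ 2) ≤ 1 + e := by
  rcases le_or_gt 0 e with h0 | h0
  · rw [abs_of_nonneg h0] at h
    have h1 : 0 < 1 - (e - e ^ 2) := by nlinarith
    have h2 : 1 - (e - e ^ 2) ≤ Real.exp (-(e - e ^ 2)) := by
      have := Real.add_one_le_exp (-(e - e ^ 2)); linarith
    have h3 : 1 ≤ (1 + e) * (1 - (e - e ^ 2)) := by
      have : (1 + e) * (1 - (e - e ^ 2)) = 1 + e ^ 3 := by ring
      rw [this]; have := pow_nonneg h0 3; linarith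
    have h4 : 1 ≤ (1 + e) * Real.exp (-(e - e ^ 2)) :=
      h3.trans (mul_le_mul_of_nonneg_left h2 (by linarith))
    rw [Real.exp_neg, ← div_eq_mul_inv, le_div_iff₀ (Real.exp_pos _)] at h4
    linarith
  · rw [abs_of_neg h0] at h
    have := one_sub_ge2 (p := -e) (by linarith) h
    have h2 : - -e - (-e) ^ 2 = e - e ^ 2 := by ring
    rw [h2] at this
    linarith

lemma desc_ge (n : ℕ) (hn : 0 < n) : ∀ k : ℕ, 4 * k ≤ n →
    (n : ℝ) ^ k * Real.exp (-((k : ℝ) * (k - 1) / (2 * n)) - (k : ℝ) ^ 3 / (6 * (n : ℝ) ^ 2)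
      - (k : ℝ) ^ 4 / (6 * (n : ℝ) ^ 3)) ≤ (n.descFactorial k : ℝ) := by
  intro k
  induction k with
  | zero => intro _; simp
  | succ k ih =>
    intro hk
    have hk' : 4 * k ≤ n := by omega
    have hN : (0 : ℝ) < n := by exact_mod_cast hn
    have hkn : 4 * (k : ℝ) ≤ n := by exact_mod_cast hk'
    have hk0 : (0 : ℝ) ≤ k := Nat.cast_nonneg k
    rw [Nat.descFactorial_succ]
    push_cast [Nat.cast_sub (show k ≤ n by omega)]
    have hx0 : (0 : ℝ) ≤ k / n := by positivity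
    have hx1 : (k : ℝ) / n ≤ 1 / 4 := by rw [div_le_iff₀ hN]; linarith
    have h1 := one_sub_ge hx0 hx1
    have h2 : (n : ℝ) * Real.exp (-((k : ℝ) / n) - ((k : ℝ) / n) ^ 2 / 2 - 2 / 3 * ((k : ℝ) / n) ^ 3)
        ≤ n - k := by
      have := mul_le_mul_of_nonneg_left h1 hN.le
      have h3 : (n : ℝ) * (1 - k / n) = n - k := by field_simp
      linarith
    have h4 : (n : ℝ) ^ (k + 1) * Real.exp (-(((k : ℝ) + 1) * ((k : ℝ) + 1 - 1) / (2 * n)) -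
          ((k : ℝ) + 1) ^ 3 / (6 * (n : ℝ) ^ 2) - ((k : ℝ) + 1) ^ 4 / (6 * (n : ℝ) ^ 3))
        ≤ ((n : ℝ) * Real.exp (-((k : ℝ) / n) - ((k : ℝ) / n) ^ 2 / 2 - 2 / 3 * ((k : ℝ) / n) ^ 3)) *
          ((n : ℝ) ^ k * Real.exp (-((k : ℝ) * (k - 1) / (2 * n)) - (k : ℝ) ^ 3 / (6 * (n : ℝ) ^ 2)
            - (k : ℝ) ^ 4 / (6 * (n : ℝ) ^ 3))) := by
      have e1 : ((n : ℝ) * Real.exp (-((k : ℝ) / n) - ((k : ℝ) / n) ^ 2 / 2 - 2 / 3 * ((k : ℝ) / n) ^ 3)) *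
          ((n : ℝ) ^ k * Real.exp (-((k : ℝ) * (k - 1) / (2 * n)) - (k : ℝ) ^ 3 / (6 * (n : ℝ) ^ 2)
            - (k : ℝ) ^ 4 / (6 * (n : ℝ) ^ 3)))
          = (n : ℝ) ^ (k + 1) * Real.exp ((-((k : ℝ) / n) - ((k : ℝ) / n) ^ 2 / 2 - 2 / 3 * ((k : ℝ) / n) ^ 3)
            + (-((k : ℝ) * (k - 1) / (2 * n)) - (k : ℝ) ^ 3 / (6 * (n : ℝ) ^ 2)
            - (k : ℝ) ^ 4 / (6 * (n : ℝ) ^ 3))) := by
        rw [Real.exp_add]; ring
      rw [e1]
      apply mul_le_mul_of_nonneg_left _ (by positivity)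
      apply Real.exp_le_exp.2
      have e2 : ((k : ℝ) + 1) * ((k : ℝ) + 1 - 1) / (2 * n) = k / n + (k : ℝ) * (k - 1) / (2 * n) := by
        field_simp; ring
      have e3 : ((k : ℝ) / n) ^ 2 / 2 + (k : ℝ) ^ 3 / (6 * (n : ℝ) ^ 2) ≤ ((k : ℝ) + 1) ^ 3 / (6 * (n : ℝ) ^ 2) := by
        have : ((k : ℝ) / n) ^ 2 / 2 + (k : ℝ) ^ 3 / (6 * (n : ℝ) ^ 2) =
          (3 * (k : ℝ) ^ 2 + (k : ℝ) ^ 3) / (6 * (n : ℝ) ^ 2) := by field_simp; ring
        rw [this]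
        apply div_le_div_of_nonneg_right _ (by positivity)
        nlinarith
      have e4 : 2 / 3 * ((k : ℝ) / n) ^ 3 + (k : ℝ) ^ 4 / (6 * (n : ℝ) ^ 3) ≤
          ((k : ℝ) + 1) ^ 4 / (6 * (n : ℝ) ^ 3) := by
        have : 2 / 3 * ((k : ℝ) / n) ^ 3 + (k : ℝ) ^ 4 / (6 * (n : ℝ) ^ 3) =
          (4 * (k : ℝ) ^ 3 + (k : ℝ) ^ 4) / (6 * (n : ℝ) ^ 3) := by field_simp; ring
        rw [this]
        apply div_le_div_of_nonneg_right _ (by positivity)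
        nlinarith [sq_nonneg (k : ℝ)]
      rw [e2]; linarith
    calc _ ≤ _ := h4
      _ ≤ ((n : ℝ) - k) * (n.descFactorial k : ℝ) :=
        mul_le_mul h2 (ih hk') (by positivity) (by linarith)

/-- The probability factor. -/
lemma P1 (n k r : ℕ) (e : ℝ) (hn : 4 ≤ n) (hk : 4 * k ≤ n) (he : |e| ≤ 1 / 2) :
    Real.exp (-(k : ℝ) - (k : ℝ) ^ 3 / (6 * (n : ℝ) ^ 2) - |e| * (k : ℝ) ^ 2 / n
      - (k : ℝ) ^ 4 / (6 * (n : ℝ) ^ 3) - 3 - |e| * r - e ^ 2 * (k + r)) * (1 / (n : ℝ)) ^ r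
    ≤ (n.descFactorial k : ℝ) * (1 - (1 + e) / n) ^ (k * (n - k) + k.choose 2) *
      ((1 + e) / n / (1 - (1 + e) / n)) ^ (k + r) := by
  have hN : (4 : ℝ) ≤ n := by exact_mod_cast hn
  have hN0 : (0 : ℝ) < n := by linarith
  have hk0 : (0 : ℝ) ≤ k := Nat.cast_nonneg k
  have hkn : 4 * (k : ℝ) ≤ n := by exact_mod_cast hk
  have he1 := abs_le.1 he
  have hee := one_add_ge he
  set p : ℝ := (1 + e) / n with hp
  have hp0 : 0 < p := by rw [hp]; apply div_pos <;> linarith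
  have hp1 : p ≤ 1 / 2 := by rw [hp, div_le_iff₀ hN0]; linarith
  have hq := one_sub_ge2 hp0.le hp1
  have hq0 : 0 < 1 - p := by linarith
  -- M
  set M : ℕ := k * (n - k) + k.choose 2 with hM
  have hMr : (M : ℝ) = k * n - k * (k + 1) / 2 := by
    have h1 : (k.choose 2 : ℝ) = k * (k - 1) / 2 := by
      rw [Nat.cast_choose_two]
    rw [hM]; push_cast [Nat.cast_sub (show k ≤ n by omega)]
    rw [h1]; ring
  -- lower bounds
  have h1 : Real.exp ((-p - p ^ 2) * M) ≤ (1 - p) ^ M := by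
    rw [mul_comm, Real.exp_nat_mul]
    exact pow_le_pow_left₀ (Real.exp_pos _).le hq M
  have h2 : p ^ (k + r) ≤ (p / (1 - p)) ^ (k + r) := by
    apply pow_le_pow_left₀ hp0.le
    rw [le_div_iff₀ hq0]; nlinarith
  have h3 : Real.exp ((k + r) * (e - e ^ 2)) * (1 / (n : ℝ)) ^ (k + r) ≤ p ^ (k + r) := by
    have : p ^ (k + r) = (1 + e) ^ (k + r) * (1 / (n : ℝ)) ^ (k + r) := by
      rw [hp, div_eq_mul_one_div, mul_pow]
    rw [this]
    apply mul_le_mul_of_nonneg_right _ (by positivity)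
    have h4 := pow_le_pow_left₀ (Real.exp_pos _).le hee (k + r)
    rw [← Real.exp_nat_mul] at h4
    push_cast at h4
    exact h4
  have h4 := desc_ge n (by omega) k hk
  -- combine
  have h5 : (n : ℝ) ^ k * Real.exp (-((k : ℝ) * (k - 1) / (2 * n)) - (k : ℝ) ^ 3 / (6 * (n : ℝ) ^ 2)
      - (k : ℝ) ^ 4 / (6 * (n : ℝ) ^ 3)) * Real.exp ((-p - p ^ 2) * M) *
      (Real.exp ((k + r) * (e - e ^ 2)) * (1 / (n : ℝ)) ^ (k + r)) ≤
      (n.descFactorial k : ℝ) * (1 - p) ^ M * (p / (1 - p)) ^ (k + r) := by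
    apply mul_le_mul (mul_le_mul h4 h1 (Real.exp_pos _).le (by positivity)) (h3.trans h2)
      (by positivity) (by positivity)
  refine le_trans ?_ h5
  have h6 : (n : ℝ) ^ k * Real.exp (-((k : ℝ) * (k - 1) / (2 * n)) - (k : ℝ) ^ 3 / (6 * (n : ℝ) ^ 2)
      - (k : ℝ) ^ 4 / (6 * (n : ℝ) ^ 3)) * Real.exp ((-p - p ^ 2) * M) *
      (Real.exp ((k + r) * (e - e ^ 2)) * (1 / (n : ℝ)) ^ (k + r)) =
      Real.exp ((-((k : ℝ) * (k - 1) / (2 * n)) - (k : ℝ) ^ 3 / (6 * (n : ℝ) ^ 2)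
      - (k : ℝ) ^ 4 / (6 * (n : ℝ) ^ 3)) + ((-p - p ^ 2) * M) + (k + r) * (e - e ^ 2)) *
      (1 / (n : ℝ)) ^ r := by
    rw [Real.exp_add, Real.exp_add]
    have : (n : ℝ) ^ k * (1 / (n : ℝ)) ^ (k + r) = (1 / (n : ℝ)) ^ r := by
      rw [pow_add, ← mul_assoc, ← mul_pow]
      rw [mul_one_div_cancel hN0.ne', one_pow, one_mul]
    rw [← this]; ring
  rw [h6]
  apply mul_le_mul_of_nonneg_right _ (by positivity)
  apply Real.exp_le_exp.2
  -- exponent inequality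
  have hpM : p * M = (1 + e) * (k - k * (k + 1) / (2 * n)) := by
    rw [hMr, hp]; field_simp
  have hM1 : (M : ℝ) ≤ k * n := by rw [hMr]; nlinarith
  have hM0 : (0 : ℝ) ≤ M := Nat.cast_nonneg M
  have hpn : p * n ≤ 3 / 2 := by rw [hp, div_mul_cancel₀ _ hN0.ne']; linarith
  have hp2M : p ^ 2 * M ≤ 3 := by
    have : p ^ 2 * M ≤ p ^ 2 * (k * n) := mul_le_mul_of_nonneg_left hM1 (by positivity)
    have h7 : p ^ 2 * (k * n) ≤ p ^ 2 * (n * n) := by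
      apply mul_le_mul_of_nonneg_left _ (by positivity)
      nlinarith
    have h8 : p ^ 2 * (n * n) = (p * n) ^ 2 := by ring
    have h9 : (p * n) ^ 2 ≤ (3 / 2) ^ 2 := pow_le_pow_left₀ (by positivity) hpn 2
    linarith
  have ha : (-p - p ^ 2) * M = -(p * M) - p ^ 2 * M := by ring
  rw [ha, hpM]
  have h10 : (1 + e) * ((k : ℝ) - k * (k + 1) / (2 * n)) = k + e * k - (k : ℝ) * (k + 1) / (2 * n)
      - e * (k * (k + 1) / (2 * n)) := by ring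
  rw [h10]
  have h11 : -(|e| * (k : ℝ) ^ 2 / n) ≤ e * (k * (k + 1) / (2 * n)) := by
    have h12 : |e * ((k : ℝ) * (k + 1) / (2 * n))| ≤ |e| * (k : ℝ) ^ 2 / n := by
      have hre : |e| * (k : ℝ) ^ 2 / n = |e| * ((k : ℝ) ^ 2 / n) := by ring
      rw [abs_mul, hre]
      apply mul_le_mul_of_nonneg_left _ (abs_nonneg e)
      rw [abs_of_nonneg (by positivity), div_le_div_iff₀ (by positivity) hN0]
      rcases Nat.eq_zero_or_pos k with h0 | h0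
      · simp [h0]
      · have : (1 : ℝ) ≤ k := by exact_mod_cast h0
        nlinarith [mul_nonneg (mul_nonneg hk0 (sub_nonneg.2 this)) hN0.le]
    have := (abs_le.1 h12).1
    linarith
  have h13 : -((k : ℝ) * (k - 1) / (2 * n)) + (k : ℝ) * (k + 1) / (2 * n) = k / n := by
    field_simp; ring
  have h14 : (0 : ℝ) ≤ k / n := by positivity
  have h15 : -(|e| * r) ≤ e * r := by
    have : |e * r| ≤ |e| * r := by rw [abs_mul, abs_of_nonneg (show (0 : ℝ) ≤ r from Nat.cast_nonneg r)]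
    have := (abs_le.1 this).1
    linarith
  nlinarith

end Pool.Agent.Helper26.AF
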