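import Mathlib
import Pool.Agent.Helper26.AF.NUL1

namespace Pool.Agent.Helper26.AF

open Finset Filter Topology

lemma one_sub_le {x : ℝ} (h0 : 0 ≤ x) (h1 : x ≤ 1) : 1 - x ≤ Real.exp (-x - x ^ 2 / 2) := by
  have hanti : AntitoneOn (fun x : ℝ => (1 - x) * Real.exp (x + x ^ 2 / 2)) (Set.Ici 0) := by
    apply antitoneOn_of_deriv_nonpos (convex_Ici 0)
    · fun_prop
    · fun_prop
    · intro y hy
      have hd : HasDerivAt (fun x : ℝ => (1 - x) * Real.exp (x + x ^ 2 / 2))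
          ((0 - 1) * Real.exp (y + y ^ 2 / 2) + (1 - y) * (Real.exp (y + y ^ 2 / 2) *
            (1 + (2 * y) / 2))) y := by
        have h1 : HasDerivAt (fun x : ℝ => 1 - x) (0 - 1) y :=
          (hasDerivAt_const y (1 : ℝ)).sub (hasDerivAt_id y)
        have h2 : HasDerivAt (fun x : ℝ => x + x ^ 2 / 2) (1 + (2 * y) / 2) y := by
          have h3 : HasDerivAt (fun x : ℝ => x ^ 2 / 2) ((2 * y) / 2) y := by
            have := (hasDerivAt_pow 2 y).div_const 2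
            simpa using this
          exact (hasDerivAt_id' y).add h3
        exact h1.mul h2.exp
      rw [hd.deriv]
      have : (0 - 1) * Real.exp (y + y ^ 2 / 2) + (1 - y) * (Real.exp (y + y ^ 2 / 2) *
            (1 + (2 * y) / 2)) = - (y ^ 2 * Real.exp (y + y ^ 2 / 2)) := by ring
      rw [this]
      have := Real.exp_pos (y + y ^ 2 / 2)
      nlinarith [mul_nonneg (sq_nonneg y) this.le]
  have h2 := hanti (Set.mem_Ici.2 le_rfl) (Set.mem_Ici.2 h0) h0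
  simp only [sub_zero, zero_pow, ne_eq, OfNat.ofNat_ne_zero, not_false_eq_true, zero_div, add_zero,
    Real.exp_zero, mul_one] at h2
  rw [show -x - x ^ 2 / 2 = -(x + x ^ 2 / 2) by ring, Real.exp_neg, ← one_div,
    le_div_iff₀ (Real.exp_pos _)]
  exact h2

lemma fact_le {m : ℕ} (hm : 1 ≤ m) :
    (m.factorial : ℝ) ≤ Real.exp 1 * Real.sqrt m * ((m : ℝ) / Real.exp 1) ^ m := by
  have h1 := Stirling.stirlingSeq'_antitone (Nat.zero_le (m - 1))
  simp only [Function.comp, Nat.succ_eq_add_one] at h1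
  rw [Nat.sub_add_cancel hm] at h1
  rw [zero_add, Stirling.stirlingSeq_one] at h1
  unfold Stirling.stirlingSeq at h1
  have hm0 : (0 : ℝ) < m := by exact_mod_cast hm
  have h2 : 0 < Real.sqrt (2 * (m : ℝ)) * ((m : ℝ) / Real.exp 1) ^ m := by positivity
  rw [div_le_iff₀ h2] at h1
  refine h1.trans (le_of_eq ?_)
  rw [Real.sqrt_mul (by norm_num)]
  have : Real.sqrt 2 ≠ 0 := by positivity
  field_simp

lemma P3 (s k : ℕ) (hs : 1 ≤ s) (hk : s < k) :
    Real.exp ((k : ℝ) - (s : ℝ) ^ 2 / (2 * k) - (s : ℝ) ^ 3 / (2 * (k : ℝ) ^ 2)) /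
      (Real.exp 1 * Real.sqrt k) ≤ (k : ℝ) ^ (k - s) / ((k - s).factorial : ℝ) := by
  obtain ⟨m, hm⟩ : ∃ m, m = k - s := ⟨_, rfl⟩
  have hm1 : 1 ≤ m := by omega
  have hmk : (m : ℝ) = k - s := by rw [hm]; push_cast [Nat.cast_sub hk.le]; ring
  rw [← hm]
  have hK : (0 : ℝ) < k := by exact_mod_cast (by omega : 0 < k)
  have hM : (0 : ℝ) < m := by exact_mod_cast hm1
  have hf := fact_le hm1
  have hfp : (0 : ℝ) < (m.factorial : ℝ) := by exact_mod_cast m.factorial_pos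
  have hx : (s : ℝ) / k ≤ 1 := by rw [div_le_one hK]; exact_mod_cast hk.le
  have h1 := one_sub_le (x := (s : ℝ) / k) (by positivity) hx
  have h2 : 1 - (s : ℝ) / k = m / k := by rw [hmk]; field_simp
  rw [h2] at h1
  have h3 := pow_le_pow_left₀ (by positivity) h1 m
  rw [← Real.exp_nat_mul] at h3
  -- m^m ≤ k^m exp(...)
  rw [div_le_div_iff₀ (by positivity) hfp]
  have h4 : (m : ℝ) ^ m ≤ (k : ℝ) ^ m * Real.exp (m * (-((s : ℝ) / k) - ((s : ℝ) / k) ^ 2 / 2)) := by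
    rw [div_pow, div_le_iff₀ (by positivity)] at h3
    linarith
  have h5 : Real.sqrt m ≤ Real.sqrt k := by
    apply Real.sqrt_le_sqrt; rw [hmk]; have : (0 : ℝ) ≤ s := Nat.cast_nonneg s; linarith
  calc Real.exp ((k : ℝ) - (s : ℝ) ^ 2 / (2 * k) - (s : ℝ) ^ 3 / (2 * (k : ℝ) ^ 2)) * (m.factorial : ℝ)
      ≤ Real.exp ((k : ℝ) - (s : ℝ) ^ 2 / (2 * k) - (s : ℝ) ^ 3 / (2 * (k : ℝ) ^ 2)) *
        (Real.exp 1 * Real.sqrt k * (((k : ℝ) ^ m *
          Real.exp (m * (-((s : ℝ) / k) - ((s : ℝ) / k) ^ 2 / 2))) / Real.exp 1 ^ m)) := by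
        apply mul_le_mul_of_nonneg_left _ (Real.exp_pos _).le
        refine hf.trans ?_
        rw [div_pow]
        apply mul_le_mul (mul_le_mul_of_nonneg_left h5 (Real.exp_pos _).le) _ (by positivity)
          (by positivity)
        exact div_le_div_of_nonneg_right h4 (by positivity)
    _ = (k : ℝ) ^ m * (Real.exp 1 * Real.sqrt k) *
        (Real.exp ((k : ℝ) - (s : ℝ) ^ 2 / (2 * k) - (s : ℝ) ^ 3 / (2 * (k : ℝ) ^ 2)) *
          (Real.exp (m * (-((s : ℝ) / k) - ((s : ℝ) / k) ^ 2 / 2)) * Real.exp (-(m : ℝ)))) := by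
        rw [← Real.exp_nat_mul, mul_one, Real.exp_neg (m : ℝ)]
        field_simp
    _ = (k : ℝ) ^ m * (Real.exp 1 * Real.sqrt k) := by
        rw [← Real.exp_add, ← Real.exp_add]
        have : (k : ℝ) - (s : ℝ) ^ 2 / (2 * k) - (s : ℝ) ^ 3 / (2 * (k : ℝ) ^ 2) +
            (m * (-((s : ℝ) / k) - ((s : ℝ) / k) ^ 2 / 2) + -(m : ℝ))
            = (0 : ℝ) + 0 := by
          rw [hmk]; field_simp; ring
        rw [this]; simp
    _ ≤ _ := le_rfl

lemma P2 (s r : ℕ) (hr : 1 ≤ r) (hs : 12 * r ^ 2 ≤ s) :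
    (s : ℝ) ^ (3 * r - 1) / 2 ≤ ((s + r - 1).factorial : ℝ) / ((s - 2 * r).factorial : ℝ) := by
  have h2r : 2 * r ≤ s := by nlinarith
  have hs0 : 0 < s := by nlinarith
  have hS : (0 : ℝ) < s := by exact_mod_cast hs0
  have h1 := Nat.factorial_mul_pow_le_factorial (m := s - 2 * r) (n := 3 * r - 1)
  rw [show s - 2 * r + (3 * r - 1) = s + r - 1 by omega] at h1
  have h2 : ((s - 2 * r).factorial : ℝ) * ((s - 2 * r : ℕ) : ℝ) ^ (3 * r - 1) ≤
      ((s + r - 1).factorial : ℝ) := by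
    refine le_trans ?_ (by exact_mod_cast h1 :
      ((s - 2 * r).factorial : ℝ) * (((s - 2 * r : ℕ) : ℝ) + 1) ^ (3 * r - 1) ≤ _)
    gcongr
    linarith
  have hf : (0 : ℝ) < ((s - 2 * r).factorial : ℝ) := by exact_mod_cast Nat.factorial_pos _
  rw [le_div_iff₀ hf]
  refine le_trans ?_ h2
  rw [mul_comm]
  apply mul_le_mul_of_nonneg_left _ hf.le
  push_cast [Nat.cast_sub h2r]
  have hsR : 12 * (r : ℝ) ^ 2 ≤ s := by exact_mod_cast hs
  have hrR : (1 : ℝ) ≤ r := by exact_mod_cast hr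
  have h3 : (-2 : ℝ) ≤ -(2 * r / s) := by
    have : 2 * (r : ℝ) / s ≤ 2 := by rw [div_le_iff₀ hS]; nlinarith
    linarith
  have h4 := one_add_mul_le_pow h3 (3 * r - 1)
  have h5 : (1 : ℝ) / 2 ≤ 1 + ((3 * r - 1 : ℕ) : ℝ) * -(2 * r / s) := by
    have h6 : ((3 * r - 1 : ℕ) : ℝ) ≤ 3 * r := by
      have : 3 * r - 1 ≤ 3 * r := by omega
      exact_mod_cast this
    have h7 : ((3 * r - 1 : ℕ) : ℝ) * (2 * r / s) ≤ 1 / 2 := by
      calc ((3 * r - 1 : ℕ) : ℝ) * (2 * r / s) ≤ 3 * r * (2 * r / s) := by gcongr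
        _ = 6 * (r : ℝ) ^ 2 / s := by ring
        _ ≤ 1 / 2 := by rw [div_le_iff₀ hS]; linarith
    linarith
  have h8 : (s : ℝ) - 2 * r = s * (1 + -(2 * r / s)) := by field_simp; ring
  rw [h8, mul_pow]
  have h9 : (0 : ℝ) < (s : ℝ) ^ (3 * r - 1) := by positivity
  calc (s : ℝ) ^ (3 * r - 1) / 2 = (s : ℝ) ^ (3 * r - 1) * (1 / 2) := by ring
    _ ≤ _ := mul_le_mul_of_nonneg_left (h5.trans h4) h9.le

end Pool.Agent.Helper26.AF
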