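import Mathlib
import Pool.Agent.Helper26.AF.NUL2

namespace Pool.Agent.Helper26.AF

open Finset Filter Topology

lemma cardwin (x δ : ℝ) (n : ℕ) (hx : 0 < x) (hδ : 0 < δ) (h2 : 2 ≤ δ * x) (hn : (1 + δ) * x ≤ n) :
    δ * x / 2 ≤ (#((Icc 1 n).filter (fun k : ℕ => x ≤ (k : ℝ) ∧ (k : ℝ) ≤ (1 + δ) * x)) : ℝ) := by
  have hsub : Icc ⌈x⌉₊ ⌊(1 + δ) * x⌋₊ ⊆
      (Icc 1 n).filter (fun k : ℕ => x ≤ (k : ℝ) ∧ (k : ℝ) ≤ (1 + δ) * x) := by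
    intro k hk
    rw [mem_Icc] at hk
    rw [mem_filter, mem_Icc]
    have h1 : x ≤ k := Nat.ceil_le.1 hk.1
    have h3 : (k : ℝ) ≤ (1 + δ) * x := (Nat.le_floor_iff (by positivity)).1 hk.2
    refine ⟨⟨?_, ?_⟩, h1, h3⟩
    · have : (0 : ℝ) < k := by linarith
      exact_mod_cast this
    · have : (k : ℝ) ≤ n := h3.trans hn
      exact_mod_cast this
  have h3 := card_le_card hsub
  rw [Nat.card_Icc] at h3
  have h4 : (1 + δ) * x < ⌊(1 + δ) * x⌋₊ + 1 := Nat.lt_floor_add_one _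
  have h5 : (⌈x⌉₊ : ℝ) < x + 1 := Nat.ceil_lt_add_one hx.le
  have h6 : ((⌊(1 + δ) * x⌋₊ : ℝ) + 1 - ⌈x⌉₊) ≤ ((⌊(1 + δ) * x⌋₊ + 1 - ⌈x⌉₊ : ℕ) : ℝ) := by
    have : ((⌊(1 + δ) * x⌋₊ + 1 : ℕ) : ℝ) - (⌈x⌉₊ : ℝ) ≤ ((⌊(1 + δ) * x⌋₊ + 1 - ⌈x⌉₊ : ℕ) : ℝ) := by
      rw [sub_le_iff_le_add]
      exact_mod_cast (le_tsub_add : (⌊(1 + δ) * x⌋₊ + 1 : ℕ) ≤ (⌊(1 + δ) * x⌋₊ + 1 - ⌈x⌉₊) + ⌈x⌉₊)
    push_cast at this ⊢
    linarith
  have h7 : ((⌊(1 + δ) * x⌋₊ + 1 - ⌈x⌉₊ : ℕ) : ℝ) ≤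
    (#((Icc 1 n).filter (fun k : ℕ => x ≤ (k : ℝ) ∧ (k : ℝ) ≤ (1 + δ) * x)) : ℝ) := by
    exact_mod_cast h3
  nlinarith

lemma term_eq (n k s r : ℕ) (A q u : ℝ) (hk1 : 1 ≤ k) (hs : s ≤ k) (hkn : k ≤ n) :
    (n.choose k : ℝ) * q * ((1 / (k : ℝ)) * ((k.choose s : ℝ) * (A / 4 * (s.factorial : ℝ) *
      (((s + r - 1).factorial : ℝ) / (((s - 2 * r).factorial : ℝ) * ((3 * r - 1).factorial : ℝ)))) *
      ((s : ℝ) * (k : ℝ) ^ (k - s))) * u) =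
    ((n.descFactorial k : ℝ) * q * u) * (A / (4 * ((3 * r - 1).factorial : ℝ))) *
      (((s + r - 1).factorial : ℝ) / ((s - 2 * r).factorial : ℝ)) * ((s : ℝ) / k) *
      ((k : ℝ) ^ (k - s) / ((k - s).factorial : ℝ)) := by
  have h1 : (n.descFactorial k : ℝ) = (k.factorial : ℝ) * n.choose k := by
    exact_mod_cast Nat.descFactorial_eq_factorial_mul_choose n k
  have h2 : (k.choose s : ℝ) * s.factorial * (k - s).factorial = k.factorial := by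
    exact_mod_cast Nat.choose_mul_factorial_mul_factorial hs
  rw [h1, ← h2]
  have e1 : ((k - s).factorial : ℝ) ≠ 0 := by exact_mod_cast Nat.factorial_ne_zero _
  have e2 : ((3 * r - 1).factorial : ℝ) ≠ 0 := by exact_mod_cast Nat.factorial_ne_zero _
  have e3 : ((s - 2 * r).factorial : ℝ) ≠ 0 := by exact_mod_cast Nat.factorial_ne_zero _
  have e4 : (k : ℝ) ≠ 0 := by exact_mod_cast (by omega : k ≠ 0)
  field_simp

lemma ee_nonneg (r : ℕ) : 0 ≤ ee r := by unfold ee; positivity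

/-- The bound of one term. -/
lemma term_ge (l δ a z : ℝ) (r n k s : ℕ) (hr : 1 ≤ r) (hδ0 : 0 < δ) (hδ1 : δ ≤ 1) (ha : 0 < a)
    (ha3 : a ^ 3 = 3 * r) (hz : 0 < z) (hz3 : z ^ 3 = n)
    (T1 : 8 * a ≤ z) (T2 : 2 * |l| ≤ z) (T3 : 4 * a ^ 4 ≤ z) (T4 : |l| * r ≤ z) (T5 : l ^ 2 * r ≤ z ^ 2)
    (T6 : 12 * (r : ℝ) ^ 2 ≤ a ^ 2 * z) (T7 : 4 ≤ n)
    (hk1 : a * z ^ 2 ≤ k) (hk2 : (k : ℝ) ≤ (1 + δ) * (a * z ^ 2))
    (hs1 : a ^ 2 * z ≤ s) (hs2 : (s : ℝ) ≤ (1 + δ) * (a ^ 2 * z)) :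
    ee r / ((3 * r - 1).factorial : ℝ) * (3 * (r : ℝ)) ^ (2 * r) *
      Real.exp (-(2 * r * (1 + δ) ^ 3) - (4 * a ^ 2 * |l| + 2 * a * l ^ 2 + 6) - 2) /
      (40 * Real.sqrt r * z ^ 3) ≤
    ((n.descFactorial k : ℝ) * (1 - (1 + l / z) / n) ^ (k * (n - k) + k.choose 2) *
      ((1 + l / z) / n / (1 - (1 + l / z) / n)) ^ (k + r)) *
      (ee r / (4 * ((3 * r - 1).factorial : ℝ))) *
      (((s + r - 1).factorial : ℝ) / ((s - 2 * r).factorial : ℝ)) * ((s : ℝ) / k) *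
      ((k : ℝ) ^ (k - s) / ((k - s).factorial : ℝ)) := by
  have hR : (1 : ℝ) ≤ r := by exact_mod_cast hr
  have haz : 0 < a * z ^ 2 := by positivity
  have hK : (0 : ℝ) < k := by linarith
  have hK1 : 1 ≤ k := by exact_mod_cast hK
  have hk3 : (k : ℝ) ≤ 2 * a * z ^ 2 := by nlinarith
  have hs3 : (s : ℝ) ≤ 2 * a ^ 2 * z := by nlinarith [mul_pos (pow_pos ha 2) hz]
  have hS : (0 : ℝ) < s := by nlinarith [mul_pos (pow_pos ha 2) hz]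
  have hS1 : 1 ≤ s := by exact_mod_cast hS
  have hN : (0 : ℝ) < n := by rw [← hz3]; positivity
  have h4k : 4 * k ≤ n := by
    have : 4 * (k : ℝ) ≤ n := by
      rw [← hz3]
      calc 4 * (k : ℝ) ≤ 4 * (2 * a * z ^ 2) := by linarith
        _ = (8 * a) * z ^ 2 := by ring
        _ ≤ z * z ^ 2 := by gcongr
        _ = z ^ 3 := by ring
    exact_mod_cast this
  have hsk : s < k := by
    have : (s : ℝ) < k := by
      calc (s : ℝ) ≤ 2 * a ^ 2 * z := hs3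
        _ < a * z ^ 2 := by nlinarith [mul_pos ha hz]
        _ ≤ k := hk1
    exact_mod_cast this
  have he : |l / z| ≤ 1 / 2 := by
    rw [abs_div, abs_of_pos hz, div_le_iff₀ hz]; linarith
  -- P1
  have hP1 := P1 n k r (l / z) T7 h4k he
  -- exponent of P1
  have hz6 : (n : ℝ) ^ 2 = z ^ 6 := by rw [← hz3]; ring
  have hz9 : (n : ℝ) ^ 3 = z ^ 9 := by rw [← hz3]; ring
  have c1 : (k : ℝ) ^ 3 / (6 * (n : ℝ) ^ 2) ≤ (1 + δ) ^ 3 * r / 2 := by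
    rw [hz6, div_le_iff₀ (by positivity)]
    calc (k : ℝ) ^ 3 ≤ ((1 + δ) * (a * z ^ 2)) ^ 3 := by gcongr
      _ = (1 + δ) ^ 3 * a ^ 3 * z ^ 6 := by ring
      _ = (1 + δ) ^ 3 * r / 2 * (6 * z ^ 6) := by rw [ha3]; ring
  have c2 : |l / z| * (k : ℝ) ^ 2 / n ≤ 4 * a ^ 2 * |l| := by
    rw [abs_div, abs_of_pos hz, ← hz3, div_le_iff₀ (by positivity)]
    calc |l| / z * (k : ℝ) ^ 2 ≤ |l| / z * (2 * a * z ^ 2) ^ 2 := by gcongr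
      _ = 4 * a ^ 2 * |l| * z ^ 3 := by field_simp; ring
  have c3 : (k : ℝ) ^ 4 / (6 * (n : ℝ) ^ 3) ≤ 1 := by
    rw [hz9, div_le_one (by positivity)]
    calc (k : ℝ) ^ 4 ≤ (2 * a * z ^ 2) ^ 4 := by gcongr
      _ = 4 * (4 * a ^ 4) * z ^ 8 := by ring
      _ ≤ 4 * z * z ^ 8 := by gcongr
      _ ≤ 6 * z ^ 9 := by nlinarith [pow_pos hz 9]
  have c4 : |l / z| * r ≤ 1 := by
    rw [abs_div, abs_of_pos hz, div_mul_eq_mul_div, div_le_one hz]; exact T4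
  have c5 : (l / z) ^ 2 * (k + r) ≤ 2 * a * l ^ 2 + 1 := by
    rw [div_pow, div_mul_eq_mul_div, div_le_iff₀ (by positivity)]
    calc l ^ 2 * ((k : ℝ) + r) = l ^ 2 * k + l ^ 2 * r := by ring
      _ ≤ l ^ 2 * (2 * a * z ^ 2) + z ^ 2 := add_le_add (mul_le_mul_of_nonneg_left hk3 (sq_nonneg l)) T5
      _ = (2 * a * l ^ 2 + 1) * z ^ 2 := by ring
  -- P3
  have hP3 := P3 s k hS1 hsk
  have c6 : (s : ℝ) ^ 2 / (2 * k) ≤ (1 + δ) ^ 3 * (3 * r) / 2 := by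
    rw [div_le_iff₀ (by positivity)]
    calc (s : ℝ) ^ 2 ≤ ((1 + δ) * (a ^ 2 * z)) ^ 2 := by gcongr
      _ = (1 + δ) ^ 2 * a ^ 3 * (a * z ^ 2) := by ring
      _ ≤ (1 + δ) ^ 2 * a ^ 3 * k := by gcongr
      _ = (1 + δ) ^ 2 * (3 * r) * k := by rw [ha3]
      _ ≤ (1 + δ) ^ 3 * (3 * r) * k := by
          have : (1 + δ) ^ 2 ≤ (1 + δ) ^ 3 := pow_le_pow_right₀ (by linarith) (by norm_num)
          gcongr
      _ = (1 + δ) ^ 3 * (3 * r) / 2 * (2 * k) := by ring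
  have c7 : (s : ℝ) ^ 3 / (2 * (k : ℝ) ^ 2) ≤ 1 := by
    rw [div_le_one (by positivity)]
    calc (s : ℝ) ^ 3 ≤ (2 * a ^ 2 * z) ^ 3 := by gcongr
      _ = 2 * a ^ 2 * (4 * a ^ 4) * z ^ 3 := by ring
      _ ≤ 2 * a ^ 2 * z * z ^ 3 := by gcongr
      _ = 2 * (a * z ^ 2) ^ 2 := by ring
      _ ≤ 2 * (k : ℝ) ^ 2 := by gcongr
  -- P2
  have hs12 : 12 * r ^ 2 ≤ s := by
    have : 12 * (r : ℝ) ^ 2 ≤ s := T6.trans hs1
    exact_mod_cast this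
  have hP2 := P2 s r hr hs12
  -- k sqrt k
  have hkk : (k : ℝ) * Real.sqrt k ≤ 5 * Real.sqrt r * z ^ 3 := by
    have h1 : Real.sqrt k ^ 2 = k := Real.sq_sqrt hK.le
    have h2 : Real.sqrt (r : ℝ) ^ 2 = r := Real.sq_sqrt (by linarith)
    rw [← pow_le_pow_iff_left₀ (by positivity) (by positivity) two_ne_zero]
    calc ((k : ℝ) * Real.sqrt k) ^ 2 = (k : ℝ) ^ 3 := by rw [mul_pow, h1]; ring
      _ ≤ (2 * a * z ^ 2) ^ 3 := by gcongr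
      _ = 8 * a ^ 3 * z ^ 6 := by ring
      _ = 24 * r * z ^ 6 := by rw [ha3]; ring
      _ ≤ 25 * r * z ^ 6 := by nlinarith [mul_pos (lt_of_lt_of_le one_pos hR) (pow_pos hz 6)]
      _ = (5 * Real.sqrt r * z ^ 3) ^ 2 := by rw [mul_pow, mul_pow, h2]; ring
  have hsq : 0 < Real.sqrt (k : ℝ) := Real.sqrt_pos.2 hK
  have hsr : 0 < Real.sqrt (r : ℝ) := Real.sqrt_pos.2 (by linarith)
  have hee := ee_nonneg r
  have hf : (0 : ℝ) < ((3 * r - 1).factorial : ℝ) := by exact_mod_cast Nat.factorial_pos _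
  have hs3r : (3 * (r : ℝ)) ^ (2 * r) * (n : ℝ) ^ r ≤ (s : ℝ) ^ (3 * r) := by
    calc (3 * (r : ℝ)) ^ (2 * r) * (n : ℝ) ^ r = (a ^ 3) ^ (2 * r) * (z ^ 3) ^ r := by rw [ha3, hz3]
      _ = (a ^ 2 * z) ^ (3 * r) := by rw [mul_pow, ← pow_mul, ← pow_mul, ← pow_mul]; ring_nf
      _ ≤ (s : ℝ) ^ (3 * r) := by gcongr
  -- combine
  set E := Real.exp (-(k : ℝ) - (k : ℝ) ^ 3 / (6 * (n : ℝ) ^ 2) - |l / z| * (k : ℝ) ^ 2 / n
      - (k : ℝ) ^ 4 / (6 * (n : ℝ) ^ 3) - 3 - |l / z| * r - (l / z) ^ 2 * (k + r)) with hE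
  have hlow : E * (1 / (n : ℝ)) ^ r * (ee r / (4 * ((3 * r - 1).factorial : ℝ))) *
      ((s : ℝ) ^ (3 * r - 1) / 2) * ((s : ℝ) / k) *
      (Real.exp ((k : ℝ) - (s : ℝ) ^ 2 / (2 * k) - (s : ℝ) ^ 3 / (2 * (k : ℝ) ^ 2)) /
      (Real.exp 1 * Real.sqrt k)) ≤
    ((n.descFactorial k : ℝ) * (1 - (1 + l / z) / n) ^ (k * (n - k) + k.choose 2) *
      ((1 + l / z) / n / (1 - (1 + l / z) / n)) ^ (k + r)) *
      (ee r / (4 * ((3 * r - 1).factorial : ℝ))) *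
      (((s + r - 1).factorial : ℝ) / ((s - 2 * r).factorial : ℝ)) * ((s : ℝ) / k) *
      ((k : ℝ) ^ (k - s) / ((k - s).factorial : ℝ)) := by
    have hX0 : 0 ≤ (n.descFactorial k : ℝ) * (1 - (1 + l / z) / n) ^ (k * (n - k) + k.choose 2) *
      ((1 + l / z) / n / (1 - (1 + l / z) / n)) ^ (k + r) := le_trans (by positivity) hP1
    have hc : 0 ≤ ee r / (4 * ((3 * r - 1).factorial : ℝ)) := by positivity
    apply mul_le_mul _ hP3 (by positivity)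
      (by apply mul_nonneg (mul_nonneg (mul_nonneg hX0 hc) (by positivity)) (by positivity))
    apply mul_le_mul_of_nonneg_right _ (by positivity)
    apply mul_le_mul _ hP2 (by positivity) (mul_nonneg hX0 hc)
    exact mul_le_mul_of_nonneg_right hP1 hc
  refine le_trans ?_ hlow
  -- rewrite the lower bound
  have hEx : Real.exp (-(2 * r * (1 + δ) ^ 3) - (4 * a ^ 2 * |l| + 2 * a * l ^ 2 + 6) - 2) ≤
      E * (Real.exp ((k : ℝ) - (s : ℝ) ^ 2 / (2 * k) - (s : ℝ) ^ 3 / (2 * (k : ℝ) ^ 2)) * Real.exp (-1)) := by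
    rw [hE, ← Real.exp_add, ← Real.exp_add]
    apply Real.exp_le_exp.2
    linarith
  have hid : E * (1 / (n : ℝ)) ^ r * (ee r / (4 * ((3 * r - 1).factorial : ℝ))) *
      ((s : ℝ) ^ (3 * r - 1) / 2) * ((s : ℝ) / k) *
      (Real.exp ((k : ℝ) - (s : ℝ) ^ 2 / (2 * k) - (s : ℝ) ^ 3 / (2 * (k : ℝ) ^ 2)) /
      (Real.exp 1 * Real.sqrt k)) =
      (E * (Real.exp ((k : ℝ) - (s : ℝ) ^ 2 / (2 * k) - (s : ℝ) ^ 3 / (2 * (k : ℝ) ^ 2)) * Real.exp (-1))) *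
      (ee r / ((3 * r - 1).factorial : ℝ)) * ((s : ℝ) ^ (3 * r) / (n : ℝ) ^ r) / (8 * (k * Real.sqrt k)) := by
    have : (s : ℝ) ^ (3 * r) = (s : ℝ) ^ (3 * r - 1) * s := by
      rw [← pow_succ]; congr 1; omega
    rw [this, Real.exp_neg 1, one_div, inv_pow]
    field_simp
    ring
  rw [hid]
  have h3 : (3 * (r : ℝ)) ^ (2 * r) ≤ (s : ℝ) ^ (3 * r) / (n : ℝ) ^ r := by
    rw [le_div_iff₀ (by positivity)]; exact hs3r
  rw [div_le_div_iff₀ (by positivity) (by positivity)]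
  have hc0 : 0 ≤ ee r / ((3 * r - 1).factorial : ℝ) := by positivity
  calc ee r / ((3 * r - 1).factorial : ℝ) * (3 * (r : ℝ)) ^ (2 * r) *
      Real.exp (-(2 * r * (1 + δ) ^ 3) - (4 * a ^ 2 * |l| + 2 * a * l ^ 2 + 6) - 2) *
      (8 * (k * Real.sqrt k))
      ≤ ee r / ((3 * r - 1).factorial : ℝ) * (3 * (r : ℝ)) ^ (2 * r) *
      Real.exp (-(2 * r * (1 + δ) ^ 3) - (4 * a ^ 2 * |l| + 2 * a * l ^ 2 + 6) - 2) *
      (40 * Real.sqrt r * z ^ 3) := by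
        apply mul_le_mul_of_nonneg_left _ (by positivity)
        linarith
    _ ≤ _ := by
        apply mul_le_mul_of_nonneg_right _ (by positivity)
        calc ee r / ((3 * r - 1).factorial : ℝ) * (3 * (r : ℝ)) ^ (2 * r) *
          Real.exp (-(2 * r * (1 + δ) ^ 3) - (4 * a ^ 2 * |l| + 2 * a * l ^ 2 + 6) - 2)
          = Real.exp (-(2 * r * (1 + δ) ^ 3) - (4 * a ^ 2 * |l| + 2 * a * l ^ 2 + 6) - 2) *
            (ee r / ((3 * r - 1).factorial : ℝ)) * (3 * (r : ℝ)) ^ (2 * r) := by ring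
          _ ≤ _ := by
            apply mul_le_mul (mul_le_mul_of_nonneg_right hEx hc0) h3 (by positivity)
            exact mul_nonneg (by positivity) hc0

end Pool.Agent.Helper26.AF
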