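import Mathlib
import Pool.Agent.Helper26.AF.NUL3

namespace Pool.Agent.Helper26.AF

open Finset Filter Topology

lemma NULcore (hE : StmtEEB) (l δ a z : ℝ) (r n s₀ : ℕ) (hr : 1 ≤ r) (hδ0 : 0 < δ) (hδ1 : δ ≤ 1)
    (ha : 0 < a) (ha3 : a ^ 3 = 3 * r) (hz : 0 < z) (hz3 : z ^ 3 = n)
    (T1 : 8 * a ≤ z) (T2 : 2 * |l| ≤ z) (T3 : 4 * a ^ 4 ≤ z) (T4 : |l| * r ≤ z) (T5 : l ^ 2 * r ≤ z ^ 2)
    (T6 : 12 * (r : ℝ) ^ 2 ≤ a ^ 2 * z) (T7 : 4 ≤ n) (T8 : 2 ≤ δ * (a * z ^ 2))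
    (T9 : 2 ≤ δ * (a ^ 2 * z)) (T10 : (s₀ : ℝ) ≤ a ^ 2 * z)
    (hKW : ∀ k ∈ Icc 1 n, (k : ℝ) ≤ 2 * a * z ^ 2 → k ∈ KW r n)
    (N : ℕ → ℝ) (hN0 : ∀ k, 0 ≤ N k)
    (hN : ∀ k, ∑ s ∈ Icc s₀ k, (k.choose s : ℝ) * (ee r / 4 * (s.factorial : ℝ) *
      (((s + r - 1).factorial : ℝ) / (((s - 2 * r).factorial : ℝ) * ((3 * r - 1).factorial : ℝ)))) *
      ((s : ℝ) * (k : ℝ) ^ (k - s)) ≤ N k * k) :
    δ ^ 2 / (1100 * r) * (1 / 2 ^ r) *
      Real.exp (-(14 * δ * r) - (4 * a ^ 2 * |l| + 2 * a * l ^ 2 + 6) - 2) ≤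
    ∑ k ∈ KW r n, (n.choose k : ℝ) * (1 - (1 + l / z) / n) ^ (k * (n - k) + k.choose 2) *
      (N k * ((1 + l / z) / n / (1 - (1 + l / z) / n)) ^ (k + r)) := by
  have hR : (1 : ℝ) ≤ r := by exact_mod_cast hr
  have hN4 : (4 : ℝ) ≤ n := by exact_mod_cast T7
  have he := abs_le.1 (show |l / z| ≤ 1 / 2 by rw [abs_div, abs_of_pos hz, div_le_iff₀ hz]; linarith)
  have hp0 : 0 < (1 + l / z) / n := div_pos (by linarith [he.1]) (by linarith)
  have hp1 : (1 + l / z) / n ≤ 1 / 2 := by rw [div_le_iff₀ (by linarith)]; linarith [he.2]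
  set q : ℝ := 1 - (1 + l / z) / n with hq
  have hq0 : 0 < q := by rw [hq]; linarith
  set u : ℝ := (1 + l / z) / n / q with hu
  have hu0 : 0 < u := div_pos hp0 hq0
  have haz : 0 < a * z ^ 2 := by positivity
  have haz2 : 0 < a ^ 2 * z := by positivity
  have hbig : 2 * a * z ^ 2 ≤ n := by
    rw [← hz3]
    calc 2 * a * z ^ 2 ≤ 8 * a * z ^ 2 := by nlinarith
      _ ≤ z * z ^ 2 := by gcongr
      _ = z ^ 3 := by ring
  have hbig2 : 2 * a ^ 2 * z ≤ a * z ^ 2 := by nlinarith [mul_pos ha hz]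
  set K' := (Icc 1 n).filter (fun k : ℕ => a * z ^ 2 ≤ (k : ℝ) ∧ (k : ℝ) ≤ (1 + δ) * (a * z ^ 2)) with hK'
  set S' := (Icc 1 n).filter (fun k : ℕ => a ^ 2 * z ≤ (k : ℝ) ∧ (k : ℝ) ≤ (1 + δ) * (a ^ 2 * z)) with hS'
  have cK : δ * (a * z ^ 2) / 2 ≤ (#K' : ℝ) := cardwin _ δ n haz hδ0 T8 (by nlinarith)
  have cS : δ * (a ^ 2 * z) / 2 ≤ (#S' : ℝ) := cardwin _ δ n haz2 hδ0 T9 (by nlinarith)
  set B : ℝ := ee r / ((3 * r - 1).factorial : ℝ) * (3 * (r : ℝ)) ^ (2 * r) *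
      Real.exp (-(2 * r * (1 + δ) ^ 3) - (4 * a ^ 2 * |l| + 2 * a * l ^ 2 + 6) - 2) /
      (40 * Real.sqrt r * z ^ 3) with hB
  have hB0 : 0 ≤ B := by have := ee_nonneg r; positivity
  -- sum
  have hKsub : K' ⊆ KW r n := by
    intro k hk
    rw [hK', mem_filter] at hk
    refine hKW k hk.1 ?_
    nlinarith [hk.2.2]
  have h1 : ∑ k ∈ K', (n.choose k : ℝ) * q ^ (k * (n - k) + k.choose 2) * (N k * u ^ (k + r)) ≤
      ∑ k ∈ KW r n, (n.choose k : ℝ) * q ^ (k * (n - k) + k.choose 2) * (N k * u ^ (k + r)) := by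
    apply sum_le_sum_of_subset_of_nonneg hKsub
    intro k _ _
    exact mul_nonneg (by positivity) (mul_nonneg (hN0 k) (by positivity))
  refine le_trans ?_ h1
  have h2 : ∀ k ∈ K', (#S' : ℝ) * B ≤
      (n.choose k : ℝ) * q ^ (k * (n - k) + k.choose 2) * (N k * u ^ (k + r)) := by
    intro k hk
    rw [hK', mem_filter, mem_Icc] at hk
    obtain ⟨⟨hk1, hkn⟩, hka, hkb⟩ := hk
    have hKp : (0 : ℝ) < k := by linarith
    have h3 : ∀ s ∈ S', B ≤ (n.choose k : ℝ) * q ^ (k * (n - k) + k.choose 2) *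
        ((1 / (k : ℝ)) * ((k.choose s : ℝ) * (ee r / 4 * (s.factorial : ℝ) *
        (((s + r - 1).factorial : ℝ) / (((s - 2 * r).factorial : ℝ) * ((3 * r - 1).factorial : ℝ)))) *
        ((s : ℝ) * (k : ℝ) ^ (k - s))) * u ^ (k + r)) := by
      intro s hs
      rw [hS', mem_filter, mem_Icc] at hs
      obtain ⟨⟨hs1, hsn⟩, hsa, hsb⟩ := hs
      have hsk : s ≤ k := by
        have : (s : ℝ) ≤ k := by nlinarith
        exact_mod_cast this
      rw [term_eq n k s r (ee r) _ _ hk1 hsk hkn]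
      exact term_ge l δ a z r n k s hr hδ0 hδ1 ha ha3 hz hz3 T1 T2 T3 T4 T5 T6 T7 hka hkb hsa hsb
    have h4 := card_nsmul_le_sum S' _ B h3
    rw [nsmul_eq_mul] at h4
    refine h4.trans ?_
    rw [← mul_sum]
    apply mul_le_mul_of_nonneg_left _ (by positivity)
    rw [← sum_mul]
    apply mul_le_mul_of_nonneg_right _ (by positivity)
    rw [← mul_sum, one_div, inv_mul_le_iff₀ hKp, mul_comm (k : ℝ)]
    refine le_trans ?_ (hN k)
    apply sum_le_sum_of_subset_of_nonneg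
    · intro s hs
      rw [hS', mem_filter, mem_Icc] at hs
      obtain ⟨⟨hs1, hsn⟩, hsa, hsb⟩ := hs
      rw [mem_Icc]
      constructor
      · have : (s₀ : ℝ) ≤ s := T10.trans hsa
        exact_mod_cast this
      · have : (s : ℝ) ≤ k := by nlinarith
        exact_mod_cast this
    · intro s _ _
      have := ee_nonneg r
      positivity
  have h5 := card_nsmul_le_sum K' _ _ h2
  rw [nsmul_eq_mul] at h5
  refine le_trans ?_ h5
  have h6 : (δ * (a * z ^ 2) / 2) * ((δ * (a ^ 2 * z) / 2) * B) ≤ (#K' : ℝ) * ((#S' : ℝ) * B) := by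
    gcongr
  refine le_trans ?_ h6
  -- final numeric
  have hsr2 : Real.sqrt (r : ℝ) ^ 2 = r := Real.sq_sqrt (by linarith)
  have hsr1 : 1 ≤ Real.sqrt (r : ℝ) := by rw [Real.one_le_sqrt]; exact hR
  have h7 : (δ * (a * z ^ 2) / 2) * ((δ * (a ^ 2 * z) / 2) * B) =
      (3 * δ ^ 2 * Real.sqrt r / 160) * (ee r / ((3 * r - 1).factorial : ℝ) * (3 * (r : ℝ)) ^ (2 * r) *
      Real.exp (-(2 * r * (1 + δ) ^ 3) - (4 * a ^ 2 * |l| + 2 * a * l ^ 2 + 6) - 2)) := by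
    rw [hB]
    have h8 : a * z ^ 2 * (a ^ 2 * z) = 3 * (Real.sqrt r) ^ 2 * z ^ 3 := by
      rw [hsr2]
      calc a * z ^ 2 * (a ^ 2 * z) = a ^ 3 * z ^ 3 := by ring
        _ = _ := by rw [ha3]
    have h9 : (δ * (a * z ^ 2) / 2) * ((δ * (a ^ 2 * z) / 2) *
      (ee r / ((3 * r - 1).factorial : ℝ) * (3 * (r : ℝ)) ^ (2 * r) *
      Real.exp (-(2 * r * (1 + δ) ^ 3) - (4 * a ^ 2 * |l| + 2 * a * l ^ 2 + 6) - 2) /
      (40 * Real.sqrt r * z ^ 3))) = (a * z ^ 2 * (a ^ 2 * z)) * (δ ^ 2 / 4 *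
      (ee r / ((3 * r - 1).factorial : ℝ) * (3 * (r : ℝ)) ^ (2 * r) *
      Real.exp (-(2 * r * (1 + δ) ^ 3) - (4 * a ^ 2 * |l| + 2 * a * l ^ 2 + 6) - 2) /
      (40 * Real.sqrt r * z ^ 3))) := by ring
    rw [h9, h8]
    have : Real.sqrt (r : ℝ) ≠ 0 := by linarith
    field_simp
    ring
  rw [h7]
  have hEr := (hE r hr).2
  have h10 : Real.exp (-(14 * δ * r) - (4 * a ^ 2 * |l| + 2 * a * l ^ 2 + 6) - 2) *
      Real.exp (-(2 * (r : ℝ))) ≤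
      Real.exp (-(2 * r * (1 + δ) ^ 3) - (4 * a ^ 2 * |l| + 2 * a * l ^ 2 + 6) - 2) := by
    rw [← Real.exp_add]
    apply Real.exp_le_exp.2
    have : (1 + δ) ^ 3 ≤ 1 + 7 * δ := by nlinarith [sq_nonneg δ, mul_nonneg hδ0.le (sub_nonneg.2 hδ1)]
    nlinarith
  set Y : ℝ := Real.exp (-(14 * δ * r) - (4 * a ^ 2 * |l| + 2 * a * l ^ 2 + 6) - 2) with hY
  have hY0 : 0 < Y := Real.exp_pos _
  have hee := ee_nonneg r
  have hc0 : 0 ≤ ee r / ((3 * r - 1).factorial : ℝ) * (3 * (r : ℝ)) ^ (2 * r) := by positivity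
  calc δ ^ 2 / (1100 * r) * (1 / 2 ^ r) * Y ≤ (3 * δ ^ 2 / 160) * (1 / (20 * (r : ℝ) * 2 ^ r) * Y) := by
        have h2r : (0 : ℝ) < 2 ^ r := by positivity
        have e1 : δ ^ 2 / (1100 * r) * (1 / 2 ^ r) * Y = (δ ^ 2 * Y / (r * 2 ^ r)) * (1 / 1100) := by
          field_simp
        have e2 : (3 * δ ^ 2 / 160) * (1 / (20 * (r : ℝ) * 2 ^ r) * Y) =
            (δ ^ 2 * Y / (r * 2 ^ r)) * (3 / 3200) := by field_simp; ring
        rw [e1, e2]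
        apply mul_le_mul_of_nonneg_left (by norm_num) (by positivity)
    _ ≤ (3 * δ ^ 2 * Real.sqrt r / 160) * (1 / (20 * (r : ℝ) * 2 ^ r) * Y) := by
        apply mul_le_mul_of_nonneg_right _ (by positivity)
        nlinarith [sq_nonneg δ, mul_nonneg (sq_nonneg δ) (sub_nonneg.2 hsr1)]
    _ ≤ (3 * δ ^ 2 * Real.sqrt r / 160) * ((ee r / ((3 * r - 1).factorial : ℝ) *
          (3 * (r : ℝ)) ^ (2 * r) * Real.exp (-(2 * (r : ℝ)))) * Y) := by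
        gcongr
    _ = (3 * δ ^ 2 * Real.sqrt r / 160) * ((ee r / ((3 * r - 1).factorial : ℝ) *
          (3 * (r : ℝ)) ^ (2 * r)) * (Y * Real.exp (-(2 * (r : ℝ))))) := by ring
    _ ≤ _ := by
        apply mul_le_mul_of_nonneg_left _ (by positivity)
        exact mul_le_mul_of_nonneg_left h10 hc0

theorem goalNUL (hE : StmtEEB) : StmtNUL := by
  intro l ρ hρ0 hρ1
  set σ : ℝ := Real.log (1 / (2 * ρ)) with hσ
  have hσ0 : 0 < σ := by
    rw [hσ]; apply Real.log_pos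
    rw [lt_div_iff₀ (by linarith)]; linarith
  set δ : ℝ := min 1 (σ / 28) with hδ
  have hδ0 : 0 < δ := lt_min one_pos (by linarith)
  have hδ1 : δ ≤ 1 := min_le_left _ _
  have hδσ : δ ≤ σ / 28 := min_le_right _ _
  set C₁ : ℝ := 4 * |l| + 2 * l ^ 2 with hC₁
  have hC₁0 : 0 ≤ C₁ := by positivity
  -- growth in r
  have g1 : ∀ᶠ r : ℕ in atTop, C₁ * (3 * (r : ℝ)) ^ ((2 : ℝ) / 3) + 8 ≤ σ / 4 * r := by
    have t1 : Tendsto (fun x : ℝ => x ^ (-((1 : ℝ) / 3))) atTop (𝓝 0) :=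
      tendsto_rpow_neg_atTop (by norm_num)
    have t2 : Tendsto (fun x : ℝ => (1 : ℝ) / x) atTop (𝓝 0) := by
      simpa using tendsto_inv_atTop_zero (𝕜 := ℝ)
    have t3 : Tendsto (fun x : ℝ => C₁ * 3 ^ ((2 : ℝ) / 3) * x ^ (-((1 : ℝ) / 3)) + 8 * (1 / x)) atTop
        (𝓝 (C₁ * 3 ^ ((2 : ℝ) / 3) * 0 + 8 * 0)) := (t1.const_mul _).add (t2.const_mul _)
    have t4 := t3.comp (tendsto_natCast_atTop_atTop (R := ℝ))
    have h0 : C₁ * 3 ^ ((2 : ℝ) / 3) * 0 + 8 * 0 < σ / 4 := by simp; linarith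
    filter_upwards [t4.eventually (gt_mem_nhds h0), eventually_ge_atTop 1] with r h1 h2
    have hR : (0 : ℝ) < r := by exact_mod_cast h2
    simp only [Function.comp] at h1
    have h3 : (3 * (r : ℝ)) ^ ((2 : ℝ) / 3) = 3 ^ ((2 : ℝ) / 3) * ((r : ℝ) ^ (-((1 : ℝ) / 3)) * r) := by
      rw [Real.mul_rpow (by norm_num) hR.le]
      congr 1
      nth_rewrite 3 [← Real.rpow_one (r : ℝ)]
      rw [← Real.rpow_add hR]; norm_num
    rw [h3]
    have h4 := mul_lt_mul_of_pos_right h1 hR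
    have h5 : (C₁ * 3 ^ ((2 : ℝ) / 3) * (r : ℝ) ^ (-((1 : ℝ) / 3)) + 8 * (1 / (r : ℝ))) * r =
      C₁ * (3 ^ ((2 : ℝ) / 3) * ((r : ℝ) ^ (-((1 : ℝ) / 3)) * r)) + 8 := by field_simp
    linarith
  have g2 : ∀ᶠ r : ℕ in atTop, 1100 * (r : ℝ) / δ ^ 2 ≤ Real.exp (σ / 4 * r) := by
    have t1 := Real.tendsto_exp_div_pow_atTop 1
    have t2 : Tendsto (fun r : ℕ => σ / 4 * (r : ℝ)) atTop atTop :=
      tendsto_natCast_atTop_atTop.const_mul_atTop (by linarith)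
    have t3 := t1.comp t2
    filter_upwards [t3.eventually_ge_atTop (1100 / δ ^ 2 * (4 / σ)), eventually_ge_atTop 1] with r h1 h2
    have hR : (0 : ℝ) < r := by exact_mod_cast h2
    simp only [Function.comp, pow_one] at h1
    rw [le_div_iff₀ (by positivity)] at h1
    have : 1100 / δ ^ 2 * (4 / σ) * (σ / 4 * r) = 1100 * r / δ ^ 2 := by field_simp
    linarith
  obtain ⟨r₁, hr₁⟩ := eventually_atTop.1 (g1.and g2)
  refine ⟨max r₁ 1, fun r hr s₀ hs₀ => ?_⟩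
  have hr1 : 1 ≤ r := (le_max_right _ _).trans hr
  obtain ⟨G1, G2⟩ := hr₁ r ((le_max_left _ _).trans hr)
  have hR : (1 : ℝ) ≤ r := by exact_mod_cast hr1
  have hR0 : (0 : ℝ) < r := by linarith
  set a : ℝ := (3 * (r : ℝ)) ^ ((1 : ℝ) / 3) with ha
  have ha0 : 0 < a := Real.rpow_pos_of_pos (by linarith) _
  have ha3 : a ^ 3 = 3 * r := by
    rw [ha, ← Real.rpow_natCast, ← Real.rpow_mul (by linarith)]; norm_num
  have ha2 : a ^ 2 = (3 * (r : ℝ)) ^ ((2 : ℝ) / 3) := by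
    rw [ha, ← Real.rpow_natCast, ← Real.rpow_mul (by linarith)]; norm_num
  have ha1 : 1 ≤ a := by
    rw [ha]; exact Real.one_le_rpow (by linarith) (by norm_num)
  -- final inequality in r
  have hfin : ρ ^ r ≤ δ ^ 2 / (1100 * r) * (1 / 2 ^ r) *
      Real.exp (-(14 * δ * r) - (4 * a ^ 2 * |l| + 2 * a * l ^ 2 + 6) - 2) := by
    have e1 : Real.exp (-(σ * r)) = (2 * ρ) ^ r := by
      rw [hσ, one_div, Real.log_inv]
      rw [show -(-Real.log (2 * ρ) * (r : ℝ)) = (r : ℝ) * Real.log (2 * ρ) by ring, Real.exp_nat_mul,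
        Real.exp_log (by linarith)]
    have e2 : ρ ^ r = (2 * ρ) ^ r * (1 / 2 ^ r) := by
      rw [mul_pow]; field_simp
    rw [e2, ← e1]
    have e3 : Real.exp (-(σ * r)) ≤ δ ^ 2 / (1100 * r) *
        Real.exp (-(14 * δ * r) - (4 * a ^ 2 * |l| + 2 * a * l ^ 2 + 6) - 2) := by
      have f1 : Real.exp (-(σ * r)) * (1100 * r / δ ^ 2) ≤
          Real.exp (-(14 * δ * r) - (4 * a ^ 2 * |l| + 2 * a * l ^ 2 + 6) - 2) := by
        calc Real.exp (-(σ * r)) * (1100 * r / δ ^ 2) ≤ Real.exp (-(σ * r)) * Real.exp (σ / 4 * r) :=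
              mul_le_mul_of_nonneg_left G2 (Real.exp_pos _).le
          _ = Real.exp (-(σ * r) + σ / 4 * r) := by rw [Real.exp_add]
          _ ≤ _ := by
              apply Real.exp_le_exp.2
              have f2 : 2 * a * l ^ 2 ≤ 2 * l ^ 2 * a ^ 2 := by nlinarith [sq_nonneg l, mul_nonneg (sq_nonneg l) (mul_nonneg ha0.le (sub_nonneg.2 ha1))]
              have f3 : 4 * a ^ 2 * |l| + 2 * a * l ^ 2 ≤ C₁ * a ^ 2 := by rw [hC₁]; nlinarith
              rw [← ha2] at G1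
              nlinarith
      have f4 : δ ^ 2 / (1100 * r) * (Real.exp (-(σ * r)) * (1100 * r / δ ^ 2)) = Real.exp (-(σ * r)) := by
        field_simp
      rw [← f4]
      exact mul_le_mul_of_nonneg_left f1 (by positivity)
    calc Real.exp (-(σ * r)) * (1 / 2 ^ r) ≤ (δ ^ 2 / (1100 * r) *
        Real.exp (-(14 * δ * r) - (4 * a ^ 2 * |l| + 2 * a * l ^ 2 + 6) - 2)) * (1 / 2 ^ r) :=
          mul_le_mul_of_nonneg_right e3 (by positivity)
      _ = _ := by ring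
  have hzT : Tendsto (fun n : ℕ => (n : ℝ) ^ ((1 : ℝ) / 3)) atTop atTop :=
    (tendsto_rpow_atTop (by norm_num)).comp tendsto_natCast_atTop_atTop
  filter_upwards [hzT.eventually_ge_atTop (8 * a), hzT.eventually_ge_atTop (2 * |l|),
    hzT.eventually_ge_atTop (4 * a ^ 4), hzT.eventually_ge_atTop (|l| * r),
    hzT.eventually_ge_atTop (l ^ 2 * r), hzT.eventually_ge_atTop (12 * (r : ℝ) ^ 2 / a ^ 2),
    hzT.eventually_ge_atTop (2 / (δ * a)), hzT.eventually_ge_atTop (2 / (δ * a ^ 2)),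
    hzT.eventually_ge_atTop ((s₀ : ℝ) / a ^ 2), hzT.eventually_ge_atTop 1, eventually_ge_atTop 4]
    with n T1 T2 T3 T4 T5 T6 T8 T9 T10 Tz T7
  intro N hN0 hN
  set z : ℝ := (n : ℝ) ^ ((1 : ℝ) / 3) with hz
  have hz0 : 0 < z := by linarith
  have hn0 : (0 : ℝ) ≤ n := Nat.cast_nonneg n
  have hz3 : z ^ 3 = n := by
    rw [hz, ← Real.rpow_natCast, ← Real.rpow_mul hn0]; norm_num
  have hz2 : z ^ 2 = (n : ℝ) ^ ((2 : ℝ) / 3) := by
    rw [hz, ← Real.rpow_natCast, ← Real.rpow_mul hn0]; norm_num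
  have hzz : z ≤ z ^ 2 := by nlinarith
  have hpc : pc l n = (1 + l / z) / n := rfl
  rw [hpc]
  refine hfin.trans (NULcore hE l δ a z r n s₀ hr1 hδ0 hδ1 ha0 ha3 hz0 hz3 T1 T2 T3 T4 ?_ ?_ T7 ?_ ?_ ?_ ?_
    N hN0 hN)
  · linarith
  · rw [div_le_iff₀ (by positivity)] at T6; linarith
  · rw [div_le_iff₀ (by positivity)] at T8
    calc 2 ≤ z * (δ * a) := T8
      _ ≤ z ^ 2 * (δ * a) := by gcongr
      _ = δ * (a * z ^ 2) := by ring
  · rw [div_le_iff₀ (by positivity)] at T9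
    linarith
  · rw [div_le_iff₀ (by positivity)] at T10; linarith
  · intro k hk hk2
    unfold KW
    rw [mem_filter]
    refine ⟨hk, ?_⟩
    rw [← hz2, ← ha]
    exact hk2

end Pool.Agent.Helper26.AF
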