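import Mathlib
import Pool.Agent.Helper26.AF.KGL1
import Pool.Agent.Helper26.AF.NULm
import Pool.Agent.Helper26.AF.Main2
import Pool.Agent.Helper4.AF.KFO
import Pool.Agent.Helper18.AF.DELG
import Pool.Agent.Helper36.AF.SSM
import Pool.Agent.Helper12.AF.BLK
import Pool.Agent.Helper14.AF.PAR
import Pool.Agent.Helper15.AF.CCN
import Pool.Agent.Helper15.AF.WIN
import Pool.Agent.Helper16.AF.CORI
import Pool.Agent.Helper20.AF.ISN
import Pool.Agent.Helper22.AF.KBD
import Pool.Agent.Helper22.AF.POI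
import Pool.Agent.Helper24.AF.KDI
import Pool.Agent.Helper24.AF.TRS
import Pool.Agent.Helper28.AF.EEB
import Pool.Agent.Helper28.AF.PMC
import Pool.Agent.Helper32.AF.DEL
import Pool.Agent.Helper32.AF.KSM
import Pool.Agent.Helper33.AF.GRF
import Pool.Agent.Helper34.AF.CYL
import Pool.Agent.Helper34.AF.PAU
import Pool.Agent.Helper46.AF.SWAP
import Pool.Agent.Helper50.AF.SMO
import Pool.Agent.Helper26.AF.EXPD1
import Pool.Agent.Helper57.AF.KNU
import Pool.Agent.Helper57.AF.TR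
import Pool.Agent.Helper57.AF.TR1
import Pool.Agent.Helper57.AF.TUPC
import Pool.Agent.Helper64.AF.KFA
import Pool.Agent.Helper69.AF.LOW
import Pool.Agent.Helper69.AF.MONO
import Pool.Agent.Helper69.AF.UPP
import Pool.Agent.Helper73.AF.ISG
import Pool.Agent.Helper74.AF.FAL
import Pool.Agent.Helper77.AF.FOR
import Pool.Agent.Helper82.AF.BRC
import Pool.Agent.Helper83.AF.KER
import Pool.Agent.Helper83.AF.UG
import Pool.Agent.Helper85.AF.WR
import Pool.Agent.Helper86.AF.ROT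
import Pool.Agent.Helper87.AF.SUB
import Pool.Agent.Helper88.AF.CHE
import Pool.Agent.Helper90.AF.EXPB
import Pool.Agent.Helper90.AF.NPC
import Pool.Agent.Helper92.AF.INS
import Pool.Agent.Helper92.AF.ORBS
import Pool.Agent.Helper93.AF.COR2
import Pool.Agent.Helper95.AF.CMP

/-!
Project AF (MP_af6c86_pr): the packets put together.
-/

namespace Pool.Agent.Helper26.AF

lemma okORBS : StmtORBS := Pool.Agent.Helper92.AF.goalORBS
lemma okSWAP : StmtSWAP := Pool.Agent.Helper46.AF.goalSWAP okORBS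
lemma okDEL : StmtDEL := Pool.Agent.Helper32.AF.goalDEL okSWAP
lemma okBRC : StmtBRC := Pool.Agent.Helper82.AF.goalBRC
lemma okCCN : StmtCCN := Pool.Agent.Helper15.AF.goalCCN
lemma okDELG : StmtDELG := Pool.Agent.Helper18.AF.goalDELG okSWAP okDEL okBRC okCCN
lemma okMONO : StmtMONO := Pool.Agent.Helper69.AF.goalMONO okDELG
lemma okROT : StmtROT := Pool.Agent.Helper86.AF.goalROT
lemma okPAR : StmtPAR := Pool.Agent.Helper14.AF.goalPAR okORBS
lemma okBLK : StmtBLK := Pool.Agent.Helper12.AF.goalBLK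
lemma okUG : StmtUG := Pool.Agent.Helper83.AF.goalUG okROT okPAR okBLK
lemma okCYL : StmtCYL := Pool.Agent.Helper34.AF.goalCYL
lemma okCHE : StmtCHE := Pool.Agent.Helper88.AF.goalCHE okCYL
lemma okTR : StmtTR := Pool.Agent.Helper57.AF.goalTR Pool.Agent.Helper57.AF.goalTR1 okCHE
lemma okCMP : StmtCMP := Pool.Agent.Helper95.AF.goalCMP okCYL
lemma okEXPD : StmtEXPD := E54.goalEXPD okCMP Pool.Agent.Helper57.AF.goalTUPC
lemma okEXPB : StmtEXPB := Pool.Agent.Helper90.AF.goalEXPB okEXPD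
lemma okISN : StmtISN := Pool.Agent.Helper20.AF.goalISN (Pool.Agent.Helper73.AF.goalISG okCYL)
lemma okFAL : StmtFAL := Pool.Agent.Helper74.AF.goalFAL
lemma okFOR : StmtFOR := Pool.Agent.Helper77.AF.goalFOR
lemma okCOR2 : StmtCOR2 := Pool.Agent.Helper93.AF.goalCOR2 okFOR
lemma okCORI : StmtCORI := Pool.Agent.Helper16.AF.goalCORI okFOR
lemma okPMC : StmtPMC := Pool.Agent.Helper28.AF.goalPMC
lemma okINS : StmtINS := Pool.Agent.Helper92.AF.goalINS
lemma okNPC : StmtNPC := Pool.Agent.Helper90.AF.goalNPC okPMC okINS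
lemma okPAU : StmtPAU := Pool.Agent.Helper34.AF.goalPAU
lemma okKFO : StmtKFO := Pool.Agent.Helper4.AF.goalKFO okNPC okPAU
lemma okKNU : StmtKNU := Pool.Agent.Helper57.AF.goalKNU okKFO
lemma okPOI : StmtPOI := Pool.Agent.Helper22.AF.goalPOI
lemma okKSM : StmtKSM := Pool.Agent.Helper32.AF.goalKSM okPOI
lemma okEEB : StmtEEB := Pool.Agent.Helper28.AF.goalEEB
lemma okSSM : StmtSSM := Pool.Agent.Helper36.AF.goalSSM okEEB
lemma okWR : StmtWR := Pool.Agent.Helper85.AF.goalWR okCOR2 okKNU okKSM okSSM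
lemma okUPP : StmtUPP := Pool.Agent.Helper69.AF.goalUPP okFAL okWR okEXPB okISN
lemma okKDI : StmtKDI := Pool.Agent.Helper24.AF.goalKDI okPMC
lemma okKBD : StmtKBD := Pool.Agent.Helper22.AF.goalKBD okPMC
lemma okKFA : StmtKFA := Pool.Agent.Helper64.AF.goalKFA
lemma okKER : StmtKER := Pool.Agent.Helper83.AF.goalKER okPMC okKDI okKBD okKFA
lemma okSUB : StmtSUB := Pool.Agent.Helper87.AF.goalSUB okINS
lemma okGRF : StmtGRF1 := Pool.Agent.Helper33.AF.goalGRF
lemma okTRS : StmtTRS := Pool.Agent.Helper24.AF.goalTRS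
lemma okKGL : StmtKGL := goalKGL1 okSUB okKER okGRF okTRS
lemma okWIN : StmtWIN := Pool.Agent.Helper15.AF.goalWIN
lemma okSMO : StmtSMO := Pool.Agent.Helper50.AF.goalSMO okCMP
lemma okNUL : StmtNUL := goalNUL okEEB

theorem allMAIN (hGCO : StmtGCO) : StmtMAIN2 :=
  goalMAIN2 (Pool.Agent.Helper69.AF.goalLOW okCORI okKGL okSMO okWIN okNUL hGCO) okUPP okUG okMONO okTR

end Pool.Agent.Helper26.AF
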